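import Pool.Agent.TH133.Ext
import Pool.Agent.W484.CK.Stm

/-!
# Products of curves with actions of finite groups: the definitions used in the statements
-/

set_option autoImplicit false

open CategoryTheory AlgebraicGeometry

universe u v w

namespace Pool.Agent.U191.EY

open Pool.Agent.H914 Pool.Agent.H914.VarClass Pool.Agent.H914.VarClass.Obj Pool.Agent.W492.BB
  Pool.Agent.W550.Corr Pool.Agent.TH133

/-! ### Characters -/

/-- The matrix representations `ρ φ` are a complete list of the irreducible representations of `G`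
over `F`, which are all absolutely irreducible: they define an isomorphism from the group algebra
to the product of the matrix algebras. -/
structure IsComplete {G : Type} [Group G] [Fintype G] {F : Type} [Field F] {Φ : Type} {n : Φ → ℕ}
    (ρ : ∀ φ, G →* Matrix (Fin (n φ)) (Fin (n φ)) F) : Prop where
  pos : ∀ φ, 0 < n φ
  bij : Function.Bijective fun (x : G → F) (φ : Φ) => ∑ g, x g • ρ φ g

/-- The complex number `z` lies in the imaginary quadratic field generated by the square root of
`-D` (in `ℚ` if `D = 0`). -/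
def InQuad (D : ℕ) (z : ℂ) : Prop := ∃ a b : ℚ, z = a + b * (Real.sqrt D * Complex.I)

/-- All irreducible characters of the finite group `G` have values in the field generated by the
square root of `-D`: there is a complete list of irreducible matrix representations over `ℂ` with
traces in this field. -/
def HasCharactersIn (D : ℕ) (G : Type) [Group G] [Fintype G] : Prop :=
  ∃ (Φ : Type) (_ : Fintype Φ) (n : Φ → ℕ) (ρ : ∀ φ, G →* Matrix (Fin (n φ)) (Fin (n φ)) ℂ),
    IsComplete ρ ∧ ∀ φ g, InQuad D (ρ φ g).trace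

/-! ### Curves with actions of finite groups, and their products -/

section

variable {k : Type u} [Field k]

/-- A variety `V` with endomorphisms `ρ g` indexed by the elements of a finite group `G`. -/
structure GCurve (𝒱 : VarClass k) where
  /-- the variety -/
  V : 𝒱.Obj
  /-- the group -/
  G : Type
  [grp : Group G]
  [fin : Fintype G]
  /-- the action -/
  ρ : G → (V ⟶ V)

attribute [instance] GCurve.grp GCurve.fin

variable {𝒱 : VarClass k}

/-- `V` is a curve and `ρ` is an action of `G` by automorphisms. -/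
structure GCurve.IsAction (c : GCurve 𝒱) : Prop where
  dim_eq : c.V.dim = 1
  one : c.ρ 1 = 𝟙 c.V
  mul : ∀ g h : c.G, c.ρ (g * h) = c.ρ h ≫ c.ρ g

/-- The product of the groups. -/
def Grp : List (GCurve 𝒱) → Type
  | [] => PUnit
  | c :: L => c.G × Grp L

/-- The product `C_1 × (C_2 × ⋯ × (C_n × B))`. -/
noncomputable def prodL (B : 𝒱.Obj) : List (GCurve 𝒱) → 𝒱.Obj
  | [] => B
  | c :: L => c.V.prod (prodL B L)

/-- The automorphism `g_1 × ⋯ × g_n × 1` of the product. -/
noncomputable def mapL (B : 𝒱.Obj) : (L : List (GCurve 𝒱)) → Grp L → (prodL B L ⟶ prodL B L)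
  | [], _ => 𝟙 B
  | c :: L, γ => prodMap (c.ρ γ.1) (mapL B L γ.2)

end

/-! ### The Hodge decomposition -/

/-- The data of the Hodge decomposition on the cohomology `M` (with complex coefficients) of a
variety: the subspaces `H^{p,q}`, the complex conjugation and the set of rational classes. -/
structure HodgeRing (M : Type v) [Ring M] [Algebra ℂ M] where
  /-- the subspace `H^{p,q}` -/
  hdg : ℕ → ℕ → Submodule ℂ M
  /-- the complex conjugation -/
  conj : M → M
  /-- the rational classes -/
  rat : Set M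

section

variable {M : Type v} [Ring M] [Algebra ℂ M]

/-- The standard properties of the types (with the grading `gr`): `M` is finite-dimensional and
graded commutative; `H^{p,q}` lies in degree `p + q`, contains `1` for `p = q = 0`, is compatible
with products, and `M^1 = H^{1,0} ⊕ H^{0,1}`. -/
structure HodgeRing.HasTypes (D : HodgeRing M) (gr : ℤ → Submodule ℂ M) : Prop where
  finite : Module.Finite ℂ M
  comm : ∀ (i j : ℕ) (x y : M), x ∈ gr i → y ∈ gr j → x * y = (-1 : ℂ) ^ (i * j) • (y * x)
  hdg_deg : ∀ p q : ℕ, D.hdg p q ≤ gr (p + q)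
  one_mem : 1 ∈ D.hdg 0 0
  mul_mem : ∀ p q p' q' x y, x ∈ D.hdg p q → y ∈ D.hdg p' q' → x * y ∈ D.hdg (p + p') (q + q')
  sup : gr 1 ≤ D.hdg 1 0 ⊔ D.hdg 0 1
  inf : Disjoint (D.hdg 1 0) (D.hdg 0 1)

/-- The standard properties of the conjugation and of the rational classes: the conjugation is
antilinear, an involution, preserves degrees and exchanges `H^{p,q}` and `H^{q,p}`; the rational
classes are stable under sums and rational multiples and span `M`. -/
structure HodgeRing.HasConj (D : HodgeRing M) (gr : ℤ → Submodule ℂ M) : Prop where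
  conj_add : ∀ x y, D.conj (x + y) = D.conj x + D.conj y
  conj_smul : ∀ (c : ℂ) (x : M), D.conj (c • x) = starRingEnd ℂ c • D.conj x
  conj_conj : ∀ x, D.conj (D.conj x) = x
  conj_deg : ∀ i x, x ∈ gr i → D.conj x ∈ gr i
  conj_hdg : ∀ p q x, x ∈ D.hdg p q → D.conj x ∈ D.hdg q p
  rat_add : ∀ x y, x ∈ D.rat → y ∈ D.rat → x + y ∈ D.rat
  rat_smul : ∀ (q : ℚ) (x : M), x ∈ D.rat → (q : ℂ) • x ∈ D.rat
  rat_span : Submodule.span ℂ D.rat = ⊤

/-- The variety has Hodge coniveau at least `c`: `H^{p,q} = 0` for `p ≠ q`, `min (p, q) < c`. -/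
def HodgeRing.HasConiveau (D : HodgeRing M) (c : ℕ) : Prop :=
  ∀ p q : ℕ, p ≠ q → min p q < c → D.hdg p q = ⊥

/-- The maps `F` and `F'` agree on the spaces `H^{p,q}` with `p ≠ q`, `min (p, q) < c`. -/
def HodgeRing.Agree (D : HodgeRing M) (c : ℕ) (F F' : M → M) : Prop :=
  ∀ p q : ℕ, p ≠ q → min p q < c → ∀ x ∈ D.hdg p q, F x = F' x

end

section

variable {k : Type u} [Field k] {𝒱 : VarClass k} {C : TheoryData.{u, v, 0} 𝒱 ℚ}

/-- The types are compatible with the action of correspondences of degree zero. -/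
def HasAct (H : WeilTheoryData.{u, v, 0} C ℂ) (D : ∀ V : 𝒱.Obj, HodgeRing (H.A V)) : Prop :=
  ∀ (V W : 𝒱.Obj) (Γ : C.A (V.prod W)) (p q : ℕ) (x : H.A V), C.Deg V.dim Γ →
    x ∈ (D V).hdg p q → H.act (H.cl Γ) x ∈ (D W).hdg p q

/-- The conjugation commutes with pull-backs, and the rational classes are stable under
pull-backs. -/
structure IsNatural (H : WeilTheoryData.{u, v, 0} C ℂ) (D : ∀ V : 𝒱.Obj, HodgeRing (H.A V)) :
    Prop where
  conj_pull : ∀ (V W : 𝒱.Obj) (f : V ⟶ W) (x : H.A W),
    (D V).conj (H.up f x) = H.up f ((D W).conj x)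
  rat_pull : ∀ (V W : 𝒱.Obj) (f : V ⟶ W) (x : H.A W), x ∈ (D W).rat → H.up f x ∈ (D V).rat

/-- The theorem of Lefschetz on (1,1)-classes: the rational classes of type `(1, 1)` are classes of
divisors. -/
def LefschetzOneOne (H : WeilTheoryData.{u, v, 0} C ℂ) (D : ∀ V : 𝒱.Obj, HodgeRing (H.A V)) :
    Prop :=
  ∀ (V : 𝒱.Obj) (x : H.A V), x ∈ (D V).rat → x ∈ (D V).hdg 1 1 → ∃ z : C.A V, C.Deg 1 z ∧ H.cl z = x

/-- The standard properties of the Hodge decompositions of all varieties. -/
structure IsHodge (H : WeilTheoryData.{u, v, 0} C ℂ) (D : ∀ V : 𝒱.Obj, HodgeRing (H.A V)) :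
    Prop where
  types : ∀ V, (D V).HasTypes (H.gr V)
  conj : ∀ V, (D V).HasConj (H.gr V)
  act : HasAct H D
  natural : IsNatural H D
  lefschetz : LefschetzOneOne H D

/-- The maps `F` and `F'` agree on `A_i^{hom}(V)` for all `i < c`, that is, on the homologically
trivial cycles on `V` of codimension `j` with `dim V - j < c`. -/
def AgreeOnCycles (H : WeilTheoryData.{u, v, 0} C ℂ) (V : 𝒱.Obj) (c : ℕ) (F F' : C.A V → C.A V) :
    Prop :=
  ∀ (j : ℤ) (z : C.A V), C.Deg j z → H.cl z = 0 → (V.dim : ℤ) < j + c → F z = F' z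

/-- `A_i^{hom}(V) = 0` for all `i < c`: the homologically trivial cycles on `V` of codimension `j`
with `dim V - j < c` are zero. -/
def NoHomTrivial (H : WeilTheoryData.{u, v, 0} C ℂ) (V : 𝒱.Obj) (c : ℕ) : Prop :=
  AgreeOnCycles H V c id 0

/-! ### The group algebra -/

/-- The operator `a_* = ∑ a(γ) γ_*` on the Chow groups of the product. -/
noncomputable def chowOp (C : TheoryData.{u, v, 0} 𝒱 ℚ) (B : 𝒱.Obj) (L : List (GCurve 𝒱))
    (a : Grp L → ℚ) (z : C.A (prodL B L)) : C.A (prodL B L) :=
  ∑ᶠ γ, a γ • C.down (mapL B L γ) z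

/-- The operator `a_* = ∑ a(γ) γ_*` on the cohomology of the product. -/
noncomputable def cohOp (H : WeilTheoryData.{u, v, 0} C ℂ) (B : 𝒱.Obj) (L : List (GCurve 𝒱))
    (a : Grp L → ℚ) (x : H.A (prodL B L)) : H.A (prodL B L) :=
  ∑ᶠ γ, (a γ : ℂ) • H.down (mapL B L γ) x

/-- The composition `x ↦ β_* (α_* x)` for correspondences `α` from `X` to `Y` and `β` from `Y` to
`X`. -/
noncomputable def twice {F : Type w} [Field F] (T : TheoryData.{u, v, w} 𝒱 F) {X Y : 𝒱.Obj}
    (α : T.A (X.prod Y)) (β : T.A (Y.prod X)) (x : T.A X) : T.A X :=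
  T.act β (T.act α x)

/-- `β_* α_* = a_*` on the homologically trivial cycles of dimension less than `c` of the product
`X = C_1 × ⋯ × C_n × B` and on the spaces `H^{p,q}(X)` with `p ≠ q`, `min (p, q) < c`. -/
structure Composes {H : WeilTheoryData.{u, v, 0} C ℂ} (D : ∀ V : 𝒱.Obj, HodgeRing (H.A V))
    (B : 𝒱.Obj) (L : List (GCurve 𝒱)) (a : Grp L → ℚ) (c : ℕ) (Y : 𝒱.Obj)
    (α : C.A ((prodL B L).prod Y)) (β : C.A (Y.prod (prodL B L))) : Prop where
  on_cycles : AgreeOnCycles H (prodL B L) c (twice C α β) (chowOp C B L a)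
  on_hodge : (D (prodL B L)).Agree c (twice H.toTheoryData (H.cl α) (H.cl β)) (cohOp H B L a)

/-- The variety `Y` is, for cycles of dimension less than `c`, the direct summand of the product
`X = C_1 × ⋯ × C_n × B` which is cut out by the element `a` of the rational group algebra:
`dim Y = dim X`, and there are correspondences `α` from `X` to `Y` and `β` from `Y` to `X` of
degree zero such that `β_* α_* = a_*` on the homologically trivial cycles of dimension less
than `c` of `X` and on the spaces `H^{p,q}(X)` with `p ≠ q`, `min (p, q) < c` (`Composes`), and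
`α_* β_* = 1` on the homologically trivial cycles of dimension less than `c` of `Y`. -/
structure IsSummand {H : WeilTheoryData.{u, v, 0} C ℂ} (D : ∀ V : 𝒱.Obj, HodgeRing (H.A V))
    (B : 𝒱.Obj) (L : List (GCurve 𝒱)) (a : Grp L → ℚ) (c : ℕ) (Y : 𝒱.Obj)
    (α : C.A ((prodL B L).prod Y)) (β : C.A (Y.prod (prodL B L))) : Prop where
  dim_eq : Y.dim = (prodL B L).dim
  deg_left : C.Deg (prodL B L).dim α
  deg_right : C.Deg Y.dim β
  composes : Composes D B L a c Y α β
  on_target : AgreeOnCycles H Y c (twice C β α) id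

/-- The morphism `f : X ⟶ Y` of varieties of the same dimension is the quotient of the product
`X = C_1 × ⋯ × C_n × B` by the (nonempty) subset `S` of `G_1 × ⋯ × G_n`, for instance a subgroup:
`f_* f^* = |S|` on the cycles of `Y`, and `f^* f_* = ∑_{γ ∈ S} γ_*` on the cycles and on the
cohomology of `X`. -/
structure IsQuotient (H : WeilTheoryData.{u, v, 0} C ℂ) (B : 𝒱.Obj) (L : List (GCurve 𝒱))
    (S : Set (Grp L)) (Y : 𝒱.Obj) (f : prodL B L ⟶ Y) : Prop where
  nonempty : S.Nonempty
  dim_eq : Y.dim = (prodL B L).dim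
  down_up : ∀ y : C.A Y, C.down f (C.up f y) = (Nat.card S : ℚ) • y
  up_down : ∀ z : C.A (prodL B L), C.up f (C.down f z) = ∑ᶠ γ ∈ S, C.down (mapL B L γ) z
  up_down_coh : ∀ x : H.A (prodL B L), H.up f (H.down f x) = ∑ᶠ γ ∈ S, H.down (mapL B L γ) x

end

end Pool.Agent.U191.EY
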