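import Pool.Agent.U191.EY.Defs

/-!
# Block operators
-/

set_option autoImplicit false
set_option linter.unusedSectionVars false

open CategoryTheory AlgebraicGeometry

universe u v

namespace Pool.Agent.U191.EY

open Pool.Agent.H914 Pool.Agent.H914.VarClass Pool.Agent.H914.VarClass.Obj Pool.Agent.W492.BB
  Pool.Agent.W550.Corr Pool.Agent.TH133

variable {k : Type u} [Field k] {𝒱 : VarClass k} {C : TheoryData.{u, v, 0} 𝒱 ℚ}
  [hC : IsChowProj C] {H : WeilTheoryData.{u, v, 0} C ℂ} [hH : IsWeilProj H]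

omit hC hH in
lemma cl_smul {X : 𝒱.Obj} (q : ℚ) (x : C.A X) : H.cl (q • x) = (q : ℂ) • H.cl x := by
  rw [Algebra.smul_def, map_mul, Algebra.smul_def]
  congr 1
  exact congrArg (fun f : ℚ →+* H.A X => f q) (Subsingleton.elim
    (H.cl.comp (algebraMap ℚ (C.A X))) ((algebraMap ℂ (H.A X)).comp (Rat.castHom ℂ)))

/-- Pull-backs preserve the Hodge types. -/
theorem HodgeData.IsHodge.pull_mem {D : HodgeData H} (hD : D.IsHodge) (V W : 𝒱.Obj) (f : V ⟶ W)
    (p q : ℕ) (x : H.A W) (hx : x ∈ D.hdg W p q) : H.up f x ∈ D.hdg V p q := by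
  obtain ⟨Γ, hΓ, -, h2⟩ := Realised.pull (H := H) f
  rw [add_zero] at hΓ
  have h3 := hD.act_mem W V Γ p q x hΓ hx
  rwa [h2] at h3

/-- Push-forwards between varieties of the same dimension preserve the Hodge types. -/
theorem HodgeData.IsHodge.push_mem {D : HodgeData H} (hD : D.IsHodge) {V W : 𝒱.Obj} (f : V ⟶ W)
    (hVW : W.dim = V.dim) {p q : ℕ} {x : H.A V} (hx : x ∈ D.hdg V p q) :
    H.down f x ∈ D.hdg W p q := by
  obtain ⟨Γ, hΓ, -, h2⟩ := Realised.push (H := H) f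
  rw [hVW, sub_self, add_zero] at hΓ
  have h3 := hD.act_mem V W Γ p q x hΓ hx
  rwa [h2] at h3

/-- Finite sums of realised pairs. -/
lemma realised_sum {X Y : 𝒱.Obj} {e : ℤ} {ι : Type} (s : Finset ι) (φ : ι → C.A X → C.A Y)
    (ψ : ι → H.A X → H.A Y) (h : ∀ i, Realised H X Y e (φ i) (ψ i)) :
    Realised H X Y e (fun x => ∑ i ∈ s, φ i x) (fun a => ∑ i ∈ s, ψ i a) := by
  choose Γ h1 h2 h3 using h
  refine ⟨∑ i ∈ s, Γ i, Submodule.sum_mem _ fun i _ => h1 i, fun x => ?_, fun a => ?_⟩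
  · rw [act_sum]
    exact Finset.sum_congr rfl fun i _ => h2 i x
  · rw [map_sum, act_sum]
    exact Finset.sum_congr rfl fun i _ => h3 i a

lemma realised_smul {X Y : 𝒱.Obj} {e : ℤ} {φ : C.A X → C.A Y} {ψ : H.A X → H.A Y} (q : ℚ)
    (h : Realised H X Y e φ ψ) :
    Realised H X Y e (fun x => q • φ x) (fun a => (q : ℂ) • ψ a) := by
  obtain ⟨Γ, h1, h2, h3⟩ := h
  refine ⟨q • Γ, Submodule.smul_mem _ _ h1, fun x => ?_, fun a => ?_⟩
  · change C.act (q • Γ) x = q • φ x
    rw [← h2, TheoryData.act_apply, smul_mul_assoc, map_smul]; rfl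
  · change H.act (H.cl (q • Γ)) a = (q : ℂ) • ψ a
    rw [← h3, cl_smul, TheoryData.act_apply, smul_mul_assoc, map_smul]; rfl

lemma realised_zero (X Y : 𝒱.Obj) (e : ℤ) : Realised H X Y e (fun _ => 0) (fun _ => 0) := by
  have := realised_sum (H := H) (X := X) (Y := Y) (e := e) (∅ : Finset (Fin 0))
    (fun i _ => i.elim0) (fun i _ => i.elim0) (fun i => i.elim0)
  exact this.congr rfl (fun x => Finset.sum_empty) (fun x => Finset.sum_empty)

/-- Classes of top degree are determined by their trace. -/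
lemma eq_zero_of_tr {S : 𝒱.Obj} {s : H.A S} (hs : s ∈ H.gr S (2 * S.dim)) (h : H.tr S s = 0) :
    s = 0 := by
  apply H.nondeg
  have h0 : (H.tr S ∘ₗ LinearMap.mulLeft ℂ s) = 0 := by
    apply ext_gr H
    intro j b hb
    rw [LinearMap.comp_apply, LinearMap.mulLeft_apply, LinearMap.zero_apply]
    by_cases hj : j = 0
    · subst hj
      obtain ⟨c, rfl⟩ := hH.gr_zero S b hb
      rw [mul_smul_comm, mul_one, map_smul, h, smul_zero]
    · exact tr_zero H (H.mul_mem hs hb) (by omega)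
  intro b
  exact LinearMap.congr_fun h0 b

/-- The integral. -/
lemma exists_integral (H : WeilTheoryData.{u, v, 0} C ℂ) [hH : IsWeilProj H] (S : 𝒱.Obj) :
    ∃ τ : H.A S →ₗ[ℂ] ℂ, (∃ κ : ℂ, κ ≠ 0 ∧ τ = κ • H.tr S) ∧
    (∀ R s, H.push (snd S R) (H.pull (fst S R) s) = τ s • 1) ∧
    (∀ R s, H.push (fst R S) (H.pull (snd R S) s) = τ s • 1) ∧
    (∀ (x : C.A S), x ∈ C.gr S S.dim → ∀ q : ℚ, HasDegree C x q → τ (H.cl x) = q) := by
  obtain ⟨a, ha, ha1, ha2⟩ := exists_deg_one C S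
  have hne : H.tr S (H.cl a) ≠ 0 := by
    intro h
    have h1 : H.cl a = 0 := eq_zero_of_tr (H.cl_mem ha) h
    have h2 := congrArg H.cl (ha2 S)
    rw [H.cl_push, H.cl_pull, h1, map_zero, map_zero, map_one] at h2
    exact hH.one_ne_zero S h2.symm
  set κ := (H.tr S (H.cl a))⁻¹ with hκ
  have hdec : ∀ s ∈ H.gr S (2 * S.dim), s = (κ * H.tr S s) • H.cl a := by
    intro s hs
    rw [← sub_eq_zero]
    apply eq_zero_of_tr (Submodule.sub_mem _ hs (Submodule.smul_mem _ _ (H.cl_mem ha)))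
    rw [map_sub, map_smul, smul_eq_mul, hκ, mul_comm, ← mul_assoc, mul_inv_cancel₀ hne, one_mul,
      sub_self]
  have key1 : ∀ R s, H.push (snd S R) (H.pull (fst S R) s) = (κ • H.tr S) s • 1 := by
    intro R s
    have h0 : H.push (snd S R) ∘ₗ (H.pull (fst S R)).toLinearMap =
        LinearMap.toSpanSingleton ℂ (H.A R) 1 ∘ₗ (κ • H.tr S) := by
      apply ext_gr H
      intro j b hb
      rw [LinearMap.comp_apply, LinearMap.comp_apply, AlgHom.toLinearMap_apply,
        LinearMap.toSpanSingleton_apply, LinearMap.smul_apply, smul_eq_mul]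
      rcases lt_trichotomy j (2 * S.dim) with h | h | h
      · rw [tr_zero H hb (by omega), mul_zero, zero_smul]
        have h2 := H.push_mem (snd S R) (H.pull_mem (fst S R) hb)
        rw [H.gr_neg R _ (by rw [dim_prod]; push_cast; omega)] at h2
        exact (Submodule.mem_bot _).1 h2
      · subst h
        conv_lhs => rw [hdec b hb]
        rw [map_smul, map_smul, ← H.cl_pull, ← H.cl_push, ha2, map_one]
      · rw [gr_top H h] at hb
        rw [(Submodule.mem_bot _).1 hb, map_zero, map_zero, map_zero, mul_zero, zero_smul]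
    exact LinearMap.congr_fun h0 s
  have key2 : ∀ R s, H.push (fst R S) (H.pull (snd R S) s) = (κ • H.tr S) s • 1 := by
    intro R s
    have h0 : H.push (fst R S) ∘ₗ (H.pull (snd R S)).toLinearMap =
        LinearMap.toSpanSingleton ℂ (H.A R) 1 ∘ₗ (κ • H.tr S) := by
      apply ext_gr H
      intro j b hb
      rw [LinearMap.comp_apply, LinearMap.comp_apply, AlgHom.toLinearMap_apply,
        LinearMap.toSpanSingleton_apply, LinearMap.smul_apply, smul_eq_mul]
      rcases lt_trichotomy j (2 * S.dim) with h | h | h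
      · rw [tr_zero H hb (by omega), mul_zero, zero_smul]
        have h2 := H.push_mem (fst R S) (H.pull_mem (snd R S) hb)
        rw [H.gr_neg R _ (by rw [dim_prod]; push_cast; omega)] at h2
        exact (Submodule.mem_bot _).1 h2
      · subst h
        conv_lhs => rw [hdec b hb]
        rw [map_smul, map_smul, ← H.cl_pull, ← H.cl_push, ha1, map_one]
      · rw [gr_top H h] at hb
        rw [(Submodule.mem_bot _).1 hb, map_zero, map_zero, map_zero, mul_zero, zero_smul]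
    exact LinearMap.congr_fun h0 s
  refine ⟨κ • H.tr S, ⟨κ, inv_ne_zero hne, rfl⟩, key1, key2, ?_⟩
  intro x hx q hq
  have h1 := key1 S (H.cl x)
  rw [← H.cl_pull, ← H.cl_push, (hq S).1, cl_smul, map_one] at h1
  by_contra hne'
  have h2 : ((q : ℂ) - (κ • H.tr S) (H.cl x)) • (1 : H.A S) = 0 := by
    rw [sub_smul, h1, sub_self]
  have h3 : (1 : H.A S) = 0 := by
    have h4 : (q : ℂ) - (κ • H.tr S) (H.cl x) ≠ 0 := fun h => hne' (sub_eq_zero.1 h).symm
    rw [← one_smul ℂ (1 : H.A S), ← inv_mul_cancel₀ h4, mul_smul, h2, smul_zero]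
  exact hH.one_ne_zero S h3

/-- Block operators. -/
lemma block {Z S R : 𝒱.Obj} (e : Z ⟶ S.prod R) (e' : S.prod R ⟶ Z) (h1 : e ≫ e' = 𝟙 _)
    (h2 : e' ≫ e = 𝟙 _) (hdim : Z.dim = S.dim + R.dim) {φ : C.A R → C.A R} {ψ : H.A R → H.A R}
    (hφ : Realised H R R 0 φ ψ) {n : ℕ} (d : Fin n → ℤ) (u v : Fin n → C.A S)
    (hu : ∀ i, u i ∈ C.gr S (d i)) (hv : ∀ i, v i ∈ C.gr S (S.dim - d i)) :
    ∃ φ' ψ', Realised H Z Z 0 φ' ψ' ∧
      (∀ (τ : H.A S →ₗ[ℂ] ℂ), (∀ s, H.push (snd S R) (H.pull (fst S R) s) = τ s • 1) →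
        ∀ ω t, ψ t = t → ∑ i, τ (H.cl (u i) * ω) • H.cl (v i) = ω →
        ψ' (H.pull (e ≫ fst S R) ω * H.pull (e ≫ snd S R) t) =
          H.pull (e ≫ fst S R) ω * H.pull (e ≫ snd S R) t) ∧
      ∀ z, (∀ i, φ (C.push (e ≫ snd S R) (C.pull (e ≫ fst S R) (u i) * z)) = 0) → φ' z = 0 := by
  set p := e ≫ fst S R with hp
  set q := e ≫ snd S R with hq
  refine ⟨fun z => ∑ i, C.pull p (v i) * C.pull q (φ (C.push q (C.pull p (u i) * z))),
    fun w => ∑ i, H.cl (C.pull p (v i)) * H.pull q (ψ (H.push q (H.cl (C.pull p (u i)) * w))),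
    ?_, ?_, ?_⟩
  · apply realised_sum
    intro i
    have h3 := (((Realised.mul (H := H) (C.pull_mem p (hu i))).comp (Realised.push q)).comp
      hφ).comp (Realised.pull q)
    refine (h3.comp (Realised.mul (C.pull_mem p (hv i)))).congr ?_ (fun x => rfl) (fun x => rfl)
    rw [hdim]; push_cast; ring
  · intro τ hτ ω t ht hω
    obtain ⟨Γ, hΓ, hΓ1, hΓ2⟩ := hφ
    have h4 : ∀ i, H.push q (H.cl (C.pull p (u i)) * (H.pull p ω * H.pull q t)) =
        τ (H.cl (u i) * ω) • t := by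
      intro i
      rw [H.cl_pull, ← mul_assoc, ← map_mul, H.proj_right]
      have h5 : H.push q (H.pull p (H.cl (u i) * ω)) = τ (H.cl (u i) * ω) • 1 := by
        rw [← hτ, hq, hp, H.push_comp, H.pull_comp]
        congr 1
        exact push_pull_iso H.toTheoryData e e' h1 h2 _
      rw [h5, smul_mul_assoc, one_mul]
    have h6 : ∀ i, H.cl (C.pull p (v i)) * H.pull q (ψ (H.push q (H.cl (C.pull p (u i)) *
        (H.pull p ω * H.pull q t)))) =
        H.pull p (τ (H.cl (u i) * ω) • H.cl (v i)) * H.pull q t := by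
      intro i
      rw [h4, ← hΓ2, act_map_smul, hΓ2, ht, H.cl_pull, map_smul, map_smul, mul_smul_comm,
        smul_mul_assoc]
    change ∑ i, H.cl (C.pull p (v i)) * H.pull q (ψ (H.push q (H.cl (C.pull p (u i)) *
        (H.pull p ω * H.pull q t)))) = _
    rw [Finset.sum_congr rfl fun i _ => h6 i, ← Finset.sum_mul, ← map_sum, hω]
  · intro z hz
    refine Finset.sum_eq_zero fun i _ => ?_
    rw [hz i, map_zero, mul_zero]

end Pool.Agent.U191.EY
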