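import Mathlib

/-!
# Irreducible characters of finite groups
-/

set_option autoImplicit false

namespace Pool.Agent.U191.EY

variable {G : Type} [Group G] [Fintype G]

/-- The identities of the irreducible characters: `χ` has the degree `d = χ(1) > 0`,
`χ(g⁻¹)` is the conjugate of `χ(g)`, the functional equation, and `χ * χ = (|G|/d) χ`. -/
structure IsIrr (χ : G → ℂ) (d : ℚ) : Prop where
  pos : 0 < d
  one : χ 1 = d
  inv : ∀ g, χ g⁻¹ = starRingEnd ℂ (χ g)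
  func : ∀ g h, ∑ x, χ (g * (x * h * x⁻¹)) = ((Fintype.card G / d : ℚ) : ℂ) * (χ g * χ h)
  conv : ∀ g, ∑ h, χ h * χ (h⁻¹ * g) = ((Fintype.card G / d : ℚ) : ℂ) * χ g

variable {χ : G → ℂ} {d : ℚ}

lemma card_pos' : (0 : ℚ) < Fintype.card G := by
  exact_mod_cast Fintype.card_pos_iff.2 ⟨(1 : G)⟩

lemma IsIrr.l_pos (h : IsIrr χ d) : (0 : ℚ) < Fintype.card G / d := div_pos card_pos' h.pos

lemma IsIrr.cls (h : IsIrr χ d) (y g : G) : χ (y * g * y⁻¹) = χ g := by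
  have key : ∀ g, (Fintype.card G : ℂ) * χ g = ∑ x, χ (x * g * x⁻¹) := by
    intro g
    have h1 := h.func 1 g
    simp only [one_mul] at h1
    rw [h1, h.one]
    have hd : (d : ℂ) ≠ 0 := by exact_mod_cast h.pos.ne'
    push_cast
    field_simp
  have h1 : (Fintype.card G : ℂ) * χ (y * g * y⁻¹) = (Fintype.card G : ℂ) * χ g := by
    rw [key, key]
    refine Fintype.sum_equiv (Equiv.mulRight y) _ _ fun x => ?_
    change χ (x * (y * g * y⁻¹) * x⁻¹) = χ (x * y * g * (x * y)⁻¹)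
    congr 1
    group
  have h2 : (Fintype.card G : ℂ) ≠ 0 := by exact_mod_cast card_pos'.ne'
  exact mul_left_cancel₀ h2 h1

lemma IsIrr.comm (h : IsIrr χ d) (x y : G) : χ (x * y) = χ (y * x) := by
  rw [← h.cls y (x * y)]
  congr 1
  group

lemma IsIrr.bar (h : IsIrr χ d) : IsIrr (fun g => χ g⁻¹) d where
  pos := h.pos
  one := by rw [inv_one, h.one]
  inv g := by rw [h.inv]
  func g k := by
    have h1 := h.func g⁻¹ k⁻¹
    rw [← h1]
    refine Finset.sum_congr rfl fun x _ => ?_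
    rw [h.comm]
    congr 1
    group
  conv g := by
    have h1 := h.conv g⁻¹
    rw [← h1]
    refine Fintype.sum_equiv (Equiv.inv G) _ _ fun x => ?_
    change χ x⁻¹ * χ (x⁻¹ * g)⁻¹ = χ x⁻¹ * χ (x⁻¹⁻¹ * g⁻¹)
    rw [h.comm, mul_inv_rev]

/-- The convolution of a class function with an irreducible character. -/
lemma IsIrr.conv_cls (h : IsIrr χ d) (f : G → ℂ) (hf : ∀ y g, f (y * g * y⁻¹) = f g) (e : G) :
    ∑ g, f g * χ (g⁻¹ * e) = (∑ g, f g * χ g⁻¹) / d * χ e := by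
  have hd : (d : ℂ) ≠ 0 := by exact_mod_cast h.pos.ne'
  have hc : (Fintype.card G : ℂ) ≠ 0 := by exact_mod_cast card_pos'.ne'
  have h1 : ∀ x : G, ∑ g, f g * χ (g⁻¹ * e) = ∑ g, f g * χ (e * (x * g⁻¹ * x⁻¹)) := by
    intro x
    refine (Fintype.sum_equiv (MulAut.conj x).toEquiv _ _ fun g => ?_).symm
    change f g * χ (e * (x * g⁻¹ * x⁻¹)) = f (x * g * x⁻¹) * χ ((x * g * x⁻¹)⁻¹ * e)
    rw [hf, h.comm]
    congr 3
    group
  have h2 : (Fintype.card G : ℂ) * ∑ g, f g * χ (g⁻¹ * e) =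
      ∑ g, f g * (((Fintype.card G / d : ℚ) : ℂ) * (χ e * χ g⁻¹)) := by
    have h3 : (Fintype.card G : ℂ) * ∑ g, f g * χ (g⁻¹ * e) =
        ∑ _x : G, ∑ g, f g * χ (g⁻¹ * e) := by
      rw [Finset.sum_const, Finset.card_univ, nsmul_eq_mul]
    rw [h3, Finset.sum_congr rfl fun x _ => h1 x, Finset.sum_comm]
    refine Finset.sum_congr rfl fun g _ => ?_
    rw [← Finset.mul_sum, h.func]
  apply mul_left_cancel₀ hc
  rw [h2, Finset.sum_div, Finset.sum_mul, Finset.mul_sum]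
  refine Finset.sum_congr rfl fun g _ => ?_
  push_cast
  field_simp

lemma IsIrr.sum_zero (h : IsIrr χ d) : (∑ g, χ g = 0) ∨ ∀ g, χ g = 1 := by
  by_cases h0 : ∑ g, χ g = 0
  · exact Or.inl h0
  right
  have hd : (d : ℂ) ≠ 0 := by exact_mod_cast h.pos.ne'
  have h1 : ∀ e, χ e = d := by
    intro e
    have h2 := h.conv_cls (fun _ => 1) (fun _ _ => rfl) e
    simp only [one_mul] at h2
    have h3 : ∑ g, χ (g⁻¹ * e) = ∑ g, χ g := by
      refine Fintype.sum_equiv ((Equiv.inv G).trans (Equiv.mulRight e)) _ _ fun g => rfl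
    have h4 : ∑ g, χ g⁻¹ = ∑ g, χ g := Fintype.sum_equiv (Equiv.inv G) _ _ fun g => rfl
    rw [h3, h4] at h2
    have h5 : (∑ g, χ g) * d = (∑ g, χ g) * χ e := by
      conv_lhs => rw [h2]
      field_simp
    exact (mul_left_cancel₀ h0 h5).symm
  have h2 := h.conv 1
  simp only [h1] at h2
  rw [Finset.sum_const, Finset.card_univ, nsmul_eq_mul] at h2
  have hc : (Fintype.card G : ℂ) ≠ 0 := by exact_mod_cast card_pos'.ne'
  have h3 : (d : ℂ) * d = 1 := by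
    apply mul_left_cancel₀ hc
    rw [h2]
    push_cast
    field_simp
  have h4 : d * d = 1 := by exact_mod_cast h3
  have h5 : d = 1 := by
    nlinarith [h.pos]
  intro g
  rw [h1, h5, Rat.cast_one]

/-- The rational function `χ + conj χ` on the group. -/
lemma IsIrr.exists_real (h : IsIrr χ d) (hq : ∀ g, ∃ q : ℚ, (q : ℂ) = χ g + χ g⁻¹) :
    ∃ (R : G → ℚ) (l : ℚ), (∀ g, (R g : ℂ) = χ g + χ g⁻¹) ∧ (∀ g, R g⁻¹ = R g) ∧ l ≠ 0 ∧
      (∀ e, ∑ g, R g * R (g⁻¹ * e) = l * R e) ∧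
      (∀ e, ∑ g, (R g : ℂ) * χ (g⁻¹ * e) = l * χ e) ∧
      (∀ e, ∑ g, (R g : ℂ) * χ (g⁻¹ * e)⁻¹ = l * χ e⁻¹) := by
  choose R hR using hq
  have hd : (d : ℂ) ≠ 0 := by exact_mod_cast h.pos.ne'
  have hneg : ∀ g, R g⁻¹ = R g := by
    intro g
    have h2 : ((R g⁻¹ : ℚ) : ℂ) = (R g : ℂ) := by rw [hR, hR, inv_inv, add_comm]
    exact_mod_cast h2
  -- the convolution of `χ` and its conjugate
  have hc1 : ∀ e, ∑ g, χ g⁻¹ * χ (g⁻¹ * e) = (∑ g, χ g * χ g) / d * χ e := by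
    intro e
    rw [h.conv_cls (fun g => χ g⁻¹) (fun y g => by
      have := h.cls y g⁻¹
      rw [← this]
      congr 1
      group) e]
    congr 2
    exact Fintype.sum_equiv (Equiv.inv G) _ _ fun g => rfl
  have hc2 : ∀ e, ∑ g, χ g * χ (g⁻¹ * e)⁻¹ = (∑ g, χ g * χ g) / d * χ e⁻¹ := by
    intro e
    rw [h.bar.conv_cls χ h.cls e]
    congr 2
    refine Finset.sum_congr rfl fun g _ => ?_
    rw [inv_inv]
  have hc3 : ∀ e, ∑ g, χ g⁻¹ * χ (g⁻¹ * e) = ∑ g, χ g * χ (g⁻¹ * e)⁻¹ := by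
    intro e
    refine Fintype.sum_equiv ((Equiv.inv G).trans (Equiv.mulRight e)) _ _ fun g => ?_
    change χ g⁻¹ * χ (g⁻¹ * e) = χ (g⁻¹ * e) * χ ((g⁻¹ * e)⁻¹ * e)⁻¹
    rw [mul_comm]
    congr 1
    have e1 : ((g⁻¹ * e)⁻¹ * e)⁻¹ = e⁻¹ * g⁻¹ * e⁻¹⁻¹ := by group
    rw [e1, h.cls]
  have hkap : ∃ kap : ℚ, (kap = 0 ∨ kap = Fintype.card G / d) ∧
      (∀ e, ∑ g, χ g⁻¹ * χ (g⁻¹ * e) = kap * χ e) ∧
      (∀ e, ∑ g, χ g * χ (g⁻¹ * e)⁻¹ = kap * χ e⁻¹) := by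
    by_cases hk : (∑ g, χ g * χ g) / (d : ℂ) = 0
    · refine ⟨0, Or.inl rfl, fun e => ?_, fun e => ?_⟩
      · rw [hc1, hk, Rat.cast_zero]
      · rw [hc2, hk, Rat.cast_zero]
    · have hreal : ∀ e, χ e⁻¹ = χ e := by
        intro e
        have h1 := hc3 e
        rw [hc1, hc2] at h1
        exact (mul_left_cancel₀ hk h1).symm
      have h2 : (∑ g, χ g * χ g) / (d : ℂ) = ((Fintype.card G / d : ℚ) : ℂ) := by
        have h3 := h.conv 1
        simp only [mul_one, hreal] at h3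
        rw [h3, h.one]
        field_simp
      refine ⟨Fintype.card G / d, Or.inr rfl, fun e => ?_, fun e => ?_⟩
      · rw [hc1, h2]
      · rw [hc2, h2]
  obtain ⟨kap, hkap, hk1, hk2⟩ := hkap
  have hA : ∀ e, ∑ g, (R g : ℂ) * χ (g⁻¹ * e) = ((Fintype.card G / d + kap : ℚ) : ℂ) * χ e := by
    intro e
    simp_rw [hR, add_mul]
    rw [Finset.sum_add_distrib, h.conv, hk1]
    push_cast
    ring
  have hB : ∀ e, ∑ g, (R g : ℂ) * χ (g⁻¹ * e)⁻¹ =
      ((Fintype.card G / d + kap : ℚ) : ℂ) * χ e⁻¹ := by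
    intro e
    simp_rw [hR, add_mul]
    rw [Finset.sum_add_distrib, hk2]
    rw [h.bar.conv e]
    push_cast
    ring
  refine ⟨R, Fintype.card G / d + kap, hR, hneg, ?_, ?_, hA, hB⟩
  · have := h.l_pos
    rcases hkap with h1 | h1
    · rw [h1, add_zero]
      exact this.ne'
    · rw [h1]
      exact (add_pos this this).ne'
  · intro e
    have h2 : (∑ g, (R g : ℂ) * R (g⁻¹ * e)) =
        ((Fintype.card G / d + kap : ℚ) : ℂ) * R e := by
      simp_rw [hR (_ * e), mul_add]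
      rw [Finset.sum_add_distrib, hA, hB, hR]
      ring
    exact_mod_cast h2

/-- The product of irreducible characters. -/
lemma IsIrr.prod {G' : Type} [Group G'] [Fintype G'] {χ' : G' → ℂ} {d' : ℚ} (h : IsIrr χ d)
    (h' : IsIrr χ' d') : IsIrr (fun γ : G × G' => χ γ.1 * χ' γ.2) (d * d') where
  pos := mul_pos h.pos h'.pos
  one := by
    change χ 1 * χ' 1 = _
    rw [h.one, h'.one]
    push_cast
    rfl
  inv g := by
    change χ g.1⁻¹ * χ' g.2⁻¹ = _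
    rw [h.inv, h'.inv, map_mul]
  func g k := by
    have h1 : ∀ x : G × G', χ (g * (x * k * x⁻¹)).1 * χ' (g * (x * k * x⁻¹)).2 =
        χ (g.1 * (x.1 * k.1 * x.1⁻¹)) * χ' (g.2 * (x.2 * k.2 * x.2⁻¹)) := fun _ => rfl
    simp only [h1]
    rw [Fintype.sum_prod_type]
    simp only [← Finset.mul_sum, h'.func, ← Finset.sum_mul, h.func]
    have hd : (d : ℂ) ≠ 0 := by exact_mod_cast h.pos.ne'
    have hd' : (d' : ℂ) ≠ 0 := by exact_mod_cast h'.pos.ne'
    rw [Fintype.card_prod]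
    push_cast
    field_simp
  conv g := by
    have h1 : ∀ x : G × G', χ x.1 * χ' x.2 * (χ (x⁻¹ * g).1 * χ' (x⁻¹ * g).2) =
        (χ x.1 * χ (x.1⁻¹ * g.1)) * (χ' x.2 * χ' (x.2⁻¹ * g.2)) := by
      intro x
      change χ x.1 * χ' x.2 * (χ (x.1⁻¹ * g.1) * χ' (x.2⁻¹ * g.2)) = _
      ring
    simp only [h1]
    rw [Fintype.sum_prod_type]
    simp only [← Finset.mul_sum, h'.conv, ← Finset.sum_mul, h.conv]
    have hd : (d : ℂ) ≠ 0 := by exact_mod_cast h.pos.ne'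
    have hd' : (d' : ℂ) ≠ 0 := by exact_mod_cast h'.pos.ne'
    rw [Fintype.card_prod]
    push_cast
    field_simp

end Pool.Agent.U191.EY
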