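import Pool.Agent.U191.EY.Good

/-!
# Hodge types of the eigenclasses and the combinatorial part
-/

set_option autoImplicit false
set_option linter.unusedSectionVars false

open CategoryTheory AlgebraicGeometry

universe u v

namespace Pool.Agent.U191.EY

open Pool.Agent.H914 Pool.Agent.H914.VarClass Pool.Agent.H914.VarClass.Obj Pool.Agent.W492.BB
  Pool.Agent.W550.Corr Pool.Agent.TH133

variable {k : Type u} [Field k] {𝒱 : VarClass k} {E : ℕ} {C : TheoryData.{u, v, 0} 𝒱 ℚ}
  [hC : IsChowProj C] {H : WeilTheoryData.{u, v, 0} C ℂ} [hH : IsWeilProj H] {B : 𝒱.Obj}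
  {D : HodgeData H}

/-- There is an eigenclass of type `(1, 0)`. -/
def PosA (D : HodgeData H) (f : Fac 𝒱) : Prop :=
  ∃ x, x ≠ 0 ∧ Eig H f true 1 x ∧ x ∈ D.hdg f.c.V 1 0

/-- There is an eigenclass of type `(0, 1)`. -/
def PosB (D : HodgeData H) (f : Fac 𝒱) : Prop :=
  ∃ x, x ≠ 0 ∧ Eig H f true 1 x ∧ x ∈ D.hdg f.c.V 0 1

/-- The character is trivial. -/
def IsTriv (f : Fac 𝒱) : Prop := ∀ g, f.χ g = 1

lemma conj_ne {D : HodgeData H} (hD : D.IsHodge) {V : 𝒱.Obj} {x : H.A V} (hx : x ≠ 0) :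
    D.conj V x ≠ 0 := by
  intro h
  apply hx
  have h0 : D.conj V 0 = 0 := by
    have h1 := hD.conj_smul V 0 0
    rwa [zero_smul, map_zero, zero_smul] at h1
  rw [← hD.conj_conj V x, h, h0]

lemma conj_sum (hD : D.IsHodge) {V : 𝒱.Obj} {ι : Type} (s : Finset ι) (x : ι → H.A V) :
    D.conj V (∑ i ∈ s, x i) = ∑ i ∈ s, D.conj V (x i) := by
  classical
  induction s using Finset.induction_on with
  | empty =>
    rw [Finset.sum_empty, Finset.sum_empty]
    have h1 := hD.conj_smul V 0 0
    rwa [zero_smul, map_zero, zero_smul] at h1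
  | insert a s ha ih => rw [Finset.sum_insert ha, Finset.sum_insert ha, hD.conj_add, ih]

lemma eig_conj (hD : D.IsHodge) {f : Fac 𝒱} {b : Bool} {i : ℤ} {x : H.A f.c.V}
    (hx : Eig H f b i x) : Eig H f (!b) i (D.conj f.c.V x) := by
  refine ⟨hD.conj_deg _ _ _ hx.1, ?_⟩
  have h1 := congrArg (D.conj f.c.V) hx.2
  rw [conj_sum hD, hD.conj_smul, map_ratCast] at h1
  rw [← h1]
  refine Finset.sum_congr rfl fun g _ => ?_
  rw [hD.conj_smul, cv_not]
  congr 1
  exact (hD.conj_pull _ _ (f.c.ρ g) x).symm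

lemma eig_iff {f : Fac 𝒱} {b : Bool} {i : ℤ} {x : H.A f.c.V} (hx : x ∈ H.gr f.c.V i) :
    Eig H f b i x ↔ avf H f b x = (f.l : ℂ) • x := by
  rw [avf_apply]
  exact ⟨fun h => h.2, fun h => ⟨hx, h⟩⟩

lemma avf_hdg (hD : D.IsHodge) {f : Fac 𝒱} {b : Bool} {p q : ℕ} {x : H.A f.c.V}
    (hx : x ∈ D.hdg f.c.V p q) : avf H f b x ∈ D.hdg f.c.V p q := by
  rw [avf_apply]
  exact Submodule.sum_mem _ fun g _ => Submodule.smul_mem _ _ (hD.pull_mem _ _ _ _ _ _ hx)

lemma eig_split (hD : D.IsHodge) {f : Fac 𝒱} {b : Bool} {x : H.A f.c.V} (hx : Eig H f b 1 x) :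
    ∃ y z, x = y + z ∧ (Eig H f b 1 y ∧ y ∈ D.hdg f.c.V 1 0) ∧
      (Eig H f b 1 z ∧ z ∈ D.hdg f.c.V 0 1) := by
  obtain ⟨y, hy, z, hz, rfl⟩ := hD.split _ x hx.1
  have hy1 : y ∈ H.gr f.c.V 1 := by
    have := hD.hdg_deg _ _ _ _ hy
    norm_num at this
    exact this
  have hz1 : z ∈ H.gr f.c.V 1 := by
    have := hD.hdg_deg _ _ _ _ hz
    norm_num at this
    exact this
  have h1 := (eig_iff hx.1).1 hx
  rw [map_add, smul_add] at h1
  have h2 : avf H f b y - (f.l : ℂ) • y = (f.l : ℂ) • z - avf H f b z := by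
    rw [sub_eq_sub_iff_add_eq_add, h1, add_comm]
  have key : avf H f b y - (f.l : ℂ) • y = 0 := by
    apply hD.disjoint
    · exact Submodule.sub_mem _ (avf_hdg hD hy) (Submodule.smul_mem _ _ hy)
    · rw [h2]
      exact Submodule.sub_mem _ (Submodule.smul_mem _ _ hz) (avf_hdg hD hz)
  refine ⟨y, z, rfl, ⟨(eig_iff hy1).2 (sub_eq_zero.1 key), hy⟩, (eig_iff hz1).2 ?_, hz⟩
  rw [sub_eq_zero.1 key] at h1
  exact add_left_cancel h1

lemma sum_cv {f : Fac 𝒱} (hf : f.Ok E) (hχ : ¬ IsTriv f) (b : Bool) :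
    ∑ g, cv b (f.χ g) = 0 := by
  have h1 : ∑ g, f.χ g = 0 := hf.irr.sum_zero.resolve_right hχ
  cases b
  · change ∑ g, starRingEnd ℂ (f.χ g) = 0
    rw [← map_sum, h1, map_zero]
  · exact h1

/-- Isotypic classes for a non-trivial character have degree one. -/
lemma eig_zero {f : Fac 𝒱} (hf : f.Ok E) (hχ : ¬ IsTriv f) {b : Bool} {i : ℤ}
    {x : H.A f.c.V} (hx : Eig H f b i x) (hi : i ≠ 1) : x = 0 := by
  by_contra hx0
  have h0 := nonneg_of_mem H hx.1 hx0
  have h2 : i ≤ 2 := by
    by_contra hlt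
    have h1 := hx.1
    rw [gr_top H (by rw [hf.act.dim_eq]; push_cast; omega)] at h1
    exact hx0 ((Submodule.mem_bot _).1 h1)
  have hfl : (f.l : ℂ) ≠ 0 := by
    have := hf.irr.l_pos
    exact_mod_cast this.ne'
  have h3 : i = 0 ∨ i = 2 := by omega
  have h4 := hx.2
  rcases h3 with rfl | rfl
  · obtain ⟨q, rfl⟩ := hH.gr_zero _ x hx.1
    have h5 : ∀ g, cv b (f.χ g) • H.pull (f.c.ρ g) (q • (1 : H.A f.c.V)) =
        cv b (f.χ g) • (q • (1 : H.A f.c.V)) := by
      intro g
      rw [map_smul, map_one]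
    rw [Finset.sum_congr rfl fun g _ => h5 g, ← Finset.sum_smul, sum_cv hf hχ, zero_smul] at h4
    exact hx0 ((smul_eq_zero.1 h4.symm).resolve_left hfl)
  · have h5 := congrArg (H.tr f.c.V) h4
    rw [map_sum, map_smul] at h5
    have h6 : ∀ g, H.tr f.c.V (cv b (f.χ g) • H.pull (f.c.ρ g) x) =
        cv b (f.χ g) * H.tr f.c.V x := by
      intro g
      rw [map_smul, smul_eq_mul, tr_pull_iso (H := H) (f.c.ρ g) (f.c.ρ g⁻¹) (ρ_inv hf.act g)
        (ρ_inv' hf.act g) x]
    rw [Finset.sum_congr rfl fun g _ => h6 g, ← Finset.sum_mul, sum_cv hf hχ, zero_mul] at h5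
    apply hx0
    apply eq_zero_of_tr (S := f.c.V)
    · rw [hf.act.dim_eq]
      exact hx.1
    · exact (smul_eq_zero.1 h5.symm).resolve_left hfl

lemma posB_of_triv (hD : D.IsHodge) {f : Fac 𝒱} (hχ : IsTriv f) (h : PosA D f) : PosB D f := by
  obtain ⟨x, hx0, hx, hxA⟩ := h
  refine ⟨D.conj _ x, conj_ne hD hx0, ?_, hD.conj_hdg _ _ _ _ hxA⟩
  have h1 := eig_conj hD hx
  refine ⟨h1.1, h1.2 ▸ Finset.sum_congr rfl fun g _ => ?_⟩
  rw [hχ g]
  congr 1
  exact (map_one (starRingEnd ℂ)).symm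

lemma posA_of_triv (hD : D.IsHodge) {f : Fac 𝒱} (hχ : IsTriv f) (h : PosB D f) : PosA D f := by
  obtain ⟨x, hx0, hx, hxA⟩ := h
  refine ⟨D.conj _ x, conj_ne hD hx0, ?_, hD.conj_hdg _ _ _ _ hxA⟩
  have h1 := eig_conj hD hx
  refine ⟨h1.1, h1.2 ▸ Finset.sum_congr rfl fun g _ => ?_⟩
  rw [hχ g]
  congr 1
  exact (map_one (starRingEnd ℂ)).symm

/-- Pure factors of type `(1, 0)`. -/
lemma pureA (hD : D.IsHodge) {f : Fac 𝒱} (hf : f.Ok E) (hA : PosA D f) (hB : ¬ PosB D f)
    {i : ℤ} {x : H.A f.c.V} : (Eig H f true i x → x ∈ D.hdg f.c.V 1 0) ∧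
      (Eig H f false i x → x ∈ D.hdg f.c.V 0 1) := by
  have hχ : ¬ IsTriv f := fun h => hB (posB_of_triv hD h hA)
  have h1 : ∀ (i : ℤ) (x : H.A f.c.V), Eig H f true i x → x ∈ D.hdg f.c.V 1 0 := by
    intro i x hx
    by_cases hi : i = 1
    · subst hi
      obtain ⟨y, z, rfl, ⟨_, hy⟩, ⟨hz, hz'⟩⟩ := eig_split hD hx
      have : z = 0 := by
        by_contra hz0
        exact hB ⟨z, hz0, hz, hz'⟩
      rw [this, add_zero]
      exact hy
    · rw [eig_zero hf hχ hx hi]
      exact Submodule.zero_mem _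
  refine ⟨h1 i x, fun hx => ?_⟩
  have h2 := h1 i _ (eig_conj hD hx)
  have h3 := hD.conj_hdg _ _ _ _ h2
  rwa [hD.conj_conj] at h3

/-- Pure factors of type `(0, 1)`. -/
lemma pureB (hD : D.IsHodge) {f : Fac 𝒱} (hf : f.Ok E) (hA : ¬ PosA D f) (hB : PosB D f)
    {i : ℤ} {x : H.A f.c.V} : (Eig H f true i x → x ∈ D.hdg f.c.V 0 1) ∧
      (Eig H f false i x → x ∈ D.hdg f.c.V 1 0) := by
  have hχ : ¬ IsTriv f := fun h => hA (posA_of_triv hD h hB)
  have h1 : ∀ (i : ℤ) (x : H.A f.c.V), Eig H f true i x → x ∈ D.hdg f.c.V 0 1 := by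
    intro i x hx
    by_cases hi : i = 1
    · subst hi
      obtain ⟨y, z, rfl, ⟨hy, hy'⟩, ⟨_, hz⟩⟩ := eig_split hD hx
      have : y = 0 := by
        by_contra hy0
        exact hA ⟨y, hy0, hy, hy'⟩
      rw [this, zero_add]
      exact hz
    · rw [eig_zero hf hχ hx hi]
      exact Submodule.zero_mem _
  refine ⟨h1 i x, fun hx => ?_⟩
  have h2 := h1 i _ (eig_conj hD hx)
  have h3 := hD.conj_hdg _ _ _ _ h2
  rwa [hD.conj_conj] at h3

/-- No eigenclasses in degree one. -/
lemma eig_none (hD : D.IsHodge) {f : Fac 𝒱} (hA : ¬ PosA D f) (hB : ¬ PosB D f)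
    {b : Bool} {x : H.A f.c.V} (hx : Eig H f b 1 x) : x = 0 := by
  have h1 : ∀ x, Eig H f true 1 x → x = 0 := by
    intro x hx
    obtain ⟨y, z, rfl, ⟨hy, hy'⟩, ⟨hz, hz'⟩⟩ := eig_split hD hx
    have e1 : y = 0 := by
      by_contra hy0
      exact hA ⟨y, hy0, hy, hy'⟩
    have e2 : z = 0 := by
      by_contra hz0
      exact hB ⟨z, hz0, hz, hz'⟩
    rw [e1, e2, add_zero]
  cases b
  · by_contra hx0
    exact conj_ne hD hx0 (h1 _ (eig_conj hD hx))
  · exact h1 x hx

open Classical in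
/-- The number of pure factors of type `(1, 0)`. -/
noncomputable def nP (D : HodgeData H) (L : List (Fac 𝒱)) : ℕ :=
  L.countP fun f => decide (PosA D f ∧ ¬ PosB D f)

open Classical in
/-- The number of pure factors of type `(0, 1)`. -/
noncomputable def nN (D : HodgeData H) (L : List (Fac 𝒱)) : ℕ :=
  L.countP fun f => decide (¬ PosA D f ∧ PosB D f)

open Classical in
/-- The number of mixed factors. -/
noncomputable def nM (D : HodgeData H) (L : List (Fac 𝒱)) : ℕ :=
  L.countP fun f => decide (PosA D f ∧ PosB D f)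

lemma exists_perm_of_mem {α : Type*} {a : α} {L : List α} (h : a ∈ L) : ∃ L', L.Perm (a :: L') := by
  obtain ⟨s, t, rfl⟩ := List.append_of_mem h
  exact ⟨s ++ t, List.perm_middle⟩

lemma good_of_count (hD : D.IsHodge) : ∀ (c : ℕ) (L : List (Fac 𝒱)),
    (∀ f ∈ L, f.Ok E) → c ≤ nP D L → c ≤ nN D L → GoodS H B c L := by
  classical
  intro c
  induction c with
  | zero => exact fun L _ _ _ => good_zero L
  | succ c ih =>
    intro L hL h1 h2
    obtain ⟨f, hf, hf'⟩ := List.countP_pos_iff.1 (lt_of_lt_of_le (Nat.succ_pos c) h1)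
    obtain ⟨hA, hB⟩ := of_decide_eq_true hf'
    obtain ⟨L1, hL1⟩ := exists_perm_of_mem hf
    have e1 : nP D L = nP D L1 + 1 := by
      rw [nP, hL1.countP_eq, List.countP_cons_of_pos (by exact decide_eq_true ⟨hA, hB⟩), nP]
    have e2 : nN D L = nN D L1 := by
      rw [nN, hL1.countP_eq, List.countP_cons_of_neg (by
        rw [decide_eq_true_iff]
        exact fun h => h.1 hA), nN]
    obtain ⟨f', hf1, hf1'⟩ := List.countP_pos_iff.1 (lt_of_lt_of_le (Nat.succ_pos c) (e2 ▸ h2))
    obtain ⟨hA', hB'⟩ := of_decide_eq_true hf1'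
    obtain ⟨L2, hL2⟩ := exists_perm_of_mem hf1
    have e3 : nN D L1 = nN D L2 + 1 := by
      rw [nN, hL2.countP_eq, List.countP_cons_of_pos (by exact decide_eq_true ⟨hA', hB'⟩), nN]
    have e4 : nP D L1 = nP D L2 := by
      rw [nP, hL2.countP_eq, List.countP_cons_of_neg (by
        rw [decide_eq_true_iff]
        exact fun h => hA' h.1), nP]
    have hperm : L.Perm (f :: f' :: L2) := hL1.trans (hL2.cons f)
    have hL' : ∀ g ∈ f :: f' :: L2, g.Ok E := fun g hg => hL g (hperm.mem_iff.2 hg)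
    have hfa := hL' f (by simp)
    have hfa' := hL' f' (by simp)
    refine good_perm hD hperm (good_pair hD hfa hfa' ?_
      (ih L2 (fun g hg => hL' g (by simp [hg])) (by omega) (by omega)))
    intro b i i' x y hx hy
    cases b
    · exact hD.mul_mem _ 0 1 1 0 _ _ (hD.pull_mem _ _ _ _ _ _ ((pureA hD hfa hA hB).2 hx))
        (hD.pull_mem _ _ _ _ _ _ ((pureB hD hfa' hA' hB').2 hy))
    · exact hD.mul_mem _ 1 0 0 1 _ _ (hD.pull_mem _ _ _ _ _ _ ((pureA hD hfa hA hB).1 hx))
        (hD.pull_mem _ _ _ _ _ _ ((pureB hD hfa' hA' hB').1 hy))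

lemma good_of_eq (hD : D.IsHodge) {c : ℕ} (hB0 : NoHomTrivial H B c) :
    ∀ (n : ℕ) (L : List (Fac 𝒱)), L.length = n →
    (∀ f ∈ L, f.Ok E) → nM D L = 0 → nP D L = nN D L → GoodS H B c L := by
  classical
  intro n
  induction n using Nat.strong_induction_on with
  | _ n ih =>
    intro L hn hL h0 h1
    by_cases hempty : ∃ f ∈ L, ¬ PosA D f ∧ ¬ PosB D f
    · obtain ⟨f, hf, hA, hB⟩ := hempty
      by_cases hχ : IsTriv f
      · obtain ⟨L1, hL1⟩ := exists_perm_of_mem hf
        have e1 : nP D L = nP D L1 := by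
          rw [nP, hL1.countP_eq, List.countP_cons_of_neg (by
            rw [decide_eq_true_iff]
            exact fun h => hA h.1), nP]
        have e2 : nN D L = nN D L1 := by
          rw [nN, hL1.countP_eq, List.countP_cons_of_neg (by
            rw [decide_eq_true_iff]
            exact fun h => hB h.2), nN]
        have e3 : nM D L = nM D L1 := by
          rw [nM, hL1.countP_eq, List.countP_cons_of_neg (by
            rw [decide_eq_true_iff]
            exact fun h => hA h.1), nM]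
        have hL' : ∀ g ∈ f :: L1, g.Ok E := fun g hg => hL g (hL1.mem_iff.2 hg)
        have hlen := hL1.length_eq
        rw [List.length_cons] at hlen
        refine good_perm hD hL1 (good_triv (hL' f (by simp)).act (fun b x hx => eig_none hD hA hB hx)
          (ih L1.length (by omega) L1 rfl (fun g hg => hL' g (by simp [hg])) (by omega)
            (by omega)))
      · apply good_void c hf
        intro b i x hx
        by_cases hi : i = 1
        · subst hi
          exact eig_none hD hA hB hx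
        · exact eig_zero (hL f hf) hχ hx hi
    · push Not at hempty
      by_cases hnil : L = []
      · subst hnil
        exact good_nil hB0
      · obtain ⟨f, hf⟩ := List.exists_mem_of_ne_nil L hnil
        -- all factors are pure
        have hM : ∀ g ∈ L, ¬ (PosA D g ∧ PosB D g) := by
          intro g hg hAB
          have := List.countP_eq_zero.1 h0 g hg
          exact this (decide_eq_true hAB)
        have hpos : 0 < nP D L := by
          by_cases hA : PosA D f
          · exact List.countP_pos_iff.2 ⟨f, hf, decide_eq_true ⟨hA, fun h => hM f hf ⟨hA, h⟩⟩⟩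
          · have hB : PosB D f := hempty f hf hA
            rw [h1]
            exact List.countP_pos_iff.2 ⟨f, hf, decide_eq_true ⟨hA, hB⟩⟩
        obtain ⟨f, hf, hf'⟩ := List.countP_pos_iff.1 hpos
        obtain ⟨hA, hB⟩ := of_decide_eq_true hf'
        obtain ⟨L1, hL1⟩ := exists_perm_of_mem hf
        have e1 : nP D L = nP D L1 + 1 := by
          rw [nP, hL1.countP_eq, List.countP_cons_of_pos (by exact decide_eq_true ⟨hA, hB⟩), nP]
        have e2 : nN D L = nN D L1 := by
          rw [nN, hL1.countP_eq, List.countP_cons_of_neg (by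
            rw [decide_eq_true_iff]
            exact fun h => h.1 hA), nN]
        have e5 : nM D L = nM D L1 := by
          rw [nM, hL1.countP_eq, List.countP_cons_of_neg (by
            rw [decide_eq_true_iff]
            exact fun h => hB h.2), nM]
        have hpos' : 0 < nN D L1 := by omega
        obtain ⟨f', hf1, hf1'⟩ := List.countP_pos_iff.1 hpos'
        obtain ⟨hA', hB'⟩ := of_decide_eq_true hf1'
        obtain ⟨L2, hL2⟩ := exists_perm_of_mem hf1
        have e3 : nN D L1 = nN D L2 + 1 := by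
          rw [nN, hL2.countP_eq, List.countP_cons_of_pos (by exact decide_eq_true ⟨hA', hB'⟩), nN]
        have e4 : nP D L1 = nP D L2 := by
          rw [nP, hL2.countP_eq, List.countP_cons_of_neg (by
            rw [decide_eq_true_iff]
            exact fun h => hA' h.1), nP]
        have e6 : nM D L1 = nM D L2 := by
          rw [nM, hL2.countP_eq, List.countP_cons_of_neg (by
            rw [decide_eq_true_iff]
            exact fun h => hA' h.1), nM]
        have hperm : L.Perm (f :: f' :: L2) := hL1.trans (hL2.cons f)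
        have hL' : ∀ g ∈ f :: f' :: L2, g.Ok E := fun g hg => hL g (hperm.mem_iff.2 hg)
        have hfa := hL' f (by simp)
        have hfa' := hL' f' (by simp)
        have hlen := hperm.length_eq
        rw [List.length_cons, List.length_cons] at hlen
        refine good_perm hD hperm (good_mono (Nat.le_succ c) (good_pair hD hfa hfa' ?_
          (ih L2.length (by omega) L2 rfl (fun g hg => hL' g (by simp [hg])) (by omega)
            (by omega))))
        intro b i i' x y hx hy
        cases b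
        · exact hD.mul_mem _ 0 1 1 0 _ _ (hD.pull_mem _ _ _ _ _ _ ((pureA hD hfa hA hB).2 hx))
            (hD.pull_mem _ _ _ _ _ _ ((pureB hD hfa' hA' hB').2 hy))
        · exact hD.mul_mem _ 1 0 0 1 _ _ (hD.pull_mem _ _ _ _ _ _ ((pureA hD hfa hA hB).1 hx))
            (hD.pull_mem _ _ _ _ _ _ ((pureB hD hfa' hA' hB').1 hy))

open Classical in
/-- The first selection of Hodge types. -/
noncomputable def s1 (D : HodgeData H) (f : Fac 𝒱) : ℕ × ℕ :=
  if PosA D f then (1, 0) else if PosB D f then (0, 1) else (0, 0)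

open Classical in
/-- The second selection of Hodge types. -/
noncomputable def s2 (D : HodgeData H) (f : Fac 𝒱) : ℕ × ℕ :=
  if PosB D f then (0, 1) else if PosA D f then (1, 0) else (0, 0)

lemma sum_s1 (D : HodgeData H) (L : List (Fac 𝒱)) :
    (L.map fun f => (s1 D f).1).sum = nP D L + nM D L ∧
    (L.map fun f => (s1 D f).2).sum = nN D L := by
  classical
  induction L with
  | nil => exact ⟨rfl, rfl⟩
  | cons f L ih =>
    rw [List.map_cons, List.map_cons, List.sum_cons, List.sum_cons, ih.1, ih.2]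
    unfold nP nM nN s1
    by_cases hA : PosA D f <;> by_cases hB : PosB D f <;>
      simp only [List.countP_cons, hA, hB, not_true_eq_false, not_false_eq_true, and_true,
        and_false, if_true, if_false, decide_true, decide_false] <;>
      constructor <;> (try simp) <;> omega

lemma sum_s2 (D : HodgeData H) (L : List (Fac 𝒱)) :
    (L.map fun f => (s2 D f).1).sum = nP D L ∧
    (L.map fun f => (s2 D f).2).sum = nN D L + nM D L := by
  classical
  induction L with
  | nil => exact ⟨rfl, rfl⟩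
  | cons f L ih =>
    rw [List.map_cons, List.map_cons, List.sum_cons, List.sum_cons, ih.1, ih.2]
    unfold nP nM nN s2
    by_cases hA : PosA D f <;> by_cases hB : PosB D f <;>
      simp only [List.countP_cons, hA, hB, not_true_eq_false, not_false_eq_true, and_true,
        and_false, if_true, if_false, decide_true, decide_false] <;>
      constructor <;> (try simp) <;> omega

/-- **The combinatorial part.** If every nonzero product class of type `(p, q)` with `p ≠ q` has
`min (p, q) ≥ c` then the factors are good. -/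
theorem good_of_types (hD : D.IsHodge) {c : ℕ} (hB0 : NoHomTrivial H B c)
    {L : List (Fac 𝒱)} (hL : ∀ f ∈ L, f.Ok E)
    (h : ∀ p q w, PC H B true L w → w ∈ D.hdg (prodL B (cs L)) p q → w ≠ 0 → p = q ∨
      (c ≤ p ∧ c ≤ q)) : GoodS H B c L := by
  classical
  by_cases hvoid : ∃ f ∈ L, (¬ PosA D f ∧ ¬ PosB D f) ∧ ¬ IsTriv f
  · obtain ⟨f, hf, ⟨hA, hB⟩, hχ⟩ := hvoid
    apply good_void c hf
    intro b i x hx
    by_cases hi : i = 1
    · subst hi
      exact eig_none hD hA hB hx
    · exact eig_zero (hL f hf) hχ hx hi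
  · push Not at hvoid
    have hone : ∀ f ∈ L, ¬ PosA D f → ¬ PosB D f → ∃ (i : ℤ) (x : H.A f.c.V), x ≠ 0 ∧
        Eig H f true i x ∧ x ∈ D.hdg f.c.V 0 0 := by
      intro f hf hA hB
      refine ⟨0, 1, hH.one_ne_zero _, ⟨H.one_mem _, ?_⟩, hD.one_mem _⟩
      have hχ := hvoid f hf ⟨hA, hB⟩
      have h1 : ∀ g, cv true (f.χ g) • H.pull (f.c.ρ g) (1 : H.A f.c.V) = 1 := by
        intro g
        rw [map_one, hχ g]
        exact one_smul ℂ _
      have hd : f.d = 1 := by
        have h2 := (hL f hf).irr.one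
        rw [hχ 1] at h2
        exact_mod_cast h2.symm
      rw [Finset.sum_congr rfl fun g _ => h1 g, Finset.sum_const, Finset.card_univ, Fac.l, hd,
        div_one, ← Nat.cast_smul_eq_nsmul ℂ]
      norm_num
    obtain ⟨w1, hw1, hw1', hw1''⟩ := exists_pc (B := B) hD (s1 D) L (by
      intro f hf
      unfold s1
      split_ifs with hA hB
      · obtain ⟨x, hx0, hx, hx'⟩ := hA
        exact ⟨1, x, hx0, hx, hx'⟩
      · obtain ⟨x, hx0, hx, hx'⟩ := hB
        exact ⟨1, x, hx0, hx, hx'⟩
      · exact hone f hf hA hB)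
    obtain ⟨w2, hw2, hw2', hw2''⟩ := exists_pc (B := B) hD (s2 D) L (by
      intro f hf
      unfold s2
      split_ifs with hB hA
      · obtain ⟨x, hx0, hx, hx'⟩ := hB
        exact ⟨1, x, hx0, hx, hx'⟩
      · obtain ⟨x, hx0, hx, hx'⟩ := hA
        exact ⟨1, x, hx0, hx, hx'⟩
      · exact hone f hf hA hB)
    rw [(sum_s1 D L).1, (sum_s1 D L).2] at hw1''
    rw [(sum_s2 D L).1, (sum_s2 D L).2] at hw2''
    have h1 := h _ _ w1 hw1' hw1'' hw1
    have h2 := h _ _ w2 hw2' hw2'' hw2
    by_cases hc : c ≤ nP D L ∧ c ≤ nN D L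
    · exact good_of_count hD c L hL hc.1 hc.2
    · exact good_of_eq hD hB0 L.length L rfl hL (by omega) (by omega)

end Pool.Agent.U191.EY
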