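import Pool.Agent.U191.EY.Rep

/-!
# Products of curves with actions of finite groups: definitions
-/

set_option autoImplicit false

open CategoryTheory AlgebraicGeometry

universe u v

namespace Pool.Agent.U191.EY

open Pool.Agent.H914 Pool.Agent.H914.VarClass Pool.Agent.H914.VarClass.Obj Pool.Agent.W492.BB
  Pool.Agent.W550.Corr Pool.Agent.TH133

variable {k : Type u} [Field k] {𝒱 : VarClass k}

instance Grp.instGroup : (L : List (GCurve 𝒱)) → Group (Grp L)
  | [] => inferInstanceAs (Group PUnit)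
  | c :: L => @Prod.instGroup c.G (Grp L) c.grp (Grp.instGroup L)

instance Grp.instFintype : (L : List (GCurve 𝒱)) → Fintype (Grp L)
  | [] => inferInstanceAs (Fintype PUnit)
  | c :: L => @instFintypeProd c.G (Grp L) c.fin (Grp.instFintype L)

section hodge

variable {C : TheoryData.{u, v, 0} 𝒱 ℚ} (H : WeilTheoryData.{u, v, 0} C ℂ)

/-- The data of the Hodge decompositions: the subspaces `H^{p,q}(V)` of the cohomology with complex
coefficients, the complex conjugation, and the set of rational classes. -/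
structure HodgeData where
  /-- the subspace `H^{p,q}(V)` -/
  hdg : ∀ V : 𝒱.Obj, ℕ → ℕ → Submodule ℂ (H.A V)
  /-- the complex conjugation -/
  conj : ∀ V : 𝒱.Obj, H.A V → H.A V
  /-- the rational classes, `H(V, ℚ)` -/
  rat : ∀ V : 𝒱.Obj, Set (H.A V)

variable {H}

/-- The cohomology is finite-dimensional and graded commutative. -/
structure HodgeData.IsAlg (_D : HodgeData H) : Prop where
  finite : ∀ V, Module.Finite ℂ (H.A V)
  comm : ∀ (V : 𝒱.Obj) (i j : ℕ) (x y : H.A V), H.Deg i x → H.Deg j y →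
    H.mul x y = (-1 : ℂ) ^ (i * j) • H.mul y x

/-- `H^{p,q}` lies in degree `p + q` and contains `1` for `p = q = 0`. -/
structure HodgeData.HasTypes (D : HodgeData H) : Prop where
  hdg_deg : ∀ (V : 𝒱.Obj) (p q : ℕ) (x : H.A V), x ∈ D.hdg V p q → H.Deg (p + q) x
  one_mem : ∀ V : 𝒱.Obj, 1 ∈ D.hdg V 0 0

/-- The types are compatible with products. -/
structure HodgeData.HasMul (D : HodgeData H) : Prop where
  mul_mem : ∀ (V : 𝒱.Obj) (p q p' q' : ℕ) (x y : H.A V), x ∈ D.hdg V p q → y ∈ D.hdg V p' q' →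
    H.mul x y ∈ D.hdg V (p + p') (q + q')

/-- The types are compatible with the action of correspondences of degree zero. -/
structure HodgeData.HasAct (D : HodgeData H) : Prop where
  act_mem : ∀ (V W : 𝒱.Obj) (Γ : C.A (V.prod W)) (p q : ℕ) (x : H.A V), C.Deg V.dim Γ →
    x ∈ D.hdg V p q → H.act (H.cl Γ) x ∈ D.hdg W p q

/-- `H^1 = H^{1,0} ⊕ H^{0,1}`. -/
structure HodgeData.Splits (D : HodgeData H) : Prop where
  sup : ∀ (V : 𝒱.Obj) (x : H.A V), H.Deg 1 x → x ∈ D.hdg V 1 0 ⊔ D.hdg V 0 1
  inf : ∀ V : 𝒱.Obj, Disjoint (D.hdg V 1 0) (D.hdg V 0 1)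

/-- The conjugation is an antilinear involution. -/
structure HodgeData.HasConj (D : HodgeData H) : Prop where
  conj_add : ∀ (V : 𝒱.Obj) (x y : H.A V), D.conj V (x + y) = D.conj V x + D.conj V y
  conj_smul : ∀ (V : 𝒱.Obj) (c : ℂ) (x : H.A V),
    D.conj V (c • x) = (starRingEnd ℂ c) • D.conj V x
  conj_conj : ∀ (V : 𝒱.Obj) (x : H.A V), D.conj V (D.conj V x) = x

/-- The conjugation commutes with pull-backs, preserves degrees and exchanges `H^{p,q}` and
`H^{q,p}`. -/
structure HodgeData.IsNatural (D : HodgeData H) : Prop where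
  conj_pull : ∀ (V W : 𝒱.Obj) (f : V ⟶ W) (x : H.A W), D.conj V (H.up f x) = H.up f (D.conj W x)
  conj_deg : ∀ (V : 𝒱.Obj) (i : ℤ) (x : H.A V), H.Deg i x → H.Deg i (D.conj V x)
  conj_hdg : ∀ (V : 𝒱.Obj) (p q : ℕ) (x : H.A V), x ∈ D.hdg V p q → D.conj V x ∈ D.hdg V q p

/-- The rational classes are stable under sums and rational multiples and span the cohomology. -/
structure HodgeData.HasRat (D : HodgeData H) : Prop where
  rat_add : ∀ (V : 𝒱.Obj) (x y : H.A V), x ∈ D.rat V → y ∈ D.rat V → x + y ∈ D.rat V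
  rat_smul : ∀ (V : 𝒱.Obj) (q : ℚ) (x : H.A V), x ∈ D.rat V → (q : ℂ) • x ∈ D.rat V
  rat_span : ∀ V : 𝒱.Obj, Submodule.span ℂ (D.rat V) = ⊤

/-- The rational classes are stable under pull-backs, and the theorem of Lefschetz on
(1,1)-classes: the rational classes of type `(1, 1)` are classes of divisors. -/
structure HodgeData.Lefschetz (D : HodgeData H) : Prop where
  rat_pull : ∀ (V W : 𝒱.Obj) (f : V ⟶ W) (x : H.A W), x ∈ D.rat W → H.up f x ∈ D.rat V
  lefschetz : ∀ (V : 𝒱.Obj) (x : H.A V), x ∈ D.rat V → x ∈ D.hdg V 1 1 →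
    ∃ z : C.A V, C.Deg 1 z ∧ H.cl z = x

/-- The standard properties of the Hodge decomposition: the cohomology is finite-dimensional and
graded commutative; `H^{p,q}` lies in degree `p + q`, contains `1` for `p = q = 0`, is compatible
with products and with the action of correspondences of degree zero, and
`H^1 = H^{1,0} ⊕ H^{0,1}`; the conjugation is antilinear, an
involution, commutes with pull-backs, preserves degrees and exchanges `H^{p,q}` and `H^{q,p}`; the
rational classes are stable under sums, rational multiples and pull-backs and span the cohomology;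
and the theorem of Lefschetz on (1,1)-classes. -/
structure HodgeData.IsHodge (D : HodgeData H) : Prop extends D.IsAlg, D.HasTypes, D.HasMul,
  D.HasAct, D.Splits, D.HasConj, D.IsNatural, D.HasRat, D.Lefschetz

theorem HodgeData.IsHodge.split {D : HodgeData H} (hD : D.IsHodge) (V : 𝒱.Obj) (x : H.A V)
    (hx : H.Deg 1 x) : ∃ y ∈ D.hdg V 1 0, ∃ z ∈ D.hdg V 0 1, x = y + z := by
  obtain ⟨y, hy, z, hz, h⟩ := Submodule.mem_sup.1 (hD.sup V x hx)
  exact ⟨y, hy, z, hz, h.symm⟩

theorem HodgeData.IsHodge.disjoint {D : HodgeData H} (hD : D.IsHodge) (V : 𝒱.Obj) (x : H.A V)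
    (hx : x ∈ D.hdg V 1 0) (hx' : x ∈ D.hdg V 0 1) : x = 0 :=
  Submodule.disjoint_def.1 (hD.inf V) x hx hx'

end hodge

/-! ### Characters -/

/-- A factor: a curve with an action, a function on the group and a degree. -/
structure Fac (𝒱 : VarClass k) where
  /-- the curve with its action -/
  c : GCurve 𝒱
  /-- the character -/
  χ : c.G → ℂ
  /-- the degree of the character -/
  d : ℚ

/-- The eigenvalue of the averaging operators. -/
def Fac.l (f : Fac 𝒱) : ℚ := Fintype.card f.c.G / f.d

/-- The factor is a curve with an action and an irreducible character with values in the quadratic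
field. -/
structure Fac.Ok (f : Fac 𝒱) (D : ℕ) : Prop where
  act : f.c.IsAction
  irr : IsIrr f.χ f.d
  quad : ∀ g, InQuad D (f.χ g)

/-- The curves with their actions of a list of factors. -/
abbrev cs (L : List (Fac 𝒱)) : List (GCurve 𝒱) := L.map Fac.c

/-- The value or its conjugate. -/
noncomputable def cv (b : Bool) (z : ℂ) : ℂ := if b then z else starRingEnd ℂ z

/-- The character of the product group. -/
noncomputable def chL : (L : List (Fac 𝒱)) → Grp (cs L) → ℂ
  | [], _ => 1
  | f :: L, γ => f.χ γ.1 * chL L γ.2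

/-- The degree of the character of the product group. -/
def dL (L : List (Fac 𝒱)) : ℚ := (L.map Fac.d).prod

section classes

variable {C : TheoryData.{u, v, 0} 𝒱 ℚ} (H : WeilTheoryData.{u, v, 0} C ℂ)

/-- Isotypic classes of degree `i`. -/
def Eig (f : Fac 𝒱) (b : Bool) (i : ℤ) (x : H.A f.c.V) : Prop :=
  x ∈ H.gr f.c.V i ∧ ∑ g, cv b (f.χ g) • H.pull (f.c.ρ g) x = (f.l : ℂ) • x

/-- Product classes: external products of homogeneous isotypic classes. -/
def PC (B : 𝒱.Obj) (b : Bool) : (L : List (Fac 𝒱)) → H.A (prodL B (cs L)) → Prop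
  | [], _ => True
  | f :: L, w => ∃ (i : ℤ) (x : H.A f.c.V) (t : H.A (prodL B (cs L))), Eig H f b i x ∧
      PC B b L t ∧ w = H.ext x t

/-- There is a correspondence of degree zero which is the identity on the product classes, and kills
homologically trivial cycles of dimension less than `c`. -/
def GoodS (B : 𝒱.Obj) (c : ℕ) (L : List (Fac 𝒱)) : Prop :=
  ∃ (φ : C.A (prodL B (cs L)) → C.A (prodL B (cs L)))
    (ψ : H.A (prodL B (cs L)) → H.A (prodL B (cs L))),
    Realised H (prodL B (cs L)) (prodL B (cs L)) 0 φ ψ ∧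
    (∀ b w, PC H B b L w → ψ w = w) ∧
    ∀ (j : ℤ) (z : C.A (prodL B (cs L))), z ∈ C.gr _ j → H.cl z = 0 →
      ((prodL B (cs L)).dim : ℤ) < j + c → φ z = 0

end classes

end Pool.Agent.U191.EY
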