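import Pool.Agent.U191.EY.Main

/-!
# The generalized Bloch conjecture for summands of products of curves
-/

set_option autoImplicit false
set_option linter.unusedSectionVars false

open CategoryTheory AlgebraicGeometry

universe u v

namespace Pool.Agent.U191.EY

open Pool.Agent.H914 Pool.Agent.H914.VarClass Pool.Agent.H914.VarClass.Obj Pool.Agent.W492.BB
  Pool.Agent.W550.Corr Pool.Agent.TH133

variable {k : Type u} [Field k] {𝒱 : VarClass k} {E : ℕ} {C : TheoryData.{u, v, 0} 𝒱 ℚ}

lemma chowOp_eq (C : TheoryData.{u, v, 0} 𝒱 ℚ) (B : 𝒱.Obj) (L : List (GCurve 𝒱))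
    (a : Grp L → ℚ) (z : C.A (prodL B L)) : chowOp C B L a z = opC C B L a z :=
  finsum_eq_sum_of_fintype _

lemma cohOp_eq (H : WeilTheoryData.{u, v, 0} C ℂ) (B : 𝒱.Obj) (L : List (GCurve 𝒱))
    (a : Grp L → ℚ) (x : H.A (prodL B L)) :
    cohOp H B L a x = ∑ γ, (a γ : ℂ) • H.push (mapL B L γ) x :=
  finsum_eq_sum_of_fintype _

section conv

variable {H : WeilTheoryData.{u, v, 0} C ℂ}

/-- The data of the Hodge decomposition, in the form used in the proofs. -/
def toData (D : ∀ V : 𝒱.Obj, HodgeRing (H.A V)) : HodgeData H where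
  hdg V := (D V).hdg
  conj V := (D V).conj
  rat V := (D V).rat

lemma IsHodge.toData {D : ∀ V : 𝒱.Obj, HodgeRing (H.A V)} (h : IsHodge H D) :
    (toData D).IsHodge where
  finite V := (h.types V).finite
  comm V i j x y hx hy := (h.types V).comm i j x y hx hy
  hdg_deg V p q _ hx := (h.types V).hdg_deg p q hx
  one_mem V := (h.types V).one_mem
  mul_mem V p q p' q' x y hx hy := (h.types V).mul_mem p q p' q' x y hx hy
  act_mem V W Γ p q x hΓ hx := h.act V W Γ p q x hΓ hx
  sup V _ hx := (h.types V).sup hx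
  inf V := (h.types V).inf
  conj_add V x y := (h.conj V).conj_add x y
  conj_smul V c x := (h.conj V).conj_smul c x
  conj_conj V x := (h.conj V).conj_conj x
  conj_deg V i x hx := (h.conj V).conj_deg i x hx
  conj_hdg V p q x hx := (h.conj V).conj_hdg p q x hx
  conj_pull V W f x := h.natural.conj_pull V W f x
  rat_add V x y hx hy := (h.conj V).rat_add x y hx hy
  rat_smul V q x hx := (h.conj V).rat_smul q x hx
  rat_span V := (h.conj V).rat_span
  rat_pull V W f x hx := h.natural.rat_pull V W f x hx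
  lefschetz V x hx hx' := h.lefschetz V x hx hx'

end conv

variable [hC : IsChowProj C] {H : WeilTheoryData.{u, v, 0} C ℂ} [hH : IsWeilProj H] {B : 𝒱.Obj}
  {D : ∀ V : 𝒱.Obj, HodgeRing (H.A V)}

/-- **Elements of the group algebra.** -/
theorem element (hD : IsHodge H D) (L : List (GCurve 𝒱))
    (hact : ∀ c ∈ L, c.IsAction) (hchar : ∀ c ∈ L, HasCharactersIn E c.G)
    (hN : Pool.Agent.W484.CK.Nilpotence H (prodL B L)) {c : ℕ} (hB : NoHomTrivial H B c)
    (a : Grp L → ℚ) (ha : (D (prodL B L)).Agree c (cohOp H B L a) 0) :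
    AgreeOnCycles H (prodL B L) c (chowOp C B L a) 0 := by
  intro j z hz hcl hj
  rw [chowOp_eq]
  refine main hD.toData L hact hchar hN hB a (fun p q hpq hmin x hx => ?_) hz hcl hj
  rw [← cohOp_eq]
  exact ha p q hpq hmin x hx

/-- **Summands of Hodge coniveau at least `c`.** -/
theorem summand (hD : IsHodge H D) (L : List (GCurve 𝒱))
    (hact : ∀ c ∈ L, c.IsAction) (hchar : ∀ c ∈ L, HasCharactersIn E c.G)
    (hN : Pool.Agent.W484.CK.Nilpotence H (prodL B L)) {c : ℕ} (hB : NoHomTrivial H B c)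
    {a : Grp L → ℚ} {Y : 𝒱.Obj} {α : C.A ((prodL B L).prod Y)} {β : C.A (Y.prod (prodL B L))}
    (hY : IsSummand D B L a c Y α β) (hc : (D Y).HasConiveau c) : NoHomTrivial H Y c := by
  have ha : (D (prodL B L)).Agree c (cohOp H B L a) 0 := by
    intro p q hpq hmin x hx
    have h1 := hD.act _ Y α p q x hY.deg_left hx
    rw [hc p q hpq hmin, Submodule.mem_bot] at h1
    have h2 := hY.composes.on_hodge p q hpq hmin x hx
    rw [twice] at h2
    rw [← h2]
    exact (congrArg (H.act (H.cl β)) h1).trans (H.act_map_zero _)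
  intro j y hy hcl hj
  have hβ : C.Deg j (C.act β y) := by
    have h1 := act_mem' C (e := 0) (by
      have := hY.deg_right
      rwa [← add_zero (Y.dim : ℤ)] at this) hy
    rwa [add_zero] at h1
  have hβ0 : H.cl (C.act β y) = 0 := by
    rw [cl_act, hcl, H.act_map_zero]
  have hj' : ((prodL B L).dim : ℤ) < j + c := by
    rw [← hY.dim_eq]
    exact hj
  have h1 := element hD L hact hchar hN hB a ha j _ hβ hβ0 hj'
  have h2 : C.act β (C.act α (C.act β y)) = chowOp C B L a (C.act β y) :=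
    hY.composes.on_cycles j _ hβ hβ0 hj'
  have h3 : C.act α (C.act β y) = y := hY.on_target j y hy hcl hj
  rw [h3] at h2
  change y = 0
  rw [← h3, h2, h1]
  exact C.act_map_zero _

open Classical in
lemma finsum_subgroup {A : Type*} [AddCommGroup A] [Module ℚ A] {L : List (GCurve 𝒱)}
    (S : Set (Grp L)) (F : Grp L → A) :
    ∑ᶠ γ ∈ S, F γ = ∑ γ, (if γ ∈ S then (1 : ℚ) else 0) • F γ := by
  rw [finsum_eq_sum_of_fintype]
  refine Finset.sum_congr rfl fun γ _ => ?_
  by_cases h : γ ∈ S
  · rw [if_pos h, one_smul, finsum_eq_if, if_pos h]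
  · rw [if_neg h, zero_smul, finsum_eq_if, if_neg h]

/-- **Smooth quotients.** -/
theorem quotient (hD : IsHodge H D) (L : List (GCurve 𝒱))
    (hact : ∀ c ∈ L, c.IsAction) (hchar : ∀ c ∈ L, HasCharactersIn E c.G)
    (hN : Pool.Agent.W484.CK.Nilpotence H (prodL B L)) {c : ℕ} (hB : NoHomTrivial H B c)
    {S : Set (Grp L)} {Y : 𝒱.Obj} {f : prodL B L ⟶ Y} (hY : IsQuotient H B L S Y f)
    (hc : (D Y).HasConiveau c) : NoHomTrivial H Y c := by
  classical
  set a : Grp L → ℚ := fun γ => if γ ∈ S then 1 else 0 with ha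
  have hup : ∀ z : C.A (prodL B L), C.up f (C.down f z) = chowOp C B L a z := by
    intro z
    rw [hY.up_down, finsum_subgroup, chowOp_eq]
    rfl
  have huph : ∀ x : H.A (prodL B L), H.up f (H.down f x) = cohOp H B L a x := by
    intro x
    rw [hY.up_down_coh, cohOp_eq]
    rw [finsum_eq_sum_of_fintype]
    refine Finset.sum_congr rfl fun γ _ => ?_
    by_cases h : γ ∈ S
    · rw [finsum_eq_if, if_pos h, ha]
      change _ = (((if γ ∈ S then 1 else 0 : ℚ)) : ℂ) • _
      rw [if_pos h, Rat.cast_one, one_smul]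
    · rw [finsum_eq_if, if_neg h, ha]
      change _ = (((if γ ∈ S then 1 else 0 : ℚ)) : ℂ) • _
      rw [if_neg h, Rat.cast_zero, zero_smul]
  have ha0 : (D (prodL B L)).Agree c (cohOp H B L a) 0 := by
    intro p q hpq hmin x hx
    have h1 : H.down f x ∈ (D Y).hdg p q := hD.toData.push_mem f hY.dim_eq hx
    rw [hc p q hpq hmin, Submodule.mem_bot] at h1
    rw [← huph, h1]
    exact map_zero _
  intro j y hy hcl hj
  change y = 0
  have h1 := element hD L hact hchar hN hB a ha0 j (C.up f y) (C.pull_mem f hy) (by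
    rw [H.cl_pull, hcl, map_zero]) (by
    rw [← hY.dim_eq]
    exact hj)
  have h2 := hup (C.up f y)
  rw [hY.down_up] at h2
  have h3 : C.up f ((Nat.card S : ℚ) • y) = 0 := h2.trans h1
  have h4 := hY.down_up ((Nat.card S : ℚ) • y)
  rw [h3, smul_smul] at h4
  have h5 : (Nat.card S : ℚ) ≠ 0 := by
    have := hY.nonempty.to_subtype
    have : 0 < Nat.card S := Nat.card_pos
    exact_mod_cast this.ne'
  have h6 : ((Nat.card S : ℚ) * (Nat.card S : ℚ)) • y = 0 := h4.symm.trans (map_zero _)
  exact (smul_eq_zero.1 h6).resolve_left (mul_ne_zero h5 h5)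

end Pool.Agent.U191.EY
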