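import Pool.Agent.U191.EY.Pair

/-!
# Correspondences which are the identity on the product classes
-/

set_option autoImplicit false
set_option linter.unusedSectionVars false

open CategoryTheory AlgebraicGeometry

universe u v

namespace Pool.Agent.U191.EY

open Pool.Agent.H914 Pool.Agent.H914.VarClass Pool.Agent.H914.VarClass.Obj Pool.Agent.W492.BB
  Pool.Agent.W550.Corr Pool.Agent.TH133

variable {k : Type u} [Field k] {𝒱 : VarClass k} {D : ℕ} {C : TheoryData.{u, v, 0} 𝒱 ℚ}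
  [hC : IsChowProj C] {H : WeilTheoryData.{u, v, 0} C ℂ} [hH : IsWeilProj H] {B : 𝒱.Obj}

lemma good_zero (L : List (Fac 𝒱)) : GoodS H B 0 L := by
  refine ⟨fun z => z, fun w => w, Realised.id _, fun b w _ => rfl, fun j z hz _ hj => ?_⟩
  exact hC.gr_top _ j z hz (by push_cast at hj; omega)

lemma good_nil {c : ℕ} (hB : NoHomTrivial H B c) : GoodS H B c [] :=
  ⟨fun z => z, fun w => w, Realised.id _, fun _ _ _ => rfl, fun j z hz hcl hj => hB j z hz hcl hj⟩

/-- A point has no homologically trivial cycles. -/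
lemma noHomTrivial_of_dim {V : 𝒱.Obj} (hV : V.dim = 0) (c : ℕ) : NoHomTrivial H V c := by
  intro j z hz hcl _
  change z = 0
  rcases lt_trichotomy j 0 with h | h | h
  · have h1 : z ∈ C.gr V j := hz
    rw [C.gr_neg V j h] at h1
    exact (Submodule.mem_bot _).1 h1
  · subst h
    obtain ⟨q, hq⟩ := hC.gr_zero V z hz
    rw [hq, cl_smul, map_one] at hcl
    have hq0 : q = 0 := by
      by_contra hne
      have h1 : (q : ℂ) ≠ 0 := by exact_mod_cast hne
      exact hH.one_ne_zero V (by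
        rw [← one_smul ℂ (1 : H.A V), ← inv_mul_cancel₀ h1, mul_smul, hcl, smul_zero])
    rw [hq, hq0, zero_smul]
  · exact hC.gr_top V j z hz (by rw [hV]; exact_mod_cast h)

lemma good_mono {c c' : ℕ} (h : c' ≤ c) {L : List (Fac 𝒱)} (hL : GoodS H B c L) :
    GoodS H B c' L := by
  obtain ⟨φ, ψ, h1, h2, h3⟩ := hL
  exact ⟨φ, ψ, h1, h2, fun j z hz hcl hj => h3 j z hz hcl (by omega)⟩

/-- If some factor has no eigenclasses then zero will do. -/
lemma pc_zero (b : Bool) : ∀ (L : List (Fac 𝒱)), (∃ f ∈ L, ∀ i x, Eig H f b i x → x = 0) →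
    ∀ w : H.A (prodL B (cs L)), PC H B b L w → w = 0
  | [], ⟨f, hf, _⟩, _, _ => absurd hf List.not_mem_nil
  | f :: L, ⟨f', hf', h0⟩, w, hw => by
    obtain ⟨i, x, t, hx, ht, rfl⟩ := hw
    rcases List.mem_cons.1 hf' with h | h
    · subst h
      rw [h0 i x hx, TheoryData.ext_zero_left]
      rfl
    · rw [pc_zero b L ⟨f', h, h0⟩ t ht, TheoryData.ext_zero_right]
      rfl

lemma good_void (c : ℕ) {L : List (Fac 𝒱)} {f : Fac 𝒱} (hf : f ∈ L)
    (h : ∀ b i x, Eig H f b i x → x = 0) : GoodS H B c L := by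
  refine ⟨fun _ => 0, fun _ => 0, realised_zero _ _ 0, fun b w hw => ?_, fun _ _ _ _ _ => rfl⟩
  rw [pc_zero b L ⟨f, hf, h b⟩ w hw]

lemma good_pair {Dt : HodgeData H} (hD : Dt.IsHodge) {f f' : Fac 𝒱}
    (hf : f.Ok D) (hf' : f'.Ok D)
    (h11 : ∀ (b : Bool) (i i' : ℤ) (x : H.A f.c.V) (y : H.A f'.c.V), Eig H f b i x →
      Eig H f' b i' y → H.ext x y ∈ Dt.hdg (f.c.V.prod f'.c.V) 1 1)
    {c : ℕ} {L : List (Fac 𝒱)} (hL : GoodS H B c L) : GoodS H B (c + 1) (f :: f' :: L) := by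
  obtain ⟨φ, ψ, hφ, hψ, hz⟩ := hL
  obtain ⟨n, u, v, hu, hv, huv⟩ := exists_pair hD hf hf' h11
  obtain ⟨τ, -, hτ, -, -⟩ := exists_integral H (f.c.V.prod f'.c.V)
  set R := prodL B (cs L) with hR
  have hdS : (f.c.V.prod f'.c.V).dim = 2 := by rw [dim_prod, hf.act.dim_eq, hf'.act.dim_eq]
  have hdim : (f.c.V.prod (f'.c.V.prod R)).dim = (f.c.V.prod f'.c.V).dim + R.dim := by
    rw [dim_prod, dim_prod, dim_prod, add_assoc]
  obtain ⟨φ', ψ', hφ', hψ', hz'⟩ := block (aJ f.c.V f'.c.V R) (aI f.c.V f'.c.V R) aJ_aI aI_aJ hdim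
    hφ (fun _ => 1) u v hu (fun i => by
      rw [hdS]
      exact hv i)
  refine ⟨φ', ψ', hφ', ?_, ?_⟩
  · rintro b w ⟨i, x, s, hx, ⟨i', y, t, hy, ht, rfl⟩, rfl⟩
    have h1 := hψ' τ (hτ R) (H.ext x y) t (hψ b t ht) (huv τ (hτ _) _
      (Submodule.subset_span ⟨b, i, i', x, y, hx, hy, rfl⟩))
    have h2 : H.pull (aJ f.c.V f'.c.V R ≫ fst (f.c.V.prod f'.c.V) R) (H.ext x y) *
        H.pull (aJ f.c.V f'.c.V R ≫ snd (f.c.V.prod f'.c.V) R) t = H.ext x (H.ext y t) := by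
      rw [TheoryData.ext, TheoryData.ext, TheoryData.ext, map_mul, map_mul, ← H.pull_comp,
        ← H.pull_comp, ← H.pull_comp, ← H.pull_comp, mul_assoc]
      have e1 : (aJ f.c.V f'.c.V R ≫ fst (f.c.V.prod f'.c.V) R) ≫ fst f.c.V f'.c.V =
          fst f.c.V (f'.c.V.prod R) := by simp [aJ]
      have e2 : (aJ f.c.V f'.c.V R ≫ fst (f.c.V.prod f'.c.V) R) ≫ snd f.c.V f'.c.V =
          snd f.c.V (f'.c.V.prod R) ≫ fst f'.c.V R := by simp [aJ]
      have e3 : aJ f.c.V f'.c.V R ≫ snd (f.c.V.prod f'.c.V) R =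
          snd f.c.V (f'.c.V.prod R) ≫ snd f'.c.V R := by simp [aJ]
      rw [e1, e2, e3]
    rw [h2] at h1
    exact h1
  · intro j (z : C.A (f.c.V.prod (f'.c.V.prod R))) (hzj : z ∈ C.gr (f.c.V.prod (f'.c.V.prod R)) j)
      (hcl : H.cl z = 0) hj
    apply hz'
    intro i
    set q := aJ f.c.V f'.c.V R ≫ snd (f.c.V.prod f'.c.V) R
    set p := aJ f.c.V f'.c.V R ≫ fst (f.c.V.prod f'.c.V) R
    have h1 := C.push_mem q (C.mul_mem (C.pull_mem p (hu i)) hzj)
    have hj' : ((f.c.V.prod (f'.c.V.prod R)).dim : ℤ) < j + (c + 1 : ℕ) := hj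
    refine hz _ _ h1 ?_ ?_
    · rw [H.cl_push, map_mul, hcl, mul_zero, map_zero]
    · change (R.dim : ℤ) < 1 + j + 1 * ((R.dim : ℤ) - ((f.c.V.prod (f'.c.V.prod R)).dim : ℤ)) + c
      rw [hdim, hdS] at hj' ⊢
      push_cast at hj' ⊢
      omega

lemma good_triv {f : Fac 𝒱} (hf : f.c.IsAction) (h0 : ∀ b x, Eig H f b 1 x → x = 0)
    {c : ℕ} {L : List (Fac 𝒱)} (hL : GoodS H B c L) : GoodS H B c (f :: L) := by
  obtain ⟨φ, ψ, hφ, hψ, hz⟩ := hL
  obtain ⟨τ, ⟨κ, hκ, hτκ⟩, hτ, -, hτ2⟩ := exists_integral H f.c.V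
  obtain ⟨a, ha, ha1, ha2⟩ := exists_deg_one C f.c.V
  have hd1 := hf.dim_eq
  set R := prodL B (cs L) with hR
  have hdim : (f.c.V.prod R).dim = f.c.V.dim + R.dim := dim_prod _ _
  have haD : HasDegree C a 1 := fun Y => by
    rw [ha1, ha2, one_smul]
    exact ⟨rfl, rfl⟩
  have hτa : τ (H.cl a) = 1 := by
    rw [hτ2 a ha 1 haD, Rat.cast_one]
  have ha' : a ∈ C.gr f.c.V 1 := by
    rw [hd1] at ha
    exact ha
  obtain ⟨φ', ψ', hφ', hψ', hz'⟩ := block (𝟙 (f.c.V.prod R)) (𝟙 (f.c.V.prod R))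
    (Category.comp_id _) (Category.comp_id _) hdim
    hφ ![0, 1] ![1, a] ![a, 1] (fun i => by
      fin_cases i
      · exact C.one_mem _
      · exact ha') (fun i => by
      rw [hd1]
      fin_cases i
      · exact ha'
      · exact C.one_mem _)
  have hτ0 : ∀ i : ℤ, i ≠ 2 → ∀ x ∈ H.gr f.c.V i, τ x = 0 := by
    intro i hi x hx
    rw [hτκ, LinearMap.smul_apply, tr_zero H hx (by rw [hd1]; exact_mod_cast hi), smul_zero]
  have key : ∀ b i x, Eig H f b i x → τ x • H.cl a + τ (H.cl a * x) • 1 = x := by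
    intro b i x hx
    by_cases hx0 : x = 0
    · rw [hx0, map_zero, mul_zero, map_zero, zero_smul, zero_smul, add_zero]
    have hi := nonneg_of_mem H hx.1 hx0
    have hi2 : i ≤ 2 := by
      by_contra hlt
      have h1 := hx.1
      rw [gr_top H (by rw [hd1]; push_cast; omega)] at h1
      exact hx0 ((Submodule.mem_bot _).1 h1)
    have hcl := H.cl_mem ha
    have h3 : i = 0 ∨ i = 1 ∨ i = 2 := by omega
    rcases h3 with rfl | rfl | rfl
    · obtain ⟨q, rfl⟩ := hH.gr_zero _ x hx.1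
      rw [hτ0 0 (by norm_num) _ hx.1, zero_smul, zero_add, mul_smul_comm, mul_one, map_smul, hτa,
        smul_eq_mul, mul_one]
    · exact absurd (h0 b x hx) hx0
    · have h4 := H.mul_mem hcl hx.1
      rw [hτ0 _ (by rw [hd1]; norm_num) _ h4, zero_smul, add_zero, ← sub_eq_zero]
      apply eq_zero_of_tr (S := f.c.V)
      · rw [hd1] at hcl ⊢
        exact Submodule.sub_mem _ (Submodule.smul_mem _ _ hcl) hx.1
      · have h5 : τ (τ x • H.cl a - x) = 0 := by
          rw [map_sub, map_smul, hτa, smul_eq_mul, mul_one, sub_self]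
        have h6 : κ * H.tr f.c.V (τ x • H.cl a - x) = 0 := by
          rw [← smul_eq_mul, ← LinearMap.smul_apply, ← hτκ]
          exact h5
        exact (mul_eq_zero.1 h6).resolve_left hκ
  refine ⟨φ', ψ', hφ', ?_, ?_⟩
  · rintro b w ⟨i, x, t, hx, ht, rfl⟩
    have h1 := hψ' τ (hτ R) x t (hψ b t ht) (by
      rw [Fin.sum_univ_two]
      change τ (H.cl 1 * x) • H.cl a + τ (H.cl a * x) • H.cl 1 = x
      rw [map_one, one_mul]
      exact key b i x hx)
    rw [Category.id_comp, Category.id_comp] at h1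
    exact h1
  · intro j (z : C.A (f.c.V.prod R)) (hzj : z ∈ C.gr (f.c.V.prod R) j) (hcl' : H.cl z = 0) hj
    apply hz'
    have hj' : ((f.c.V.prod R).dim : ℤ) < j + c := hj
    have hdim' : ((f.c.V.prod R).dim : ℤ) = 1 + R.dim := by
      rw [hdim, hd1]; push_cast; ring
    intro i
    rw [Category.id_comp, Category.id_comp]
    have hu : ∃ d : ℤ, 0 ≤ d ∧ (![1, a] : Fin 2 → C.A f.c.V) i ∈ C.gr f.c.V d := by
      fin_cases i
      · exact ⟨0, le_refl _, C.one_mem _⟩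
      · exact ⟨1, zero_le_one, ha'⟩
    obtain ⟨d, hd, hu⟩ := hu
    have h1 := C.push_mem (snd f.c.V R) (C.mul_mem (C.pull_mem (fst f.c.V R) hu) hzj)
    refine hz _ _ h1 ?_ ?_
    · rw [H.cl_push, map_mul, hcl', mul_zero, map_zero]
    · change (R.dim : ℤ) < d + j + 1 * ((R.dim : ℤ) - ((f.c.V.prod R).dim : ℤ)) + c
      rw [hdim'] at hj' ⊢
      omega

/-- Two lists of factors have isomorphic products, compatibly with product classes. -/
def IsoPC (H : WeilTheoryData.{u, v, 0} C ℂ) (B : 𝒱.Obj) (L L' : List (Fac 𝒱)) : Prop :=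
  ∃ (s : prodL B (cs L) ⟶ prodL B (cs L')) (t : prodL B (cs L') ⟶ prodL B (cs L)),
    s ≫ t = 𝟙 _ ∧ t ≫ s = 𝟙 _ ∧
    (∀ b w, PC H B b L' w → H.pull s w ∈ Submodule.span ℂ {w | PC H B b L w}) ∧
    (∀ b w, PC H B b L w → H.pull t w ∈ Submodule.span ℂ {w | PC H B b L' w})

lemma good_iso {c : ℕ} {L L' : List (Fac 𝒱)} (h : IsoPC H B L L') (hL : GoodS H B c L') :
    GoodS H B c L := by
  obtain ⟨s, t, hst, hts, h1, h2⟩ := h
  obtain ⟨φ, ψ, ⟨Γ, hΓ, hΓ1, hΓ2⟩, hψ, hz⟩ := hL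
  have hR := (((Realised.pull (H := H) t).comp (Realised.of (H := H) hΓ)).comp
    (Realised.pull s))
  refine ⟨_, _, hR.congr (by ring) (fun _ => rfl) (fun _ => rfl), ?_, ?_⟩
  · intro b w hw
    have h3 : ∀ w' ∈ Submodule.span ℂ {w | PC H B b L' w}, H.act (H.cl Γ) w' = w' := by
      intro w' hw'
      refine (show _ ≤ LinearMap.eqLocus (H.actL (H.cl Γ)) LinearMap.id from
        Submodule.span_le.2 ?_) hw'
      intro x hx
      exact (hΓ2 x).trans (hψ b x hx)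
    change H.pull s (H.act (H.cl Γ) (H.pull t w)) = w
    rw [h3 _ (h2 b w hw), ← H.pull_comp, hst, H.pull_id]
  · intro j z hzj hcl hj
    have hd : (prodL B (cs L')).dim = (prodL B (cs L)).dim := by
      by_contra hne
      -- the push-forward of the fundamental class
      have h4 : C.push t (1 : C.A (prodL B (cs L'))) = 1 :=
        HasIso.push_one t s hts hst
      have h5 := C.push_mem t (C.one_mem (prodL B (cs L')))
      rw [h4] at h5
      have h6 : C.push s (1 : C.A (prodL B (cs L))) = 1 :=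
        HasIso.push_one s t hst hts
      have h7 := C.push_mem s (C.one_mem (prodL B (cs L)))
      rw [h6] at h7
      have hne' : ∀ X : 𝒱.Obj, (1 : C.A X) ≠ 0 := fun X h => hH.one_ne_zero X (by
        rw [← map_one H.cl, h, map_zero])
      rcases lt_or_gt_of_ne hne with h8 | h8
      · rw [C.gr_neg _ _ (by omega)] at h7
        exact hne' _ ((Submodule.mem_bot _).1 h7)
      · rw [C.gr_neg _ _ (by omega)] at h5
        exact hne' _ ((Submodule.mem_bot _).1 h5)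
    rw [hΓ1, hz j (C.pull t z) (C.pull_mem t hzj) (by rw [H.cl_pull, hcl, map_zero])
      (by rw [hd]; exact hj), map_zero]

lemma isoPC_refl (L : List (Fac 𝒱)) : IsoPC H B L L :=
  ⟨𝟙 _, 𝟙 _, Category.comp_id _, Category.comp_id _,
    fun b w hw => by rw [H.pull_id]; exact Submodule.subset_span hw,
    fun b w hw => by rw [H.pull_id]; exact Submodule.subset_span hw⟩

lemma pull_span {X Y : 𝒱.Obj} (s : X ⟶ Y) {P : H.A Y → Prop} {Q : H.A X → Prop}
    (h : ∀ w, P w → H.pull s w ∈ Submodule.span ℂ {w | Q w}) {w : H.A Y}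
    (hw : w ∈ Submodule.span ℂ {w | P w}) : H.pull s w ∈ Submodule.span ℂ {w | Q w} := by
  refine (show _ ≤ Submodule.comap (H.pull s).toLinearMap (Submodule.span ℂ {w | Q w}) from
    Submodule.span_le.2 ?_) hw
  intro x hx
  exact h x hx

lemma isoPC_trans {L L' L'' : List (Fac 𝒱)} (h : IsoPC H B L L') (h' : IsoPC H B L' L'') :
    IsoPC H B L L'' := by
  obtain ⟨s, t, hst, hts, h1, h2⟩ := h
  obtain ⟨s', t', hst', hts', h1', h2'⟩ := h'
  refine ⟨s ≫ s', t' ≫ t, ?_, ?_, fun b w hw => ?_, fun b w hw => ?_⟩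
  · rw [Category.assoc, ← Category.assoc s', hst', Category.id_comp, hst]
  · rw [Category.assoc, ← Category.assoc t, hts, Category.id_comp, hts']
  · rw [H.pull_comp]
    exact pull_span s (h1 b) (h1' b w hw)
  · rw [H.pull_comp]
    exact pull_span t' (h2' b) (h2 b w hw)

lemma isoPC_cons (f : Fac 𝒱) {L L' : List (Fac 𝒱)} (h : IsoPC H B L L') :
    IsoPC H B (f :: L) (f :: L') := by
  obtain ⟨s, t, hst, hts, h1, h2⟩ := h
  have key : ∀ {L L' : List (Fac 𝒱)} (s : prodL B (cs L) ⟶ prodL B (cs L')),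
      (∀ b w, PC H B b L' w → H.pull s w ∈ Submodule.span ℂ {w | PC H B b L w}) →
      ∀ b w, PC H B b (f :: L') w → H.pull (prodMap (𝟙 f.c.V) s) w ∈
        Submodule.span ℂ {w | PC H B b (f :: L) w} := by
    rintro L L' s h1 b w ⟨i, x, y, hx, hy, rfl⟩
    rw [pull_ext, H.pull_id]
    refine (show _ ≤ Submodule.comap (extB H f.c.V (prodL B (cs L)) x) (Submodule.span ℂ
      {w | PC H B b (f :: L) w}) from Submodule.span_le.2 ?_) (h1 b y hy)
    intro y' hy'
    exact Submodule.subset_span ⟨i, x, y', hx, hy', rfl⟩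
  refine ⟨prodMap (𝟙 f.c.V) s, prodMap (𝟙 f.c.V) t, ?_, ?_, key s h1, key t h2⟩
  · change prodMap (𝟙 f.c.V) s ≫ prodMap (𝟙 f.c.V) t = 𝟙 (f.c.V.prod (prodL B (cs L)))
    rw [prodMap_comp, hst, Category.comp_id]
    apply prod_ext
    · rw [prodMap_fst, Category.comp_id, Category.id_comp]
    · rw [prodMap_snd, Category.comp_id, Category.id_comp]
  · change prodMap (𝟙 f.c.V) t ≫ prodMap (𝟙 f.c.V) s = 𝟙 (f.c.V.prod (prodL B (cs L')))
    rw [prodMap_comp, hts, Category.comp_id]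
    apply prod_ext
    · rw [prodMap_fst, Category.comp_id, Category.id_comp]
    · rw [prodMap_snd, Category.comp_id, Category.id_comp]

/-- The exchange of two factors. -/
noncomputable def swp (X Y R : 𝒱.Obj) : X.prod (Y.prod R) ⟶ Y.prod (X.prod R) :=
  Obj.lift (snd X (Y.prod R) ≫ fst Y R) (Obj.lift (fst X (Y.prod R)) (snd X (Y.prod R) ≫ snd Y R))

lemma swp_swp (X Y R : 𝒱.Obj) : swp X Y R ≫ swp Y X R = 𝟙 _ := by
  apply prod_ext
  · simp [swp, comp_lift]
  · apply prod_ext <;> simp [swp, comp_lift]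

lemma swp_ext {X Y R : 𝒱.Obj} (x : H.A Y) (x' : H.A X) (t : H.A R) :
    H.pull (swp X Y R) (H.ext x (H.ext x' t)) =
      H.pull (snd X (Y.prod R)) (H.pull (fst Y R) x) * H.pull (fst X (Y.prod R)) x' *
        H.pull (snd X (Y.prod R)) (H.pull (snd Y R) t) := by
  have e1 : swp X Y R ≫ fst Y (X.prod R) = snd X (Y.prod R) ≫ fst Y R := by simp [swp]
  have e2 : swp X Y R ≫ snd Y (X.prod R) ≫ fst X R = fst X (Y.prod R) := by simp [swp]
  have e3 : swp X Y R ≫ snd Y (X.prod R) ≫ snd X R = snd X (Y.prod R) ≫ snd Y R := by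
    simp [swp]
  simp only [TheoryData.ext, map_mul, ← H.pull_comp, e1, e2, e3, mul_assoc]

lemma isoPC_swap {Dt : HodgeData H} (hD : Dt.IsHodge) (f f' : Fac 𝒱) (L : List (Fac 𝒱)) :
    IsoPC H B (f :: f' :: L) (f' :: f :: L) := by
  have key0 : ∀ (f f' : Fac 𝒱) (b : Bool) (w : H.A (f'.c.V.prod (f.c.V.prod (prodL B (cs L))))),
      PC H B b (f' :: f :: L) w → ∃ (r : ℂ) (w' : H.A (f.c.V.prod (f'.c.V.prod (prodL B (cs L))))),
      PC H B b (f :: f' :: L) w' ∧ H.pull (swp f.c.V f'.c.V (prodL B (cs L))) w = r • w' := by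
    rintro f f' b w ⟨i, x, y, hx, ⟨i', x', t, hx', ht, rfl⟩, rfl⟩
    by_cases hx0 : x = 0
    · refine ⟨0, H.ext x' (H.ext x t), ⟨i', x', H.ext x t, hx', ⟨i, x, t, hx, ht, rfl⟩, rfl⟩, ?_⟩
      refine (swp_ext x x' t).trans ?_
      rw [hx0, map_zero, map_zero, zero_mul, zero_mul]
      exact (zero_smul ℂ _).symm
    by_cases hx0' : x' = 0
    · refine ⟨0, H.ext x' (H.ext x t), ⟨i', x', H.ext x t, hx', ⟨i, x, t, hx, ht, rfl⟩, rfl⟩, ?_⟩
      refine (swp_ext x x' t).trans ?_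
      rw [hx0', map_zero, mul_zero, zero_mul]
      exact (zero_smul ℂ _).symm
    obtain ⟨n, rfl⟩ := Int.eq_ofNat_of_zero_le (nonneg_of_mem H hx.1 hx0)
    obtain ⟨n', rfl⟩ := Int.eq_ofNat_of_zero_le (nonneg_of_mem H hx'.1 hx0')
    have h2 := hD.comm _ n n' _ _ (H.pull_mem (snd f.c.V (f'.c.V.prod (prodL B (cs L))))
      (H.pull_mem (fst f'.c.V (prodL B (cs L))) hx.1))
      (H.pull_mem (fst f.c.V (f'.c.V.prod (prodL B (cs L)))) hx'.1)
    have h4 : H.pull (snd f.c.V (f'.c.V.prod (prodL B (cs L))))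
        (H.pull (fst f'.c.V (prodL B (cs L))) x) *
        H.pull (fst f.c.V (f'.c.V.prod (prodL B (cs L)))) x' = (-1 : ℂ) ^ (n * n') •
          (H.pull (fst f.c.V (f'.c.V.prod (prodL B (cs L)))) x' *
            H.pull (snd f.c.V (f'.c.V.prod (prodL B (cs L))))
              (H.pull (fst f'.c.V (prodL B (cs L))) x)) := h2
    refine ⟨(-1 : ℂ) ^ (n * n'), H.ext x' (H.ext x t),
      ⟨n', x', H.ext x t, hx', ⟨n, x, t, hx, ht, rfl⟩, rfl⟩, ?_⟩
    refine (swp_ext x x' t).trans ?_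
    rw [h4, smul_mul_assoc, mul_assoc, ← map_mul]
    rfl
  have key : ∀ (f f' : Fac 𝒱) (b : Bool) (w : H.A (prodL B (cs (f' :: f :: L)))),
      PC H B b (f' :: f :: L) w →
      H.pull (swp f.c.V f'.c.V (prodL B (cs L)) : prodL B (cs (f :: f' :: L)) ⟶
        prodL B (cs (f' :: f :: L))) w ∈ Submodule.span ℂ {w | PC H B b (f :: f' :: L) w} := by
    intro f f' b w hw
    obtain ⟨r, w', h1, h2⟩ := key0 f f' b w hw
    exact Eq.subst (motive := fun y : H.A (prodL B (cs (f :: f' :: L))) =>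
      y ∈ Submodule.span ℂ {w | PC H B b (f :: f' :: L) w}) h2.symm
      (Submodule.smul_mem _ r (Submodule.subset_span h1))
  exact ⟨swp _ _ _, swp _ _ _, swp_swp _ _ _, swp_swp _ _ _, key f f', key f' f⟩

lemma isoPC_perm {Dt : HodgeData H} (hD : Dt.IsHodge) {L L' : List (Fac 𝒱)} (h : L.Perm L') :
    IsoPC H B L L' := by
  induction h with
  | nil => exact isoPC_refl _
  | cons f _ ih => exact isoPC_cons f ih
  | swap f f' L => exact isoPC_swap hD f' f L
  | trans _ _ h1 h2 => exact isoPC_trans h1 h2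

lemma good_perm {Dt : HodgeData H} (hD : Dt.IsHodge) {c : ℕ} {L L' : List (Fac 𝒱)}
    (h : L.Perm L') (hL : GoodS H B c L') : GoodS H B c L := good_iso (isoPC_perm hD h) hL

end Pool.Agent.U191.EY
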