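import Pool.Agent.U191.EY.Comb

/-!
# The main theorem
-/

set_option autoImplicit false
set_option linter.unusedSectionVars false

open CategoryTheory AlgebraicGeometry

universe u v

namespace Pool.Agent.U191.EY

open Pool.Agent.H914 Pool.Agent.H914.VarClass Pool.Agent.H914.VarClass.Obj Pool.Agent.W492.BB
  Pool.Agent.W550.Corr Pool.Agent.TH133

variable {k : Type u} [Field k] {𝒱 : VarClass k} {E : ℕ} {C : TheoryData.{u, v, 0} 𝒱 ℚ}
  [hC : IsChowProj C] {H : WeilTheoryData.{u, v, 0} C ℂ} [hH : IsWeilProj H] {B : 𝒱.Obj}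
  {D : HodgeData H}

lemma isAction_cs {L : List (Fac 𝒱)} (hL : ∀ f ∈ L, f.Ok E) : ∀ c ∈ cs L, c.IsAction := by
  intro c hc
  obtain ⟨f, hf, rfl⟩ := List.mem_map.1 hc
  exact (hL f hf).act

/-- The character of the product group is irreducible. -/
lemma irr_chL : ∀ (L : List (Fac 𝒱)), (∀ f ∈ L, f.Ok E) → IsIrr (chL L) (dL L)
  | [], _ =>
    { pos := one_pos
      one := by
        change (1 : ℂ) = ((1 : ℚ) : ℂ)
        norm_num
      inv := fun g => (map_one (starRingEnd ℂ)).symm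
      func := fun g h => by
        change ∑ _x : PUnit, (1 : ℂ) = (((Fintype.card PUnit : ℚ) / 1 : ℚ) : ℂ) * (1 * 1)
        simp
      conv := fun g => by
        change ∑ _x : PUnit, (1 : ℂ) * 1 = (((Fintype.card PUnit : ℚ) / 1 : ℚ) : ℂ) * 1
        simp }
  | f :: L, hL => (hL f List.mem_cons_self).irr.prod
      (irr_chL L fun f' hf' => hL f' (List.mem_cons_of_mem _ hf'))

lemma quad_chL : ∀ (L : List (Fac 𝒱)), (∀ f ∈ L, f.Ok E) → ∀ γ, InQuad E (chL L γ)
  | [], _, _ => InQuad.one E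
  | f :: L, hL, γ => ((hL f List.mem_cons_self).quad γ.1).mul
      (quad_chL L (fun f' hf' => hL f' (List.mem_cons_of_mem _ hf')) γ.2)

lemma prod_l : ∀ (L : List (Fac 𝒱)), (L.map Fac.l).prod = Fintype.card (Grp (cs L)) / dL L
  | [] => by
    have h1 : Fintype.card (Grp (cs ([] : List (Fac 𝒱)))) = 1 := Fintype.card_punit
    rw [h1]
    change (1 : ℚ) = ((1 : ℕ) : ℚ) / 1
    norm_num
  | f :: L => by
    have h1 : Fintype.card (Grp (cs (f :: L))) = Fintype.card f.c.G * Fintype.card (Grp (cs L)) :=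
      Fintype.card_prod _ _
    have h2 : dL (f :: L) = f.d * dL L := rfl
    rw [List.map_cons, List.prod_cons, prod_l L, h1, h2, Fac.l]
    push_cast
    rw [div_mul_div_comm]

/-- The function is the product of irreducible characters of the factors. -/
def IsProdChar (E : ℕ) (L₀ : List (GCurve 𝒱)) (Ψ : Grp L₀ → ℂ) : Prop :=
  ∃ (L : List (Fac 𝒱)) (h : cs L = L₀), (∀ f ∈ L, f.Ok E) ∧ (h ▸ chL L : Grp L₀ → ℂ) = Ψ

open Classical in
/-- The unit of the group algebra is a rational combination of products of irreducible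
characters. -/
lemma delta_span : ∀ (L₀ : List (GCurve 𝒱)), (∀ c ∈ L₀, c.IsAction) →
    (∀ c ∈ L₀, HasCharactersIn E c.G) →
    (fun γ : Grp L₀ => if γ = 1 then (1 : ℂ) else 0) ∈
      Submodule.span ℚ {Ψ | IsProdChar E L₀ Ψ}
  | [], _, _ => by
    apply Submodule.subset_span
    refine ⟨[], rfl, by simp, ?_⟩
    funext γ
    have h1 : γ = 1 := rfl
    rw [h1]
    exact (if_pos rfl).symm
  | c :: L₀, h, h' => by
    have ih := delta_span L₀ (fun c' hc' => h c' (List.mem_cons_of_mem _ hc'))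
      (fun c' hc' => h' c' (List.mem_cons_of_mem _ hc'))
    obtain ⟨Φ, _, n, ρ, hρ, hq⟩ := h' c List.mem_cons_self
    have hcard : (Fintype.card c.G : ℂ) ≠ 0 := by exact_mod_cast (card_pos' (G := c.G)).ne'
    have h1 : (fun γ : Grp (c :: L₀) => if γ = 1 then (1 : ℂ) else 0) =
        ∑ φ, ((n φ : ℚ) / Fintype.card c.G) • (fun γ : Grp (c :: L₀) =>
          chi ρ φ γ.1 * (if γ.2 = 1 then (1 : ℂ) else 0)) := by
      funext γ
      rw [Finset.sum_apply]
      have h2 := hρ.sum_chi γ.1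
      have h3 : ∑ φ, (((n φ : ℚ) / Fintype.card c.G) • (fun γ : Grp (c :: L₀) =>
          chi ρ φ γ.1 * (if γ.2 = 1 then (1 : ℂ) else 0))) γ =
          (∑ φ, (n φ : ℂ) * chi ρ φ γ.1) / Fintype.card c.G * (if γ.2 = 1 then (1 : ℂ) else 0) := by
        rw [Finset.sum_div, Finset.sum_mul]
        refine Finset.sum_congr rfl fun φ _ => ?_
        rw [Pi.smul_apply, Rat.smul_def]
        push_cast
        ring
      rw [h3, h2]
      by_cases hγ1 : γ.1 = 1
      · by_cases hγ2 : γ.2 = 1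
        · have hγ : γ = 1 := Prod.ext hγ1 hγ2
          rw [if_pos hγ, if_pos hγ1, if_pos hγ2, div_self hcard, mul_one]
        · have hγ : γ ≠ 1 := fun h => hγ2 (congrArg Prod.snd h)
          rw [if_neg hγ, if_neg hγ2, mul_zero]
      · have hγ : γ ≠ 1 := fun h => hγ1 (congrArg Prod.fst h)
        rw [if_neg hγ, if_neg hγ1, zero_div, zero_mul]
    rw [h1]
    refine Submodule.sum_mem _ fun φ _ => Submodule.smul_mem _ _ ?_
    let T : (Grp L₀ → ℂ) →ₗ[ℚ] (Grp (c :: L₀) → ℂ) :=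
      { toFun := fun Ψ γ => chi ρ φ γ.1 * Ψ γ.2
        map_add' := fun Ψ Ψ' => by
          funext γ
          exact mul_add _ _ _
        map_smul' := fun q Ψ => by
          funext γ
          change chi ρ φ γ.1 * (q • Ψ γ.2) = q • (chi ρ φ γ.1 * Ψ γ.2)
          rw [mul_smul_comm] }
    refine (show _ ≤ Submodule.comap T (Submodule.span ℚ {Ψ | IsProdChar E (c :: L₀) Ψ}) from
      Submodule.span_le.2 ?_) ih
    rintro _ ⟨L, rfl, hL, rfl⟩
    apply Submodule.subset_span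
    refine ⟨⟨c, chi ρ φ, n φ⟩ :: L, rfl, ?_, rfl⟩
    intro f hf
    rcases List.mem_cons.1 hf with rfl | hf
    · exact ⟨h c List.mem_cons_self, hρ.isIrr φ, hq φ⟩
    · exact hL f hf

/-! ### Operators of the group algebra -/

section ops

variable {L₀ : List (GCurve 𝒱)}

/-- The operator `∑ r(γ) γ_*` on the Chow groups. -/
noncomputable def opC (C : TheoryData.{u, v, 0} 𝒱 ℚ) (B : 𝒱.Obj) (L₀ : List (GCurve 𝒱))
    (r : Grp L₀ → ℚ) (z : C.A (prodL B L₀)) : C.A (prodL B L₀) :=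
  ∑ γ, r γ • C.push (mapL B L₀ γ) z

lemma opC_conv (h : ∀ c ∈ L₀, c.IsAction) (r s : Grp L₀ → ℚ) (z : C.A (prodL B L₀)) :
    opC C B L₀ r (opC C B L₀ s z) = opC C B L₀ (fun e => ∑ g, r g * s (g⁻¹ * e)) z :=
  convL (fun γ => C.push (mapL B L₀ γ)) (fun a b x => by
    rw [mapL_mul h, C.push_comp]) r s z

lemma opC_mem {r : Grp L₀ → ℚ} {j : ℤ} {z : C.A (prodL B L₀)} (hz : z ∈ C.gr _ j) :
    opC C B L₀ r z ∈ C.gr _ j := by
  refine Submodule.sum_mem _ fun γ _ => Submodule.smul_mem _ _ ?_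
  have := C.push_mem (mapL B L₀ γ) hz
  rwa [sub_self, mul_zero, add_zero] at this

lemma opC_cl {r : Grp L₀ → ℚ} {z : C.A (prodL B L₀)} (hz : H.cl z = 0) :
    H.cl (opC C B L₀ r z) = 0 := by
  rw [opC, map_sum]
  refine Finset.sum_eq_zero fun γ _ => ?_
  rw [cl_smul, H.cl_push, hz, map_zero, smul_zero]

lemma opC_smul (r : Grp L₀ → ℚ) (q : ℚ) (z : C.A (prodL B L₀)) :
    opC C B L₀ r (q • z) = q • opC C B L₀ r z := by
  rw [opC, opC, Finset.smul_sum]
  refine Finset.sum_congr rfl fun γ _ => ?_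
  rw [map_smul, smul_comm]

lemma opC_real (r : Grp L₀ → ℚ) : Realised H (prodL B L₀) (prodL B L₀) 0 (opC C B L₀ r)
    (fun w => ∑ γ, (r γ : ℂ) • H.push (mapL B L₀ γ) w) := by
  have h1 : ∀ γ, Realised H (prodL B L₀) (prodL B L₀) 0 (fun z => r γ • C.push (mapL B L₀ γ) z)
      (fun w => (r γ : ℂ) • H.push (mapL B L₀ γ) w) := fun γ =>
    (realised_smul (r γ) (Realised.push (H := H) (mapL B L₀ γ))).congr (sub_self _)
      (fun _ => rfl) (fun _ => rfl)
  obtain ⟨n, ⟨e⟩⟩ : ∃ n, Nonempty (Grp L₀ ≃ Fin n) := ⟨_, ⟨Fintype.equivFin _⟩⟩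
  have h2 := realised_sum (Finset.univ : Finset (Fin n)) _ _ (fun i => h1 (e.symm i))
  refine h2.congr rfl (fun z => ?_) (fun w => ?_)
  · exact Fintype.sum_equiv e.symm _ _ fun i => rfl
  · exact Fintype.sum_equiv e.symm _ _ fun i => rfl

end ops

open Pool.Agent.W484.CK in
lemma act_iterate {X : 𝒱.Obj} (Γ : C.A (X.prod X)) (z : C.A X) (n : ℕ) :
    C.act (iterate C Γ n) z = (C.act Γ)^[n] z := by
  induction n with
  | zero => exact act_dg C z
  | succ n ih =>
    rw [Function.iterate_succ_apply', ← ih]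
    exact C.act_comp (iterate C Γ n) Γ z

/-- **The nilpotence argument.** -/
lemma kill_of_good {L : List (Fac 𝒱)} (hL : ∀ f ∈ L, f.Ok E)
    (hN : Pool.Agent.W484.CK.Nilpotence H (prodL B (cs L))) {c : ℕ} (hg : GoodS H B c L)
    {R : Grp (cs L) → ℚ} (hR : ∀ γ, (R γ : ℂ) = chL L γ + chL L γ⁻¹)
    {j : ℤ} {z : C.A (prodL B (cs L))} (hz : z ∈ C.gr _ j) (hcl : H.cl z = 0)
    (hj : ((prodL B (cs L)).dim : ℤ) < j + c) : opC C B (cs L) R z = 0 := by
  have hcs := isAction_cs hL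
  have hirr := irr_chL L hL
  obtain ⟨R', l, hR', hinv, hl0, hconv, -, -⟩ := hirr.exists_real (fun γ => by
    rw [hirr.inv]
    exact (quad_chL L hL γ).real)
  have hRR : R' = R := by
    funext γ
    have : (R' γ : ℂ) = (R γ : ℂ) := (hR' γ).trans (hR γ).symm
    exact_mod_cast this
  subst hRR
  set T := opC C B (cs L) R' with hT
  have hTT : ∀ u, T (T u) = l • T u := by
    intro u
    rw [hT, opC_conv hcs, opC, opC, Finset.smul_sum]
    refine Finset.sum_congr rfl fun e _ => ?_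
    rw [hconv, smul_smul]
  obtain ⟨φ, ψ, ⟨Γ, hΓ, hΓ1, hΓ2⟩, hψ, hφ⟩ := hg
  have hreal := opC_real (C := C) (H := H) (B := B) (L₀ := cs L) R'
  set TH : H.A (prodL B (cs L)) → H.A (prodL B (cs L)) :=
    fun w => ∑ γ, (R' γ : ℂ) • H.push (mapL B (cs L) γ) w with hTH
  have hψT : ∀ w, H.act (H.cl Γ) (TH w) = TH w := by
    intro w
    have h1 : TH w = avg H B true L w + avg H B false L w := by
      rw [avg_apply, avg_apply, ← Finset.sum_add_distrib, hTH]
      refine Fintype.sum_equiv (Equiv.inv _) _ _ fun γ => ?_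
      change (R' γ : ℂ) • H.push (mapL B (cs L) γ) w =
        cv true (chL L γ⁻¹) • H.pull (mapL B (cs L) γ⁻¹) w +
          cv false (chL L γ⁻¹) • H.pull (mapL B (cs L) γ⁻¹) w
      rw [pull_iso H.toTheoryData (mapL B (cs L) γ⁻¹) (mapL B (cs L) γ) (mapL_inv' hcs γ)
        (mapL_inv hcs γ), ← add_smul, ← hinv, hR', hirr.inv γ⁻¹]
      rfl
    have h2 : ∀ b, H.act (H.cl Γ) (avg H B b L w) = avg H B b L w := by
      intro b
      refine (show _ ≤ LinearMap.eqLocus (H.actL (H.cl Γ)) LinearMap.id from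
        Submodule.span_le.2 ?_) (avg_mem b L hL w)
      intro x hx
      exact (hΓ2 x).trans (hψ b x hx)
    rw [h1, act_map_add, h2, h2]
  have hφ' : Realised H (prodL B (cs L)) (prodL B (cs L)) 0 (C.act Γ) (H.act (H.cl Γ)) :=
    Realised.of hΓ
  have hy := ((hreal.comp hreal).sub (((hreal.comp hφ').comp hreal).congr (by ring)
    (fun _ => rfl) (fun _ => rfl)))
  obtain ⟨Y, hY, hY1, hY2⟩ := hy
  obtain ⟨n, hn⟩ := hN Y (by
    have h1 : Y ∈ C.gr _ _ := hY
    rw [add_zero, add_zero] at h1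
    exact h1) (by
    intro a
    rw [hY2]
    change TH (TH a) - TH (H.act (H.cl Γ) (TH a)) = 0
    rw [hψT, sub_self])
  have hZ : ∀ u, u ∈ C.gr (prodL B (cs L)) j → H.cl u = 0 → C.act Y u = T (T u) := by
    intro u hu hcu
    rw [hY1]
    change T (T u) - T (C.act Γ (T u)) = T (T u)
    have h1 : C.act Γ (T u) = 0 := by
      rw [hΓ1]
      exact hφ j _ (opC_mem hu) (opC_cl hcu) hj
    have h2 : T 0 = 0 := by
      have := opC_smul (C := C) (B := B) R' 0 (0 : C.A (prodL B (cs L)))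
      rwa [zero_smul, zero_smul] at this
    rw [h1, h2, sub_zero]
  have hpow : ∀ n : ℕ, (C.act Y)^[n] (T z) = (l ^ (2 * n)) • T z := by
    intro n
    induction n with
    | zero => rw [Function.iterate_zero_apply, mul_zero, pow_zero, one_smul]
    | succ n ih =>
      rw [Function.iterate_succ_apply', ih, hZ _ (Submodule.smul_mem _ _ (opC_mem hz))
        (by rw [cl_smul, opC_cl hcl, smul_zero])]
      have hs : ∀ (q : ℚ) u, T (q • u) = q • T u := fun q u => opC_smul R' q u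
      rw [hs, hs, hTT, hTT, smul_smul, smul_smul]
      congr 1
      ring
  have h1 := hpow n
  rw [← act_iterate, hn, C.act_zero] at h1
  exact (smul_eq_zero.1 h1.symm).resolve_left (pow_ne_zero _ hl0)

/-- An element of the group algebra which kills a nonzero isotypic class is orthogonal to the
character. -/
lemma coef_zero (hD : D.IsHodge) {L : List (Fac 𝒱)} (hL : ∀ f ∈ L, f.Ok E)
    {w : H.A (prodL B (cs L))} (hw : PC H B true L w) (hw0 : w ≠ 0) {p q : ℕ}
    (hwpq : w ∈ D.hdg (prodL B (cs L)) p q) (a : Grp (cs L) → ℚ)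
    (ha : ∀ x ∈ D.hdg (prodL B (cs L)) p q, ∑ γ, (a γ : ℂ) • H.pull (mapL B (cs L) γ) x = 0)
    (δ : Grp (cs L)) : ∑ g, (a g : ℂ) * chL L (g⁻¹ * δ) = 0 := by
  have hcs := isAction_cs hL
  have hirr := irr_chL L hL
  set χ := chL L with hχ
  set ℓ : ℚ := Fintype.card (Grp (cs L)) / dL L with hℓ
  have hℓ0 : (ℓ : ℂ) ≠ 0 := by
    have := hirr.l_pos
    exact_mod_cast this.ne'
  have hpp : ∀ x y (v : H.A (prodL B (cs L))), H.pull (mapL B (cs L) x) (H.pull (mapL B (cs L) y) v) =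
      H.pull (mapL B (cs L) (y * x)) v := by
    intro x y v
    rw [← H.pull_comp, mapL_mul hcs]
  have hwavg : ∑ m, χ m • H.pull (mapL B (cs L) m) w = (ℓ : ℂ) • w := by
    have h1 := avg_pc (B := B) true L w hw
    rw [avg_apply, prod_l] at h1
    exact h1
  -- the class sums act as scalars
  have hcl : ∀ x, ∑ γ, H.pull (mapL B (cs L) (γ * x * γ⁻¹)) w = ((ℓ : ℂ) * χ x⁻¹) • w := by
    intro x
    have h1 : ∀ y, (ℓ : ℂ) • H.pull (mapL B (cs L) y) w =
        ∑ m, χ (m * y⁻¹) • H.pull (mapL B (cs L) m) w := by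
      intro y
      rw [← map_smul, ← hwavg, map_sum]
      refine Fintype.sum_equiv (Equiv.mulRight y) _ _ fun m => ?_
      change H.pull (mapL B (cs L) y) (χ m • H.pull (mapL B (cs L) m) w) =
        χ (m * y * y⁻¹) • H.pull (mapL B (cs L) (m * y)) w
      rw [map_smul, hpp, mul_inv_cancel_right]
    have h2 : (ℓ : ℂ) • ∑ γ, H.pull (mapL B (cs L) (γ * x * γ⁻¹)) w =
        (ℓ : ℂ) • (((ℓ : ℂ) * χ x⁻¹) • w) := by
      rw [Finset.smul_sum, Finset.sum_congr rfl fun γ _ => h1 _, Finset.sum_comm]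
      have h3 : ∀ m, ∑ γ, χ (m * (γ * x * γ⁻¹)⁻¹) • H.pull (mapL B (cs L) m) w =
          ((ℓ : ℂ) * χ x⁻¹) • (χ m • H.pull (mapL B (cs L) m) w) := by
        intro m
        rw [← Finset.sum_smul, smul_smul]
        congr 1
        have h4 := hirr.func m x⁻¹
        have h5 : ∀ γ, (γ * x * γ⁻¹)⁻¹ = γ * x⁻¹ * γ⁻¹ := fun γ => by group
        simp only [h5]
        rw [h4]
        ring
      rw [Finset.sum_congr rfl fun m _ => h3 m, ← Finset.smul_sum, hwavg, smul_comm]
    have h3 := congrArg (fun v => (ℓ : ℂ)⁻¹ • v) h2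
    simp only [smul_smul (ℓ : ℂ)⁻¹, inv_mul_cancel₀ hℓ0, one_smul] at h3
    exact h3
  have hzero : ∀ γ, ∑ g, (a g : ℂ) • H.pull (mapL B (cs L) (γ * (δ⁻¹ * g) * γ⁻¹)) w = 0 := by
    intro γ
    have h1 := ha (H.pull (mapL B (cs L) (γ * δ⁻¹)) w) (hD.pull_mem _ _ _ _ _ _ hwpq)
    have h2 := congrArg (H.pull (mapL B (cs L) γ⁻¹)) h1
    rw [map_sum, map_zero] at h2
    rw [← h2]
    refine Finset.sum_congr rfl fun g _ => ?_
    rw [map_smul, hpp, hpp]
    congr 3
    group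
  have h1 : ∑ g, (a g : ℂ) • ∑ γ, H.pull (mapL B (cs L) (γ * (δ⁻¹ * g) * γ⁻¹)) w = 0 := by
    simp_rw [Finset.smul_sum]
    rw [Finset.sum_comm]
    exact Finset.sum_eq_zero fun γ _ => hzero γ
  have h2 : ((ℓ : ℂ) * ∑ g, (a g : ℂ) * χ (g⁻¹ * δ)) • w = 0 := by
    rw [← h1, Finset.mul_sum, Finset.sum_smul]
    refine Finset.sum_congr rfl fun g _ => ?_
    rw [hcl, smul_smul]
    congr 1
    have h5 : (δ⁻¹ * g)⁻¹ = g⁻¹ * δ := by group
    rw [h5]
    ring
  have h3 := (smul_eq_zero.1 h2).resolve_right hw0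
  exact (mul_eq_zero.1 h3).resolve_left hℓ0

/-- **The main theorem.** -/
theorem main (hD : D.IsHodge) (L₀ : List (GCurve 𝒱))
    (hact : ∀ c ∈ L₀, c.IsAction) (hchar : ∀ c ∈ L₀, HasCharactersIn E c.G)
    (hN : Pool.Agent.W484.CK.Nilpotence H (prodL B L₀)) {c : ℕ} (hB : NoHomTrivial H B c)
    (a : Grp L₀ → ℚ)
    (ha : ∀ p q : ℕ, p ≠ q → min p q < c → ∀ x ∈ D.hdg (prodL B L₀) p q,
      ∑ γ, (a γ : ℂ) • H.push (mapL B L₀ γ) x = 0)
    {j : ℤ} {z : C.A (prodL B L₀)} (hz : z ∈ C.gr _ j) (hcl : H.cl z = 0)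
    (hj : ((prodL B L₀).dim : ℤ) < j + c) : opC C B L₀ a z = 0 := by
  classical
  have key : ∀ Ψ ∈ Submodule.span ℚ {Ψ | IsProdChar E L₀ Ψ}, ∃ R : Grp L₀ → ℚ,
      (∀ γ, (R γ : ℂ) = Ψ γ + starRingEnd ℂ (Ψ γ)) ∧
      opC C B L₀ R (opC C B L₀ a z) = 0 := by
    intro Ψ hΨ
    induction hΨ using Submodule.span_induction with
    | mem Ψ hΨ =>
      obtain ⟨L, rfl, hL, rfl⟩ := hΨ
      change ∃ R : Grp (cs L) → ℚ, (∀ γ, (R γ : ℂ) = chL L γ + starRingEnd ℂ (chL L γ)) ∧ _
      have hirr := irr_chL L hL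
      obtain ⟨R, l, hR, hinv, -, -, -, -⟩ := hirr.exists_real (fun γ => by
        rw [hirr.inv]
        exact (quad_chL L hL γ).real)
      refine ⟨R, fun γ => by rw [hR, hirr.inv], ?_⟩
      by_cases hg : GoodS H B c L
      · exact kill_of_good hL hN hg hR (opC_mem hz) (opC_cl hcl) hj
      · have hg' : ¬ ∀ p q w, PC H B true L w → w ∈ D.hdg (prodL B (cs L)) p q → w ≠ 0 → p = q ∨
            (c ≤ p ∧ c ≤ q) := fun h => hg (good_of_types hD hB hL h)
        push Not at hg'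
        obtain ⟨p, q, w, hw, hwpq, hw0, hpq, hpqc⟩ := hg'
        have hcs := isAction_cs hL
        have hmin : min p q < c := by
          rw [min_lt_iff]
          by_contra hn
          push Not at hn
          exact absurd (hpqc hn.1) (not_lt.2 hn.2)
        have ha' : ∀ x ∈ D.hdg (prodL B (cs L)) p q,
            ∑ γ : Grp (cs L), (((fun g => a g⁻¹) γ : ℚ) : ℂ) • H.pull (mapL B (cs L) γ) x = 0 := by
          intro x hx
          rw [← ha p q hpq hmin x hx]
          refine Fintype.sum_equiv (Equiv.inv _) _ _ fun γ => ?_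
          change (a γ⁻¹ : ℂ) • H.pull (mapL B (cs L) γ) x =
            (a γ⁻¹ : ℂ) • H.push (mapL B (cs L) γ⁻¹) x
          rw [pull_iso H.toTheoryData (mapL B (cs L) γ) (mapL B (cs L) γ⁻¹)
            (mapL_inv hcs γ) (mapL_inv' hcs γ)]
        have hco := coef_zero hD hL hw hw0 hwpq (fun g => a g⁻¹) ha'
        have hco' : ∀ δ, ∑ h, (a h : ℂ) * chL L (h * δ) = 0 := by
          intro δ
          rw [← hco δ]
          refine Fintype.sum_equiv (Equiv.inv _) _ _ fun h => ?_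
          change (a h : ℂ) * chL L (h * δ) = (a h⁻¹⁻¹ : ℂ) * chL L (h⁻¹⁻¹ * δ)
          rw [inv_inv]
        have h0 : ∀ e, ∑ g, R g * a (g⁻¹ * e) = 0 := by
          intro e
          have h1 : ∑ g, R g * a (g⁻¹ * e) = ∑ h, R (e * h⁻¹) * a h := by
            refine Fintype.sum_equiv ((Equiv.inv _).trans (Equiv.mulRight e)) _ _ fun g => ?_
            change R g * a (g⁻¹ * e) = R (e * (g⁻¹ * e)⁻¹) * a (g⁻¹ * e)
            congr 2
            group
          have h2 : (∑ h, (R (e * h⁻¹) : ℂ) * (a h : ℂ)) = 0 := by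
            have h3 : ∀ h, (R (e * h⁻¹) : ℂ) * (a h : ℂ) = (a h : ℂ) * chL L (h * e⁻¹) +
                starRingEnd ℂ ((a h : ℂ) * chL L (h * e⁻¹)) := by
              intro h
              have h4 : chL L (h * e⁻¹) = starRingEnd ℂ (chL L (e * h⁻¹)) := by
                rw [← hirr.inv]
                congr 1
                group
              have h5 : starRingEnd ℂ (chL L (h * e⁻¹)) = chL L (e * h⁻¹) := by
                rw [h4, Complex.conj_conj]
              have h6 : (e * h⁻¹)⁻¹ = h * e⁻¹ := by group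
              rw [hR, map_mul, map_ratCast, h5, h6]
              ring
            rw [Finset.sum_congr rfl fun h _ => h3 h, Finset.sum_add_distrib, ← map_sum,
              hco' e⁻¹, map_zero, add_zero]
          rw [h1]
          exact_mod_cast h2
        rw [opC_conv (isAction_cs hL), opC]
        exact Finset.sum_eq_zero fun e _ => by rw [h0 e, zero_smul]
    | zero =>
      refine ⟨fun _ => 0, fun γ => ?_, ?_⟩
      · rw [Pi.zero_apply, map_zero, add_zero, Rat.cast_zero]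
      · rw [opC]
        exact Finset.sum_eq_zero fun e _ => zero_smul _ _
    | add Ψ Ψ' _ _ h h' =>
      obtain ⟨R, hR, hR0⟩ := h
      obtain ⟨R', hR', hR0'⟩ := h'
      refine ⟨fun γ => R γ + R' γ, fun γ => ?_, ?_⟩
      · rw [Pi.add_apply, Rat.cast_add, hR, hR', map_add]
        ring
      · have h1 : opC C B L₀ (fun γ => R γ + R' γ) (opC C B L₀ a z) =
            opC C B L₀ R (opC C B L₀ a z) + opC C B L₀ R' (opC C B L₀ a z) := by
          rw [opC, opC.eq_1 C B L₀ R, opC.eq_1 C B L₀ R', ← Finset.sum_add_distrib]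
          exact Finset.sum_congr rfl fun γ _ => add_smul _ _ _
        rw [h1, hR0, hR0', add_zero]
    | smul q Ψ _ h =>
      obtain ⟨R, hR, hR0⟩ := h
      refine ⟨fun γ => q * R γ, fun γ => ?_, ?_⟩
      · rw [Pi.smul_apply, Rat.smul_def, Rat.cast_mul, hR, map_mul, map_ratCast]
        ring
      · have h1 : opC C B L₀ (fun γ => q * R γ) (opC C B L₀ a z) =
            q • opC C B L₀ R (opC C B L₀ a z) := by
          rw [opC, opC.eq_1 C B L₀ R, Finset.smul_sum]
          exact Finset.sum_congr rfl fun γ _ => mul_smul _ _ _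
        rw [h1, hR0, smul_zero]
  obtain ⟨R, hR, hR0⟩ := key _ (delta_span L₀ hact hchar)
  have hR2 : ∀ γ, R γ = if γ = 1 then 2 else 0 := by
    intro γ
    have h1 := hR γ
    split_ifs at h1 ⊢ with h
    · rw [map_one] at h1
      have h2 : (R γ : ℂ) = ((2 : ℚ) : ℂ) := by rw [h1]; norm_num
      exact_mod_cast h2
    · rw [map_zero, add_zero] at h1
      exact_mod_cast h1
  have h1 : opC C B L₀ R (opC C B L₀ a z) = (2 : ℚ) • opC C B L₀ a z := by
    rw [opC, Finset.sum_eq_single 1]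
    · rw [hR2, if_pos rfl, mapL_one hact, C.push_id]
    · intro γ _ hγ
      rw [hR2, if_neg hγ, zero_smul]
    · intro h
      exact absurd (Finset.mem_univ _) h
  rw [hR0] at h1
  exact (smul_eq_zero.1 h1.symm).resolve_left two_ne_zero

end Pool.Agent.U191.EY
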