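import Pool.Agent.U191.EY.Prod

/-!
# Opposite pairs
-/

set_option autoImplicit false
set_option linter.unusedSectionVars false

open CategoryTheory AlgebraicGeometry

universe u v

namespace Pool.Agent.U191.EY

open Pool.Agent.H914 Pool.Agent.H914.VarClass Pool.Agent.H914.VarClass.Obj Pool.Agent.W492.BB
  Pool.Agent.W550.Corr Pool.Agent.TH133

variable {k : Type u} [Field k] {𝒱 : VarClass k} {D : ℕ} {C : TheoryData.{u, v, 0} 𝒱 ℚ}
  [hC : IsChowProj C] {H : WeilTheoryData.{u, v, 0} C ℂ} [hH : IsWeilProj H]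

/-- **Gram matrices.** A space of classes spanned by divisor classes, on which the intersection
pairing is non-degenerate, has dual bases of divisor classes. -/
lemma exists_dual {S : 𝒱.Obj} (hS : S.dim = 2) [Module.Finite ℂ (H.A S)]
    (W : Submodule ℂ (H.A S))
    (hW1 : W ≤ Submodule.span ℂ {x | x ∈ W ∧ ∃ z : C.A S, z ∈ C.gr S 1 ∧ H.cl z = x})
    (hW2 : ∀ w ∈ W, (∀ w' ∈ W, H.tr S (w * w') = 0) → w = 0) :
    ∃ (n : ℕ) (u v : Fin n → C.A S), (∀ i, u i ∈ C.gr S 1) ∧ (∀ i, v i ∈ C.gr S 1) ∧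
      ∀ τ : H.A S →ₗ[ℂ] ℂ, (∀ s, H.push (snd S S) (H.pull (fst S S) s) = τ s • 1) →
        ∀ ω ∈ W, ∑ i, τ (H.cl (u i) * ω) • H.cl (v i) = ω := by
  classical
  obtain ⟨b, hb1, hb2, hb3⟩ := exists_linearIndependent ℂ
    {x | x ∈ W ∧ ∃ z : C.A S, z ∈ C.gr S 1 ∧ H.cl z = x}
  have hfin : Finite b := hb3.setFinite
  obtain ⟨n, ⟨e⟩⟩ := Finite.exists_equiv_fin b
  have hbD : ∀ i : Fin n, ∃ z : C.A S, z ∈ C.gr S 1 ∧ H.cl z = (e.symm i : H.A S) :=
    fun i => (hb1 (e.symm i).2).2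
  choose Dv hDv1 hDv2 using hbD
  have hDW : ∀ i, H.cl (Dv i) ∈ W := fun i => by
    rw [hDv2]
    exact (hb1 (e.symm i).2).1
  have hspan : W ≤ Submodule.span ℂ (Set.range fun i => H.cl (Dv i)) := by
    refine hW1.trans (hb2 ▸ Submodule.span_mono ?_)
    intro x hx
    refine ⟨e ⟨x, hx⟩, ?_⟩
    change H.cl (Dv (e ⟨x, hx⟩)) = x
    rw [hDv2, Equiv.symm_apply_apply]
  have hli : LinearIndependent ℂ fun i => H.cl (Dv i) := by
    have h1 : (fun i => H.cl (Dv i)) = (fun x : b => (x : H.A S)) ∘ e.symm := funext hDv2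
    rw [h1]
    exact hb3.comp _ e.symm.injective
  -- the intersection matrix
  have hdeg : ∀ i j, ∃ q : ℚ, HasDegree C (Dv i * Dv j) q := by
    intro i j
    apply exists_hasDegree
    have := C.mul_mem (hDv1 i) (hDv1 j)
    rw [hS]
    exact this
  choose M hM using hdeg
  obtain ⟨τ, ⟨κ, hκ, hτκ⟩, hτ1, -, hτ2⟩ := exists_integral H S
  have hτM : ∀ i j, τ (H.cl (Dv i) * H.cl (Dv j)) = M i j := by
    intro i j
    rw [← map_mul]
    apply hτ2 _ _ _ (hM i j)
    have := C.mul_mem (hDv1 i) (hDv1 j)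
    rw [hS]
    exact this
  have hsymm : ∀ i j, M i j = M j i := by
    intro i j
    have h1 := hM i j
    rw [ch_comm C] at h1
    exact hasDegree_unique H h1 (hM j i)
  have hdet : (Matrix.of M).det ≠ 0 := by
    intro h0
    obtain ⟨x, hx0, hx⟩ := Matrix.exists_mulVec_eq_zero_iff.2 h0
    apply hx0
    set w := ∑ j, (x j : ℂ) • H.cl (Dv j) with hw
    have hwW : w ∈ W := Submodule.sum_mem _ fun j _ => Submodule.smul_mem _ _ (hDW j)
    have h1 : ∀ i, H.tr S (w * H.cl (Dv i)) = 0 := by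
      intro i
      have h2 : τ (w * H.cl (Dv i)) = 0 := by
        rw [hw, Finset.sum_mul, map_sum]
        have h3 := congrFun hx i
        rw [Matrix.mulVec, dotProduct, Pi.zero_apply] at h3
        have h4 : ((∑ j, Matrix.of M i j * x j : ℚ) : ℂ) = 0 := by rw [h3]; norm_num
        rw [← h4]
        push_cast
        refine Finset.sum_congr rfl fun j _ => ?_
        rw [smul_mul_assoc, map_smul, hτM, smul_eq_mul, Matrix.of_apply, hsymm i j, mul_comm]
      rw [hτκ, LinearMap.smul_apply, smul_eq_mul] at h2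
      exact (mul_eq_zero.1 h2).resolve_left hκ
    have h2 : w = 0 := by
      apply hW2 w hwW
      intro w' hw'
      have h3 := hspan hw'
      refine (show Submodule.span ℂ _ ≤ LinearMap.ker (H.tr S ∘ₗ LinearMap.mulLeft ℂ w) from
        Submodule.span_le.2 ?_) h3
      rintro _ ⟨i, rfl⟩
      exact LinearMap.mem_ker.2 (h1 i)
    have h3 := Fintype.linearIndependent_iff.1 hli (fun j => (x j : ℂ)) (hw ▸ h2)
    funext j
    exact_mod_cast h3 j
  refine ⟨n, Dv, fun i => ∑ j, (Matrix.of M)⁻¹ i j • Dv j, hDv1,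
    fun i => Submodule.sum_mem _ fun j _ => Submodule.smul_mem _ _ (hDv1 j), ?_⟩
  intro τ' hτ' ω hω
  have hττ' : τ' = τ := by
    ext s
    have h1 := hτ' s
    rw [hτ1 S s] at h1
    by_contra hne
    have h2 : (τ s - τ' s) • (1 : H.A S) = 0 := by rw [sub_smul, h1, sub_self]
    have h4 : τ s - τ' s ≠ 0 := fun h => hne (sub_eq_zero.1 h).symm
    exact hH.one_ne_zero S (by
      rw [← one_smul ℂ (1 : H.A S), ← inv_mul_cancel₀ h4, mul_smul, h2, smul_zero])
  subst hττ'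
  have hfix : ∀ k, ∑ i, τ' (H.cl (Dv i) * H.cl (Dv k)) •
      H.cl (∑ j, (Matrix.of M)⁻¹ i j • Dv j) = H.cl (Dv k) := by
    intro k
    have h1 : ∀ i, τ' (H.cl (Dv i) * H.cl (Dv k)) • H.cl (∑ j, (Matrix.of M)⁻¹ i j • Dv j) =
        ∑ j, ((Matrix.of M k i * (Matrix.of M)⁻¹ i j : ℚ) : ℂ) • H.cl (Dv j) := by
      intro i
      rw [map_sum, Finset.smul_sum]
      refine Finset.sum_congr rfl fun j _ => ?_
      rw [cl_smul, smul_smul, hτM, Matrix.of_apply, hsymm k i]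
      push_cast
      rfl
    rw [Finset.sum_congr rfl fun i _ => h1 i, Finset.sum_comm]
    have h2 : ∀ j, ∑ i, ((Matrix.of M k i * (Matrix.of M)⁻¹ i j : ℚ) : ℂ) • H.cl (Dv j) =
        ((if k = j then 1 else 0 : ℚ) : ℂ) • H.cl (Dv j) := by
      intro j
      rw [← Finset.sum_smul]
      congr 1
      have h3 : (Matrix.of M * (Matrix.of M)⁻¹) k j = if k = j then 1 else 0 := by
        rw [Matrix.mul_nonsing_inv _ (isUnit_iff_ne_zero.2 hdet), Matrix.one_apply]
      rw [← h3, Matrix.mul_apply]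
      push_cast
      rfl
    rw [Finset.sum_congr rfl fun j _ => h2 j, Finset.sum_eq_single k]
    · rw [if_pos rfl, Rat.cast_one, one_smul]
    · intro j _ hj
      rw [if_neg (Ne.symm hj), Rat.cast_zero, zero_smul]
    · intro h
      exact absurd (Finset.mem_univ k) h
  set Q : H.A S →ₗ[ℂ] H.A S := ∑ i, (τ' ∘ₗ LinearMap.mulLeft ℂ (H.cl (Dv i))).smulRight
    (H.cl (∑ j, (Matrix.of M)⁻¹ i j • Dv j)) with hQ
  have hQ' : ∀ ω, Q ω = ∑ i, τ' (H.cl (Dv i) * ω) • H.cl (∑ j, (Matrix.of M)⁻¹ i j • Dv j) := by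
    intro ω
    rw [hQ, LinearMap.sum_apply]
    rfl
  rw [← hQ']
  refine (show Submodule.span ℂ _ ≤ LinearMap.eqLocus Q LinearMap.id from
    Submodule.span_le.2 ?_) (hspan hω)
  rintro _ ⟨i, rfl⟩
  change Q (H.cl (Dv i)) = H.cl (Dv i)
  rw [hQ', hfix]

/-- The external products of eigenclasses of two factors. -/
noncomputable def PW (H : WeilTheoryData.{u, v, 0} C ℂ) (f f' : Fac 𝒱) : Submodule ℂ (H.A (f.c.V.prod f'.c.V)) :=
  Submodule.span ℂ {w | ∃ (b : Bool) (i i' : ℤ) (x : H.A f.c.V) (y : H.A f'.c.V),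
    Eig H f b i x ∧ Eig H f' b i' y ∧ w = H.ext x y}

/-- **Opposite pairs.** If the external products of the isotypic classes of two factors are of type
`(1, 1)`, then the identity on them is given by divisors. -/
lemma exists_pair {Dt : HodgeData H} (hD : Dt.IsHodge) {f f' : Fac 𝒱}
    (hf : f.Ok D) (hf' : f'.Ok D)
    (h11 : ∀ (b : Bool) (i i' : ℤ) (x : H.A f.c.V) (y : H.A f'.c.V), Eig H f b i x →
      Eig H f' b i' y → H.ext x y ∈ Dt.hdg (f.c.V.prod f'.c.V) 1 1) :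
    ∃ (n : ℕ) (u v : Fin n → C.A (f.c.V.prod f'.c.V)),
      (∀ i, u i ∈ C.gr (f.c.V.prod f'.c.V) 1) ∧ (∀ i, v i ∈ C.gr (f.c.V.prod f'.c.V) 1) ∧
      ∀ τ : H.A (f.c.V.prod f'.c.V) →ₗ[ℂ] ℂ, (∀ s, H.push (snd (f.c.V.prod f'.c.V)
        (f.c.V.prod f'.c.V)) (H.pull (fst (f.c.V.prod f'.c.V) (f.c.V.prod f'.c.V)) s) =
          τ s • 1) → ∀ ω ∈ PW H f f', ∑ i, τ (H.cl (u i) * ω) • H.cl (v i) = ω := by
  have := hD.finite (f.c.V.prod f'.c.V)
  set S := f.c.V.prod f'.c.V with hS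
  set ψ : f.c.G × f'.c.G → ℂ := fun γ => f.χ γ.1 * f'.χ γ.2 with hψdef
  have hirr : IsIrr ψ (f.d * f'.d) := hf.irr.prod hf'.irr
  obtain ⟨R, l, hR, hRneg, hl0, -, hl1, hl2⟩ := hirr.exists_real (fun g => by
    rw [hirr.inv]
    exact ((hf.quad g.1).mul (hf'.quad g.2)).real)
  have hψ : ∀ γ : f.c.G × f'.c.G, ψ γ = f.χ γ.1 * f'.χ γ.2 := fun _ => rfl
  let σ : f.c.G × f'.c.G → (S ⟶ S) := fun γ => prodMap (f.c.ρ γ.1) (f'.c.ρ γ.2)
  have hσm : ∀ a b, σ (a * b) = σ b ≫ σ a := by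
    intro a b
    change prodMap (f.c.ρ (a.1 * b.1)) (f'.c.ρ (a.2 * b.2)) = prodMap _ _ ≫ prodMap _ _
    rw [prodMap_comp, hf.act.mul, hf'.act.mul]
  have hσ1 : σ 1 = 𝟙 S := by
    change prodMap (f.c.ρ 1) (f'.c.ρ 1) = 𝟙 S
    rw [hf.act.one, hf'.act.one]
    apply prod_ext
    · rw [prodMap_fst, Category.comp_id, Category.id_comp]
    · rw [prodMap_snd, Category.comp_id, Category.id_comp]
  have hσ : ∀ γ, σ γ ≫ σ γ⁻¹ = 𝟙 _ := by
    intro γ
    rw [← hσm, inv_mul_cancel, hσ1]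
  have hσ' : ∀ γ, σ γ⁻¹ ≫ σ γ = 𝟙 _ := by
    intro γ
    rw [← hσm, mul_inv_cancel, hσ1]
  set P : H.A S →ₗ[ℂ] H.A S := ∑ γ, (R γ : ℂ) • (H.pull (σ γ)).toLinearMap with hP
  have hP' : ∀ h, P h = ∑ γ, (R γ : ℂ) • H.pull (σ γ) h := by
    intro h
    rw [hP, LinearMap.sum_apply]
    rfl
  have hJ : ∀ (b : Bool) (a : H.A f.c.V) (a' : H.A f'.c.V), H.ext (avf H f b a) (avf H f' b a') =
      ∑ γ : f.c.G × f'.c.G, cv b (ψ γ) • H.pull (σ γ) (H.ext a a') := by
    intro b a a'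
    rw [avf_apply, avf_apply, ext_sum_sum, Fintype.sum_prod_type]
    refine Finset.sum_congr rfl fun g _ => Finset.sum_congr rfl fun g' _ => ?_
    change _ = cv b (f.χ g * f'.χ g') • H.pull (prodMap (f.c.ρ g) (f'.c.ρ g')) (H.ext a a')
    rw [pull_ext, cv_mul, map_smul, LinearMap.map_smul₂, smul_smul, mul_comm, extB_apply]
  -- the image of `P`
  have himg : ∀ h, P h ∈ PW H f f' := by
    intro h
    refine (show Submodule.span ℂ _ ≤ Submodule.comap P (PW H f f') from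
      Submodule.span_le.2 ?_) (mem_span_ext2 f.c.V f'.c.V h)
    rintro _ ⟨i, i', a, a', ha, ha', rfl⟩
    change P (H.ext a a') ∈ PW H f f'
    have h1 : P (H.ext a a') = ∑ b : Bool, H.ext (avf H f b a) (avf H f' b a') := by
      rw [Fintype.sum_bool, hJ, hJ, ← Finset.sum_add_distrib, hP']
      refine Finset.sum_congr rfl fun γ _ => ?_
      rw [← add_smul, hR, hirr.inv]
      rfl
    rw [h1]
    exact Submodule.sum_mem _ fun b _ => Submodule.subset_span
      ⟨b, i, i', _, _, eig_avf hf b i ha, eig_avf hf' b i' ha', rfl⟩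
  have hfl : (f.l : ℂ) ≠ 0 := by
    have := hf.irr.l_pos
    exact_mod_cast this.ne'
  have hfl' : (f'.l : ℂ) ≠ 0 := by
    have := hf'.irr.l_pos
    exact_mod_cast this.ne'
  -- `P` is multiplication by `l` on the products
  have hfix : ∀ w ∈ PW H f f', P w = (l : ℂ) • w := by
    intro w hw
    refine (show PW H f f' ≤ LinearMap.eqLocus P ((l : ℂ) • LinearMap.id) from
      Submodule.span_le.2 ?_) hw
    rintro _ ⟨b, i, i', x, y, hx, hy, rfl⟩
    change P (H.ext x y) = (l : ℂ) • H.ext x y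
    have hx' : avf H f b x = (f.l : ℂ) • x := (avf_apply f b x).trans hx.2
    have hy' : avf H f' b y = (f'.l : ℂ) • y := (avf_apply f' b y).trans hy.2
    have h1 : ((f.l : ℂ) * f'.l) • H.ext x y =
        ∑ γ : f.c.G × f'.c.G, cv b (ψ γ) • H.pull (σ γ) (H.ext x y) := by
      rw [← hJ, hx', hy', ← extB_apply, ← extB_apply, map_smul, LinearMap.map_smul₂, smul_smul,
        mul_comm]
    have h2 := convR (fun γ => (H.pull (σ γ)).toLinearMap) (fun g h y => by
      change H.pull (σ g) (H.pull (σ h) y) = H.pull (σ (h * g)) y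
      rw [← H.pull_comp, hσm]) (fun γ => (R γ : ℂ)) (fun γ => cv b (ψ γ)) (H.ext x y)
    have h3 : P (((f.l : ℂ) * f'.l) • H.ext x y) = (l : ℂ) • (((f.l : ℂ) * f'.l) • H.ext x y) := by
      rw [h1, hP']
      refine h2.trans ?_
      rw [Finset.smul_sum]
      refine Finset.sum_congr rfl fun e _ => ?_
      rw [smul_smul]
      congr 1
      cases b
      · have h4 := hl2 e
        rw [hirr.inv] at h4
        rw [show cv false (ψ e) = starRingEnd ℂ (ψ e) from rfl, ← h4]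
        refine Finset.sum_congr rfl fun g _ => ?_
        rw [hirr.inv, hirr.comm]
        rfl
      · rw [show cv true (ψ e) = ψ e from rfl, ← hl1 e]
        refine Finset.sum_congr rfl fun g _ => ?_
        rw [hirr.comm]
        rfl
    rw [map_smul, smul_comm] at h3
    have h5 : ((f.l : ℂ) * f'.l) ≠ 0 := mul_ne_zero hfl hfl'
    have h6 := congrArg (fun v => ((f.l : ℂ) * f'.l)⁻¹ • v) h3
    simp only [smul_smul, inv_mul_cancel₀ h5, one_smul] at h6
    rw [h6, inv_mul_cancel_left₀ h5]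
  have hl0' : (l : ℂ) ≠ 0 := by exact_mod_cast hl0
  have h11' : PW H f f' ≤ Dt.hdg S 1 1 := by
    refine Submodule.span_le.2 ?_
    rintro _ ⟨b, i, i', x, y, hx, hy, rfl⟩
    exact h11 b i i' x y hx hy
  -- rational classes
  have hrat : ∀ r ∈ Dt.rat S, P r ∈ Dt.rat S := by
    intro r hr
    rw [hP']
    refine Finset.sum_induction_nonempty _ (fun x => x ∈ Dt.rat S)
      (fun x y hx hy => hD.rat_add _ _ _ hx hy) ⟨1, Finset.mem_univ _⟩ fun γ _ => ?_
    exact hD.rat_smul _ _ _ (hD.rat_pull _ _ _ _ hr)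
  apply exists_dual (by rw [dim_prod, hf.act.dim_eq, hf'.act.dim_eq])
  · intro w hw
    have h1 : w ∈ Submodule.map P (Submodule.span ℂ (Dt.rat S)) := by
      rw [hD.rat_span]
      refine ⟨(l : ℂ)⁻¹ • w, trivial, ?_⟩
      rw [map_smul, hfix w hw, smul_smul, inv_mul_cancel₀ hl0', one_smul]
    rw [Submodule.map_span] at h1
    refine Submodule.span_mono ?_ h1
    rintro _ ⟨r, hr, rfl⟩
    exact ⟨himg r, hD.lefschetz S _ (hrat r hr) (h11' (himg r))⟩
  · intro w hw hw'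
    have hadj : ∀ x y, H.tr S (P x * y) = H.tr S (x * P y) := by
      intro x y
      rw [hP', hP', Finset.sum_mul, Finset.mul_sum, map_sum, map_sum]
      refine Fintype.sum_equiv (Equiv.inv _) _ _ fun γ => ?_
      change H.tr S ((R γ : ℂ) • H.pull (σ γ) x * y) =
        H.tr S (x * ((R γ⁻¹ : ℂ) • H.pull (σ γ⁻¹) y))
      rw [smul_mul_assoc, mul_smul_comm, map_smul, map_smul, hRneg]
      congr 1
      rw [← tr_pull_iso (σ γ) (σ γ⁻¹) (hσ γ) (hσ' γ) (x * H.pull (σ γ⁻¹) y),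
        map_mul (H.pull (σ γ)), ← H.pull_comp, hσ, H.pull_id]
    apply H.nondeg
    intro b
    have h1 := hw' (P b) (himg b)
    rw [← hadj, hfix w hw, smul_mul_assoc, map_smul, smul_eq_mul] at h1
    exact (mul_eq_zero.1 h1).resolve_left hl0'

end Pool.Agent.U191.EY
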