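import Pool.Agent.U191.EY.Block

/-!
# The product and its automorphisms
-/

set_option autoImplicit false
set_option linter.unusedSectionVars false

open CategoryTheory AlgebraicGeometry

universe u v

namespace Pool.Agent.U191.EY

open Pool.Agent.H914 Pool.Agent.H914.VarClass Pool.Agent.H914.VarClass.Obj Pool.Agent.W492.BB
  Pool.Agent.W550.Corr Pool.Agent.TH133

section quad

lemma InQuad.mul {D : ℕ} {z w : ℂ} (hz : InQuad D z) (hw : InQuad D w) : InQuad D (z * w) := by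
  obtain ⟨a, b, rfl⟩ := hz
  obtain ⟨a', b', rfl⟩ := hw
  refine ⟨a * a' - D * (b * b'), a * b' + b * a', ?_⟩
  have h1 : ((Real.sqrt D : ℝ) : ℂ) * (Real.sqrt D : ℝ) = (D : ℂ) := by
    rw [← Complex.ofReal_mul, Real.mul_self_sqrt (Nat.cast_nonneg D)]
    norm_num
  push_cast
  linear_combination (b : ℂ) * b' * (Complex.I * Complex.I) * h1 +
    (b : ℂ) * b' * D * Complex.I_mul_I

lemma InQuad.one (D : ℕ) : InQuad D 1 := ⟨1, 0, by simp⟩

lemma InQuad.real {D : ℕ} {z : ℂ} (hz : InQuad D z) :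
    ∃ q : ℚ, (q : ℂ) = z + starRingEnd ℂ z := by
  obtain ⟨a, b, rfl⟩ := hz
  refine ⟨2 * a, ?_⟩
  simp only [map_add, map_mul, Complex.conj_ofReal, Complex.conj_I, map_ratCast]
  push_cast
  ring

end quad

variable {k : Type u} [Field k] {𝒱 : VarClass k} {D : ℕ}

section maps

variable {B : 𝒱.Obj}

lemma mapL_one : ∀ {L : List (GCurve 𝒱)}, (∀ c ∈ L, c.IsAction) → mapL B L 1 = 𝟙 _
  | [], _ => rfl
  | c :: L, h => by
    change prodMap (c.ρ 1) (mapL B L 1) = 𝟙 _
    rw [mapL_one fun c' hc' => h c' (List.mem_cons_of_mem _ hc'),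
      (h c List.mem_cons_self).one]
    apply prod_ext
    · rw [prodMap_fst, Category.comp_id, Category.id_comp]
    · rw [prodMap_snd, Category.comp_id, Category.id_comp]

lemma mapL_mul : ∀ {L : List (GCurve 𝒱)}, (∀ c ∈ L, c.IsAction) → ∀ a b : Grp L,
    mapL B L (a * b) = mapL B L b ≫ mapL B L a
  | [], _, _, _ => (Category.comp_id _).symm
  | c :: L, h, a, b => by
    change prodMap (c.ρ (a.1 * b.1)) (mapL B L (a.2 * b.2)) =
      prodMap (c.ρ b.1) (mapL B L b.2) ≫ prodMap (c.ρ a.1) (mapL B L a.2)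
    rw [mapL_mul (fun c' hc' => h c' (List.mem_cons_of_mem _ hc')) a.2 b.2,
      (h c List.mem_cons_self).mul, prodMap_comp]

lemma mapL_inv {L : List (GCurve 𝒱)} (h : ∀ c ∈ L, c.IsAction) (a : Grp L) :
    mapL B L a ≫ mapL B L a⁻¹ = 𝟙 _ := by
  rw [← mapL_mul h, inv_mul_cancel, mapL_one h]

lemma mapL_inv' {L : List (GCurve 𝒱)} (h : ∀ c ∈ L, c.IsAction) (a : Grp L) :
    mapL B L a⁻¹ ≫ mapL B L a = 𝟙 _ := by
  rw [← mapL_mul h, mul_inv_cancel, mapL_one h]

lemma ρ_inv {c : GCurve 𝒱} (h : c.IsAction) (a : c.G) : c.ρ a ≫ c.ρ a⁻¹ = 𝟙 _ := by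
  rw [← h.mul, inv_mul_cancel, h.one]

lemma ρ_inv' {c : GCurve 𝒱} (h : c.IsAction) (a : c.G) : c.ρ a⁻¹ ≫ c.ρ a = 𝟙 _ := by
  rw [← h.mul, mul_inv_cancel, h.one]

end maps

/-- Convolution for right actions. -/
lemma convR {F V G : Type*} [Field F] [AddCommGroup V] [Module F V] [Group G] [Fintype G]
    (A : G → V →ₗ[F] V) (hA : ∀ g h x, A g (A h x) = A (h * g) x) (R S : G → F) (x : V) :
    ∑ g, R g • A g (∑ h, S h • A h x) = ∑ e, (∑ g, R g * S (e * g⁻¹)) • A e x := by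
  have h1 : ∀ g, R g • A g (∑ h, S h • A h x) = ∑ e, (R g * S (e * g⁻¹)) • A e x := by
    intro g
    rw [map_sum, Finset.smul_sum]
    refine Fintype.sum_equiv (Equiv.mulRight g) _ _ fun h => ?_
    change R g • A g (S h • A h x) = (R g * S (h * g * g⁻¹)) • A (h * g) x
    rw [map_smul, smul_smul, hA, mul_inv_cancel_right]
  rw [Finset.sum_congr rfl fun g _ => h1 g, Finset.sum_comm]
  refine Finset.sum_congr rfl fun e _ => ?_
  rw [Finset.sum_smul]

/-- Convolution for left actions. -/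
lemma convL {F V G : Type*} [Field F] [AddCommGroup V] [Module F V] [Group G] [Fintype G]
    (A : G → V →ₗ[F] V) (hA : ∀ g h x, A g (A h x) = A (g * h) x) (R S : G → F) (x : V) :
    ∑ g, R g • A g (∑ h, S h • A h x) = ∑ e, (∑ g, R g * S (g⁻¹ * e)) • A e x := by
  have h1 : ∀ g, R g • A g (∑ h, S h • A h x) = ∑ e, (R g * S (g⁻¹ * e)) • A e x := by
    intro g
    rw [map_sum, Finset.smul_sum]
    refine Fintype.sum_equiv (Equiv.mulLeft g) _ _ fun h => ?_
    change R g • A g (S h • A h x) = (R g * S (g⁻¹ * (g * h))) • A (g * h) x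
    rw [map_smul, smul_smul, hA, inv_mul_cancel_left]
  rw [Finset.sum_congr rfl fun g _ => h1 g, Finset.sum_comm]
  refine Finset.sum_congr rfl fun e _ => ?_
  rw [Finset.sum_smul]

lemma cv_mul (b : Bool) (z w : ℂ) : cv b (z * w) = cv b z * cv b w := by
  cases b
  · exact map_mul (starRingEnd ℂ) z w
  · rfl

lemma cv_not (b : Bool) (z : ℂ) : cv (!b) z = starRingEnd ℂ (cv b z) := by
  cases b
  · exact (Complex.conj_conj z).symm
  · rfl

/-- The convolution of the character or its conjugate with itself. -/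
lemma IsIrr.conv_cv {G : Type} [Group G] [Fintype G] {χ : G → ℂ} {d : ℚ} (h : IsIrr χ d)
    (b : Bool) (e : G) : ∑ g, cv b (χ g) * cv b (χ (e * g⁻¹)) =
      ((Fintype.card G / d : ℚ) : ℂ) * cv b (χ e) := by
  have h1 : ∑ g, χ g * χ (e * g⁻¹) = ((Fintype.card G / d : ℚ) : ℂ) * χ e := by
    rw [← h.conv]
    refine Finset.sum_congr rfl fun g _ => ?_
    rw [h.comm]
  cases b
  · change ∑ g, starRingEnd ℂ (χ g) * starRingEnd ℂ (χ (e * g⁻¹)) =
      ((Fintype.card G / d : ℚ) : ℂ) * starRingEnd ℂ (χ e)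
    have h2 := congrArg (starRingEnd ℂ) h1
    rw [map_sum, map_mul, map_ratCast] at h2
    rw [← h2]
    refine Finset.sum_congr rfl fun g _ => ?_
    rw [map_mul]
  · exact h1

section theory

variable {C : TheoryData.{u, v, 0} 𝒱 ℚ}
  [hC : IsChowProj C] {H : WeilTheoryData.{u, v, 0} C ℂ} [hH : IsWeilProj H] {B : 𝒱.Obj}

/-- The trace is invariant under isomorphisms. -/
lemma tr_pull_iso {X Y : 𝒱.Obj} (f : X ⟶ Y) (g : Y ⟶ X) (h1 : f ≫ g = 𝟙 X) (h2 : g ≫ f = 𝟙 Y)
    (s : H.A Y) : H.tr X (H.pull f s) = H.tr Y s := by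
  rw [← H.tr_push f, push_pull_iso H.toTheoryData f g h1 h2]

/-- External products as a bilinear map. -/
noncomputable def extB (H : WeilTheoryData.{u, v, 0} C ℂ) (X Y : 𝒱.Obj) :
    H.A X →ₗ[ℂ] H.A Y →ₗ[ℂ] H.A (X.prod Y) :=
  LinearMap.mk₂ ℂ H.ext
    (fun a b c => by rw [TheoryData.ext, map_add, add_mul]; rfl)
    (fun q a c => by rw [TheoryData.ext, map_smul, smul_mul_assoc]; rfl)
    (fun a b c => by rw [TheoryData.ext, map_add, mul_add]; rfl)
    (fun q a c => by rw [TheoryData.ext, map_smul, mul_smul_comm]; rfl)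

lemma extB_apply (X Y : 𝒱.Obj) (a : H.A X) (b : H.A Y) : extB H X Y a b = H.ext a b := rfl

lemma ext_sum_sum {X Y : 𝒱.Obj} {ι ι' : Type} [Fintype ι] [Fintype ι'] (a : ι → H.A X)
    (b : ι' → H.A Y) : H.ext (∑ i, a i) (∑ j, b j) = ∑ i, ∑ j, extB H X Y (a i) (b j) := by
  rw [← extB_apply, map_sum (extB H X Y), LinearMap.sum_apply]
  refine Finset.sum_congr rfl fun i _ => ?_
  rw [map_sum]

/-- The external product of nonzero classes is not zero. -/
lemma ext_ne_zero {X Y : 𝒱.Obj} {x : H.A X} {y : H.A Y} (hx : x ≠ 0) (hy : y ≠ 0) :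
    H.ext x y ≠ 0 := by
  intro h
  obtain ⟨τ, ⟨κ, hκ, hτ⟩, -, h2, -⟩ := exists_integral H Y
  obtain ⟨b', hb'⟩ : ∃ b', H.tr Y (y * b') ≠ 0 := by
    by_contra hn
    push Not at hn
    exact hy (H.nondeg y hn)
  apply hx
  apply H.nondeg
  intro b
  have h3 : H.push (fst X Y) (H.ext x y * H.pull (snd X Y) b' * H.pull (fst X Y) b) =
      τ (y * b') • (x * b) := by
    rw [H.proj_right, TheoryData.ext, mul_assoc, ← map_mul, H.proj_left, h2, mul_smul_comm,
      mul_one, smul_mul_assoc]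
  rw [h, zero_mul, zero_mul, map_zero] at h3
  have h4 : τ (y * b') ≠ 0 := by
    rw [hτ, LinearMap.smul_apply, smul_eq_mul]
    exact mul_ne_zero hκ hb'
  have h5 : x * b = 0 := by
    rw [← one_smul ℂ (x * b), ← inv_mul_cancel₀ h4, mul_smul, ← h3, smul_zero]
  rw [h5, map_zero]

/-- The averaging operator of a factor. -/
noncomputable def avf (H : WeilTheoryData.{u, v, 0} C ℂ) (f : Fac 𝒱) (b : Bool) :
    H.A f.c.V →ₗ[ℂ] H.A f.c.V :=
  ∑ g, cv b (f.χ g) • (H.pull (f.c.ρ g)).toLinearMap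

lemma avf_apply (f : Fac 𝒱) (b : Bool) (x : H.A f.c.V) :
    avf H f b x = ∑ g, cv b (f.χ g) • H.pull (f.c.ρ g) x := by
  rw [avf, LinearMap.sum_apply]
  rfl

/-- The averaging operator. -/
noncomputable def avg (H : WeilTheoryData.{u, v, 0} C ℂ) (B : 𝒱.Obj) (b : Bool)
    (L : List (Fac 𝒱)) : H.A (prodL B (cs L)) →ₗ[ℂ] H.A (prodL B (cs L)) :=
  ∑ γ : Grp (cs L), cv b (chL L γ) • (H.pull (mapL B (cs L) γ)).toLinearMap

lemma avg_apply (b : Bool) (L : List (Fac 𝒱)) (h : H.A (prodL B (cs L))) :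
    avg H B b L h = ∑ γ : Grp (cs L), cv b (chL L γ) • H.pull (mapL B (cs L) γ) h := by
  rw [avg, LinearMap.sum_apply]
  rfl

lemma avg_ext (b : Bool) (f : Fac 𝒱) (L : List (Fac 𝒱)) (x : H.A f.c.V)
    (t : H.A (prodL B (cs L))) :
    avg H B b (f :: L) (H.ext x t) = H.ext (avf H f b x) (avg H B b L t) := by
  have h1 : avg H B b (f :: L) (H.ext x t) = ∑ γ : f.c.G × Grp (cs L),
      cv b (f.χ γ.1 * chL L γ.2) •
        H.pull (prodMap (f.c.ρ γ.1) (mapL B (cs L) γ.2)) (H.ext x t) := avg_apply b (f :: L) _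
  rw [h1, avf_apply, avg_apply, ext_sum_sum, Fintype.sum_prod_type]
  refine Finset.sum_congr rfl fun g _ => Finset.sum_congr rfl fun γ _ => ?_
  rw [pull_ext, cv_mul, map_smul, LinearMap.map_smul₂, smul_smul, mul_comm, extB_apply]

/-- The averaging operator multiplies product classes by a number. -/
lemma avg_pc (b : Bool) : ∀ (L : List (Fac 𝒱)) (w : H.A (prodL B (cs L))), PC H B b L w →
    avg H B b L w = ((L.map Fac.l).prod : ℂ) • w
  | [], w, _ => by
    rw [avg_apply]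
    have h0 : ∀ γ, cv b (chL [] γ) • H.pull (mapL B (cs []) γ) w = w := by
      intro γ
      have h0 : H.pull (mapL B (cs []) γ) w = w := H.pull_id (X := prodL B (cs [])) w
      have h1 : cv b (chL [] γ : ℂ) = 1 := by
        cases b
        · exact map_one (starRingEnd ℂ)
        · rfl
      rw [h0, h1, one_smul]
    rw [Finset.sum_congr rfl fun γ _ => h0 γ, Finset.sum_const, Finset.card_univ]
    have h1 : Fintype.card (Grp (cs ([] : List (Fac 𝒱)))) = 1 := Fintype.card_punit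
    rw [h1, one_smul]
    simp
  | f :: L, w, h => by
    obtain ⟨i, x, t, hx, ht, rfl⟩ := h
    have h1 : avf H f b x = (f.l : ℂ) • x := (avf_apply f b x).trans hx.2
    rw [avg_ext, h1, avg_pc b L t ht, ← extB_apply, ← extB_apply, map_smul, LinearMap.map_smul₂,
      smul_smul, List.map_cons, List.prod_cons, Rat.cast_mul, mul_comm]
    rfl

/-- The average over the group of one factor is an isotypic class. -/
lemma eig_avf {f : Fac 𝒱} (hf : f.Ok D) (b : Bool) (i : ℤ) {x : H.A f.c.V}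
    (hx : x ∈ H.gr f.c.V i) : Eig H f b i (avf H f b x) := by
  rw [avf_apply]
  refine ⟨Submodule.sum_mem _ fun g _ => Submodule.smul_mem _ _ (H.pull_mem _ hx), ?_⟩
  have h1 := convR (fun g => (H.pull (f.c.ρ g)).toLinearMap) (fun g h y => by
    change H.pull (f.c.ρ g) (H.pull (f.c.ρ h) y) = H.pull (f.c.ρ (h * g)) y
    rw [← H.pull_comp, hf.act.mul]) (fun g => cv b (f.χ g)) (fun g => cv b (f.χ g)) x
  refine h1.trans ?_
  rw [Finset.smul_sum]
  refine Finset.sum_congr rfl fun e _ => ?_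
  rw [hf.irr.conv_cv, smul_smul]
  rfl

/-- Classes on a product of two varieties are sums of external products of homogeneous classes. -/
lemma mem_span_ext2 (X Y : 𝒱.Obj) (h : H.A (X.prod Y)) :
    h ∈ Submodule.span ℂ {c | ∃ (l l' : ℤ) (a : H.A X) (b : H.A Y), a ∈ H.gr X l ∧ b ∈ H.gr Y l' ∧
      c = H.ext a b} := by
  have h2 := span_gr H (X.prod Y) h
  refine (iSup_le fun i => ?_ : ⨆ i, H.gr (X.prod Y) i ≤ _) h2
  refine (H.kunneth X Y i).trans (Submodule.span_mono ?_)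
  rintro _ ⟨l, a, b, ha, hb, rfl⟩
  exact ⟨l, _, a, b, ha, hb, rfl⟩

lemma avg_mem (b : Bool) : ∀ (L : List (Fac 𝒱)), (∀ f ∈ L, f.Ok D) →
    ∀ h : H.A (prodL B (cs L)), avg H B b L h ∈ Submodule.span ℂ {w | PC H B b L w}
  | [], _, _ => Submodule.subset_span trivial
  | f :: L, hL, h => by
    have h1 := mem_span_ext2 f.c.V (prodL B (cs L)) h
    refine (show _ ≤ (Submodule.comap (avg H B b (f :: L)) (Submodule.span ℂ
      {w | PC H B b (f :: L) w}) : Submodule ℂ (H.A (f.c.V.prod (prodL B (cs L)))))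
      from Submodule.span_le.2 ?_) h1
    rintro _ ⟨l, l', a, t, ha, -, rfl⟩
    change avg H B b (f :: L) (H.ext a t) ∈ Submodule.span ℂ {w | PC H B b (f :: L) w}
    rw [avg_ext]
    have h2 := avg_mem b L (fun f' hf' => hL f' (List.mem_cons_of_mem _ hf')) t
    have h3 := eig_avf (hL f List.mem_cons_self) b l ha
    set x := avf H f b a
    set t' := avg H B b L t
    clear_value x t'
    refine (show _ ≤ (Submodule.comap (extB H f.c.V (prodL B (cs L)) x) (Submodule.span ℂ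
      {w | PC H B b (f :: L) w})) from Submodule.span_le.2 ?_) h2
    intro y hy
    exact Submodule.subset_span ⟨l, x, y, h3, hy, rfl⟩

/-- Existence of nonzero product classes with prescribed Hodge types. -/
lemma exists_pc {Dt : HodgeData H} (hD : Dt.IsHodge) (s : Fac 𝒱 → ℕ × ℕ) :
    ∀ L : List (Fac 𝒱), (∀ f ∈ L, ∃ i x, x ≠ 0 ∧ Eig H f true i x ∧
      x ∈ Dt.hdg f.c.V (s f).1 (s f).2) →
    ∃ w : H.A (prodL B (cs L)), w ≠ 0 ∧ PC H B true L w ∧
      w ∈ Dt.hdg (prodL B (cs L)) (L.map fun f => (s f).1).sum (L.map fun f => (s f).2).sum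
  | [], _ => ⟨1, hH.one_ne_zero B, trivial, hD.one_mem B⟩
  | f :: L, h => by
    obtain ⟨i, x, hx0, hx, hxs⟩ := h f List.mem_cons_self
    obtain ⟨t, ht0, ht, hts⟩ := exists_pc hD s L fun f' hf' => h f' (List.mem_cons_of_mem _ hf')
    refine ⟨H.ext x t, ext_ne_zero hx0 ht0, ⟨i, x, t, hx, ht, rfl⟩, ?_⟩
    rw [List.map_cons, List.map_cons, List.sum_cons, List.sum_cons]
    exact hD.mul_mem _ _ _ _ _ _ _ (hD.pull_mem _ _ _ _ _ _ hxs) (hD.pull_mem _ _ _ _ _ _ hts)

end theory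

end Pool.Agent.U191.EY
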