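import Pool.Agent.U191.EY.Char
import Pool.Agent.U191.EY.Base

/-!
# Complete families of irreducible matrix representations
-/

set_option autoImplicit false

open Matrix

namespace Pool.Agent.U191.EY

variable {G : Type} [Group G] [Fintype G] {F : Type} [Field F] {Φ : Type} {n : Φ → ℕ}

variable {ρ : ∀ φ, G →* Matrix (Fin (n φ)) (Fin (n φ)) F}

lemma IsComplete.exists_single (h : IsComplete ρ) (φ : Φ) (A : Matrix (Fin (n φ)) (Fin (n φ)) F) :
    ∃ x : G → F, ∑ g, x g • ρ φ g = A ∧ ∀ ψ, ψ ≠ φ → ∑ g, x g • ρ ψ g = 0 := by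
  classical
  obtain ⟨x, hx⟩ := h.bij.2 (Function.update (fun _ => 0) φ A)
  refine ⟨x, ?_, fun ψ hψ => ?_⟩
  · have h1 := congrFun hx φ
    rw [Function.update_self] at h1
    exact h1
  · have h1 := congrFun hx ψ
    rw [Function.update_of_ne hψ] at h1
    exact h1

lemma avg_comm (ρ : ∀ φ, G →* Matrix (Fin (n φ)) (Fin (n φ)) F) (φ ψ : Φ)
    (T : Matrix (Fin (n ψ)) (Fin (n φ)) F) (x : G → F) :
    (∑ g, x g • ρ ψ g) * (∑ g, ρ ψ g * T * ρ φ g⁻¹) =
      (∑ g, ρ ψ g * T * ρ φ g⁻¹) * (∑ g, x g • ρ φ g) := by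
  have key : ∀ h, ρ ψ h * (∑ g, ρ ψ g * T * ρ φ g⁻¹) =
      (∑ g, ρ ψ g * T * ρ φ g⁻¹) * ρ φ h := by
    intro h
    rw [Matrix.mul_sum, Matrix.sum_mul]
    refine Fintype.sum_equiv (Equiv.mulLeft h) _ _ fun g => ?_
    change ρ ψ h * (ρ ψ g * T * ρ φ g⁻¹) = ρ ψ (h * g) * T * ρ φ (h * g)⁻¹ * ρ φ h
    rw [map_mul (ρ ψ) h g, _root_.mul_inv_rev, map_mul (ρ φ) g⁻¹ h⁻¹]
    have h1 : ρ φ h⁻¹ * ρ φ h = 1 := by rw [← map_mul, inv_mul_cancel, map_one]
    simp only [Matrix.mul_assoc, h1, Matrix.mul_one]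
  rw [Matrix.sum_mul, Matrix.mul_sum]
  refine Finset.sum_congr rfl fun h _ => ?_
  rw [Matrix.smul_mul, Matrix.mul_smul, key]

/-- The lemma of Schur for one representation. -/
lemma IsComplete.schur [CharZero F] (h : IsComplete ρ) (φ : Φ)
    (T : Matrix (Fin (n φ)) (Fin (n φ)) F) :
    ∑ g, ρ φ g * T * ρ φ g⁻¹ = ((Fintype.card G : F) / n φ * T.trace) • 1 := by
  have hn : (n φ : F) ≠ 0 := by exact_mod_cast (h.pos φ).ne'
  set S := ∑ g, ρ φ g * T * ρ φ g⁻¹ with hS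
  have hcomm : ∀ A, A * S = S * A := by
    intro A
    obtain ⟨x, hx, -⟩ := h.exists_single φ A
    rw [← hx]
    exact avg_comm ρ φ φ T x
  obtain ⟨c, hc⟩ := (Matrix.mem_range_scalar_iff_commute_single' (M := S)).2
    (fun i j => hcomm _)
  have htr : S.trace = Fintype.card G * T.trace := by
    rw [hS, Matrix.trace_sum]
    have h1 : ∀ g, (ρ φ g * T * ρ φ g⁻¹).trace = T.trace := by
      intro g
      rw [Matrix.trace_mul_comm, ← Matrix.mul_assoc, ← map_mul, inv_mul_cancel, map_one,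
        Matrix.one_mul]
    rw [Finset.sum_congr rfl fun g _ => h1 g, Finset.sum_const, Finset.card_univ, nsmul_eq_mul]
  have hc' : S = c • (1 : Matrix (Fin (n φ)) (Fin (n φ)) F) := by
    rw [← hc, Matrix.scalar_apply, Matrix.smul_one_eq_diagonal]
  rw [hc'] at htr ⊢
  rw [Matrix.trace_smul, Matrix.trace_one, Fintype.card_fin, smul_eq_mul] at htr
  congr 1
  field_simp
  rw [htr]

/-- The lemma of Schur for two representations. -/
lemma IsComplete.schur_ne (h : IsComplete ρ) {φ ψ : Φ} (hφψ : ψ ≠ φ)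
    (T : Matrix (Fin (n ψ)) (Fin (n φ)) F) : ∑ g, ρ ψ g * T * ρ φ g⁻¹ = 0 := by
  obtain ⟨x, hx, hx'⟩ := h.exists_single ψ 1
  have h1 := avg_comm ρ φ ψ T x
  rwa [hx, hx' φ hφψ.symm, Matrix.one_mul, Matrix.mul_zero] at h1

/-- Orthogonality of the matrix coefficients. -/
lemma IsComplete.coef [CharZero F] (h : IsComplete ρ) (φ : Φ) (i j k l : Fin (n φ)) :
    ∑ g, ρ φ g i j * ρ φ g⁻¹ k l =
      (Fintype.card G : F) / n φ * (if j = k then 1 else 0) * (if i = l then 1 else 0) := by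
  have h1 := congrFun (congrFun (h.schur φ (Matrix.single j k 1)) i) l
  rw [Matrix.sum_apply, Matrix.smul_apply, Matrix.one_apply, smul_eq_mul] at h1
  have h2 : ∀ g, (ρ φ g * (Matrix.single j k 1 : Matrix (Fin (n φ)) (Fin (n φ)) F) *
      ρ φ g⁻¹) i l = ρ φ g i j * ρ φ g⁻¹ k l := by
    intro g
    rw [Matrix.mul_assoc, Matrix.mul_apply]
    rw [Finset.sum_eq_single j]
    · rw [Matrix.single_mul_apply_same, one_mul]
    · intro b _ hb
      rw [Matrix.single_mul_apply_of_ne _ _ _ _ _ hb, mul_zero]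
    · intro h
      exact absurd (Finset.mem_univ j) h
  rw [Finset.sum_congr rfl fun g _ => h2 g] at h1
  rw [h1]
  congr 2
  by_cases hjk : j = k
  · subst hjk
    rw [if_pos rfl, Matrix.trace_single_eq_same]
  · rw [if_neg hjk, Matrix.trace_single_eq_of_ne _ _ _ hjk]

lemma IsComplete.coef_ne (h : IsComplete ρ) {φ ψ : Φ} (hφψ : ψ ≠ φ) (i j : Fin (n ψ))
    (k l : Fin (n φ)) : ∑ g, ρ ψ g i j * ρ φ g⁻¹ k l = 0 := by
  have h1 := congrFun (congrFun (h.schur_ne hφψ (Matrix.single j k 1)) i) l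
  rw [Matrix.sum_apply, Matrix.zero_apply] at h1
  rw [← h1]
  refine Finset.sum_congr rfl fun g _ => ?_
  rw [Matrix.mul_assoc, Matrix.mul_apply, Finset.sum_eq_single j]
  · rw [Matrix.single_mul_apply_same, one_mul]
  · intro b _ hb
    rw [Matrix.single_mul_apply_of_ne _ _ _ _ _ hb, mul_zero]
  · intro h
    exact absurd (Finset.mem_univ j) h

/-- The character. -/
def chi (ρ : ∀ φ, G →* Matrix (Fin (n φ)) (Fin (n φ)) F) (φ : Φ) (g : G) : F := (ρ φ g).trace

/-- The central idempotents. -/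
lemma IsComplete.idem [CharZero F] (h : IsComplete ρ) (φ : Φ) :
    ∑ g, chi ρ φ g • ρ φ g⁻¹ = ((Fintype.card G : F) / n φ) • 1 := by
  ext k l
  rw [Matrix.sum_apply, Matrix.smul_apply, Matrix.one_apply, smul_eq_mul]
  have h1 : ∀ g, (chi ρ φ g • ρ φ g⁻¹) k l = ∑ i, ρ φ g i i * ρ φ g⁻¹ k l := by
    intro g
    rw [Matrix.smul_apply, chi, Matrix.trace, smul_eq_mul, Finset.sum_mul]
    rfl
  rw [Finset.sum_congr rfl fun g _ => h1 g, Finset.sum_comm]
  rw [Finset.sum_congr rfl fun i _ => h.coef φ i i k l]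
  rw [Finset.sum_eq_single k]
  · rw [if_pos rfl, mul_one]
  · intro b _ hb
    rw [if_neg hb, mul_zero, zero_mul]
  · intro h
    exact absurd (Finset.mem_univ k) h

lemma IsComplete.idem_ne (h : IsComplete ρ) {φ ψ : Φ} (hφψ : ψ ≠ φ) :
    ∑ g, chi ρ ψ g • ρ φ g⁻¹ = 0 := by
  ext k l
  rw [Matrix.sum_apply, Matrix.zero_apply]
  have h1 : ∀ g, (chi ρ ψ g • ρ φ g⁻¹) k l = ∑ i, ρ ψ g i i * ρ φ g⁻¹ k l := by
    intro g
    rw [Matrix.smul_apply, chi, Matrix.trace, smul_eq_mul, Finset.sum_mul]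
    rfl
  rw [Finset.sum_congr rfl fun g _ => h1 g, Finset.sum_comm]
  exact Finset.sum_eq_zero fun i _ => h.coef_ne hφψ i i k l

/-- The characters form a complete system. -/
lemma IsComplete.sum_chi [CharZero F] [Fintype Φ] (h : IsComplete ρ) (g : G) [Decidable (g = 1)] :
    ∑ φ, (n φ : F) * chi ρ φ g = if g = 1 then (Fintype.card G : F) else 0 := by
  classical
  have hc : (Fintype.card G : F) ≠ 0 := by exact_mod_cast (card_pos' (G := G)).ne'
  have h1 : (fun g => ∑ φ, (n φ : F) / Fintype.card G * chi ρ φ g⁻¹) =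
      fun g : G => if g = 1 then (1 : F) else 0 := by
    apply h.bij.1
    funext ψ
    change ∑ g, (∑ φ, (n φ : F) / Fintype.card G * chi ρ φ g⁻¹) • ρ ψ g =
      ∑ g, (if g = 1 then (1 : F) else 0) • ρ ψ g
    have h2 : ∑ g, (if g = 1 then (1 : F) else 0) • ρ ψ g = 1 := by
      rw [Finset.sum_eq_single 1]
      · rw [if_pos rfl, one_smul, map_one]
      · intro b _ hb
        rw [if_neg hb, zero_smul]
      · intro h
        exact absurd (Finset.mem_univ _) h
    rw [h2]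
    have h3 : ∀ φ, ∑ g, chi ρ φ g⁻¹ • ρ ψ g = if φ = ψ then ((Fintype.card G : F) / n ψ) •
        (1 : Matrix (Fin (n ψ)) (Fin (n ψ)) F) else 0 := by
      intro φ
      have h4 : ∑ g, chi ρ φ g⁻¹ • ρ ψ g = ∑ g, chi ρ φ g • ρ ψ g⁻¹ :=
        Fintype.sum_equiv (Equiv.inv G) _ _ fun g => by
          change _ = chi ρ φ g⁻¹ • ρ ψ g⁻¹⁻¹
          rw [inv_inv]
      rw [h4]
      split_ifs with h5
      · subst h5
        exact h.idem φ
      · exact h.idem_ne h5
    simp_rw [Finset.sum_smul, mul_smul]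
    rw [Finset.sum_comm]
    simp_rw [← Finset.smul_sum, h3]
    rw [Finset.sum_eq_single ψ]
    · have hn : (n ψ : F) ≠ 0 := by exact_mod_cast (h.pos ψ).ne'
      rw [if_pos rfl, smul_smul, div_mul_div_comm, mul_comm (n ψ : F),
        div_self (mul_ne_zero hc hn), one_smul]
    · intro φ _ hφ
      rw [if_neg hφ, smul_zero]
    · intro h
      exact absurd (Finset.mem_univ _) h
  have h2 := congrFun h1 g⁻¹
  simp only [inv_inv, inv_eq_one] at h2
  have h3 : ∑ φ, (n φ : F) * chi ρ φ g = Fintype.card G *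
      ∑ φ, (n φ : F) / Fintype.card G * chi ρ φ g := by
    rw [Finset.mul_sum]
    refine Finset.sum_congr rfl fun φ _ => ?_
    field_simp
  rw [h3, h2]
  split_ifs <;> simp

section complex

variable {ρ : ∀ φ, G →* Matrix (Fin (n φ)) (Fin (n φ)) ℂ}

open ComplexOrder in
/-- The trace of the inverse. -/
lemma chi_inv (ρ : ∀ φ, G →* Matrix (Fin (n φ)) (Fin (n φ)) ℂ) (φ : Φ) (g : G) :
    chi ρ φ g⁻¹ = starRingEnd ℂ (chi ρ φ g) := by
  classical
  set P : Matrix (Fin (n φ)) (Fin (n φ)) ℂ := ∑ h, (ρ φ h)ᴴ * ρ φ h with hP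
  have hpos : P.PosDef := by
    rw [hP, ← Finset.add_sum_erase _ _ (Finset.mem_univ (1 : G))]
    apply Matrix.PosDef.add_posSemidef
    · rw [map_one, Matrix.conjTranspose_one, Matrix.one_mul]
      exact Matrix.PosDef.one
    · exact Matrix.posSemidef_sum _ fun h _ => Matrix.posSemidef_conjTranspose_mul_self _
  have h1 : (ρ φ g)ᴴ * P * ρ φ g = P := by
    rw [hP, Finset.mul_sum, Finset.sum_mul]
    refine Fintype.sum_equiv (Equiv.mulRight g) _ _ fun h => ?_
    change (ρ φ g)ᴴ * ((ρ φ h)ᴴ * ρ φ h) * ρ φ g = (ρ φ (h * g))ᴴ * ρ φ (h * g)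
    rw [map_mul, Matrix.conjTranspose_mul]
    simp only [Matrix.mul_assoc]
  have h2 : ρ φ g * ρ φ g⁻¹ = 1 := by rw [← map_mul, mul_inv_cancel, map_one]
  have h3 : (ρ φ g)ᴴ * P = P * ρ φ g⁻¹ := by
    conv_rhs => rw [← h1]
    rw [Matrix.mul_assoc, h2, Matrix.mul_one]
  have h4 : P⁻¹ * P = 1 := Matrix.nonsing_inv_mul _ (by
    have := hpos.isUnit
    exact (Matrix.isUnit_iff_isUnit_det _).1 this)
  have h4' : P * P⁻¹ = 1 := Matrix.mul_nonsing_inv _ (by
    have := hpos.isUnit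
    exact (Matrix.isUnit_iff_isUnit_det _).1 this)
  have h5 : ρ φ g⁻¹ = P⁻¹ * ((ρ φ g)ᴴ * P) := by
    rw [h3, ← Matrix.mul_assoc, h4, Matrix.one_mul]
  rw [chi, h5, Matrix.trace_mul_comm, Matrix.mul_assoc, h4', Matrix.mul_one,
    Matrix.trace_conjTranspose]
  rfl

/-- The characters of a complete family are irreducible characters. -/
lemma IsComplete.isIrr (h : IsComplete ρ) (φ : Φ) : IsIrr (chi ρ φ) (n φ) where
  pos := by exact_mod_cast h.pos φ
  one := by
    rw [chi, map_one, Matrix.trace_one, Fintype.card_fin]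
    norm_num
  inv g := chi_inv ρ φ g
  func g k := by
    have h1 := h.schur φ (ρ φ k)
    have h2 : ∀ x, chi ρ φ (g * (x * k * x⁻¹)) = (ρ φ g * (ρ φ x * ρ φ k * ρ φ x⁻¹)).trace := by
      intro x
      rw [chi, map_mul, map_mul, map_mul]
    rw [Finset.sum_congr rfl fun x _ => h2 x, ← Matrix.trace_sum, ← Finset.mul_sum, h1,
      Matrix.mul_smul, Matrix.mul_one, Matrix.trace_smul, smul_eq_mul]
    change _ * chi ρ φ k * chi ρ φ g = _
    push_cast
    ring
  conv g := by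
    have h1 := congrArg (fun M => (M * ρ φ g).trace) (h.idem φ)
    simp only [Matrix.smul_mul, Matrix.one_mul, Matrix.trace_smul, smul_eq_mul, Finset.sum_mul,
      Matrix.trace_sum] at h1
    have h2 : ∀ k, chi ρ φ k * chi ρ φ (k⁻¹ * g) = chi ρ φ k * (ρ φ k⁻¹ * ρ φ g).trace := by
      intro k
      rw [← map_mul]
      rfl
    rw [Finset.sum_congr rfl fun k _ => h2 k, h1]
    push_cast
    rfl

end complex

end Pool.Agent.U191.EY
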